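import Pool.Agent.Lib.MP_5c0be7_lc.O.Ev

/-!
Project KM, fine hierarchy, part 3: embeddings, premice, ultrapowers.
-/

namespace Pool.Agent.KM

open Ordinal Tr
open scoped Classical

universe u

/-- `f` is strictly increasing on `S`. -/
abbrev Mono (f : Ordinal.{u} → Ordinal.{u}) (S : Set Ordinal.{u}) : Prop := StrictMonoOn f S

/-- Agreement of two sequences below `d`. -/
def Agree (E E' : Seq.{u}) (d : Ordinal.{u}) : Prop := ∀ v < d, E v = E' v

/-- `s` commutes with evaluation at level `b` of `E` and level `b'` of `E'`. -/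
def Comm (E : Seq.{u}) (b : Ordinal.{u}) (E' : Seq.{u}) (b' : Ordinal.{u})
    (s : Ordinal.{u} → Ordinal.{u}) : Prop :=
  ∀ c x, In b x → ev E' b' c (x.map s) = (ev E b c x).map (Tr.map s)

/-- Weak embedding of `(d, E)` in `(d', E')`: commutes with all levels below `d`. -/
structure Weak (E : Seq.{u}) (d : Ordinal.{u}) (E' : Seq.{u}) (d' : Ordinal.{u})
    (s : Ordinal.{u} → Ordinal.{u}) : Prop where
  mono : Mono s (Set.Iio d)
  maps : ∀ a < d, s a < d'
  top : ∀ b, d = b + 1 → d' = s b + 1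
  comm : ∀ b < d, Comm E b E' (s b) s

/-- Strong embedding: also commutes with level `d`. -/
structure Strong (E : Seq.{u}) (d : Ordinal.{u}) (E' : Seq.{u}) (d' : Ordinal.{u})
    (s : Ordinal.{u} → Ordinal.{u}) : Prop extends Weak E d E' d' s where
  commTop : Comm E d E' d' s

/-- Inclusion of named sets on the stratum `k` goes up along `s`. -/
def UpInc (E : Seq.{u}) (d : Ordinal.{u}) (E' : Seq.{u}) (s : Ordinal.{u} → Ordinal.{u})
    (k : Ordinal.{u}) : Prop :=
  ∀ t n, In d t → In d n → (∀ v, In k v → Nm E t v → Nm E n v) →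
    ∀ v, In (s k) v → Nm E' (t.map s) v → Nm E' (n.map s) v

/-- Good weak embedding between premice of successor height `b + 1`. -/
structure Good (E : Seq.{u}) (b : Ordinal.{u}) (E' : Seq.{u}) (s : Ordinal.{u} → Ordinal.{u}) :
    Prop extends Weak E (b + 1) E' (s b + 1) s where
  proj : ∀ k < rho E b, s k < rho E' (s b)
  card : ∀ k t, k < b → t < b → (∀ a, t ≤ a → a < b → k ≤ rho E a) →
    ∀ a, s t ≤ a → a < s b → s k ≤ rho E' a
  inc : ∀ k < rho E b, UpInc E (b + 1) E' s k

/-- Below `t`, cofinally many levels project to `k`. -/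
def TopC (E : Seq.{u}) (k t : Ordinal.{u}) : Prop := ∀ b < t, ∃ a, b ≤ a ∧ a < t ∧ rho E a ≤ k

/-- No level in `[t, d)` projects to `k`. -/
def NoProj (E : Seq.{u}) (k t d : Ordinal.{u}) : Prop := ∀ a, t ≤ a → a < d → k < rho E a

/-- `t` is the successor cardinal of `k` in `(d, E)`. -/
def IsNext (E : Seq.{u}) (d k t : Ordinal.{u}) : Prop :=
  k < t ∧ t ≤ d ∧ TopC E k t ∧ NoProj E k t d

/-- `k` is a cardinal of `(d, E)`. -/
def IsCard (E : Seq.{u}) (d k : Ordinal.{u}) : Prop := ∀ a, k ≤ a → a < d → k ≤ rho E a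

/-- The value at `x` of the function named by `t`. -/
noncomputable def fv (E : Seq.{u}) (t x : Tr.{u}) : Option Tr.{u} :=
  if t.fst = leaf t.fst.lab then ev E t.fst.lab t.snd.fst (node x t.snd.snd) else none

/-- `F` is the fragment below `l` of an extender with critical point `k` on `(d, E)` that coheres
with `E`; `F X a` says that the set named by `X` has measure one for the generators `a`. -/
structure Frag (E : Seq.{u}) (d k t l : Ordinal.{u}) (F : Tr.{u} → Tr.{u} → Prop) : Prop where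
  fix : ∀ X a, In t X → In k a → In l a → (F X a ↔ Nm E X a)
  ultra : ∀ X Y a, In t X → In t Y → In l a → (∀ v, In k v → Nm E X v ∨ Nm E Y v) → F X a ∨ F Y a
  sat : ∀ X Y Z W a b c, In t X → In t Y → In t Z → In t W → In l a → In l b → In l c →
    F X (node a b) → F Y (node a c) → F Z (node b c) → F W (node a a) →
    ∃ x y z, In k x ∧ In k y ∧ In k z ∧ Nm E X (node x y) ∧ Nm E Y (node x z) ∧
      Nm E Z (node y z) ∧ Nm E W (node x x)
  fst : ∀ X a b, In t X → In l a → In l b →
    (∀ x y, In k x → In k y → Nm E X (node (node x y) x)) → F X (node (node a b) a)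
  snd : ∀ X a b, In t X → In l a → In l b →
    (∀ x y, In k x → In k y → Nm E X (node (node x y) y)) → F X (node (node a b) b)
  lt : ∀ X a b, In t X → In l a → In l b →
    (∀ x y, In k x → In k y → Lt x y → Nm E X (node x y)) → Lt a b → F X (node a b)
  nm : ∀ X a b, In t X → In l a → In l b →
    (∀ x y, In k x → In k y → (Nm E X (node x y) ↔ Lt x y ∧ Nm E y x)) →
    (F X (node a b) ↔ Lt a b ∧ Nm E b a)
  normal : ∀ f w c b, In t f → In t w → In l c → In l b →
    (∀ x y, In k x → In k y → Nm E w (node x y) → ∃ z, Lt z y ∧ Nm E f (node x z)) →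
    F w (node c b) → ∃ a, Lt a b ∧ F f (node c a)
  wf : ∀ X h S, In t X → In t h → In d S → (∀ x, In k x → ∃ z, Nm E h (node x z)) →
    (∀ x y z w, In k x → In k y → Nm E X (node x y) → Nm E h (node x z) → Nm E h (node y w) →
      Lt z w) →
    (∀ a, In l a → Nm E S a → ∃ a', In l a' ∧ Nm E S a' ∧ F X (node a' a)) →
    ∀ a, In l a → ¬ Nm E S a

/-- `k` is strong below `d`, witnessed by named fragments. -/
def StrongTo (E : Seq.{u}) (d k : Ordinal.{u}) : Prop :=
  ω < k ∧ ∃ t, t < d ∧ IsNext E d k t ∧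
    ∀ l < d, ∃ n, In d n ∧ Frag E d k t l fun X a => Nm E n (node X a)

/-- `k` is not a limit of ordinals that are strong below `k`. -/
def Small (E : Seq.{u}) (k : Ordinal.{u}) : Prop := ∃ a < k, ∀ m, a < m → m < k → ¬ StrongTo E k m

/-- `e` has no cutpoint strictly between `k` and `e k`. -/
def TypeA (E' : Seq.{u}) (k t : Ordinal.{u}) (e : Ordinal.{u} → Ordinal.{u}) : Prop :=
  ∀ l, k < l → l < e k → ∃ f a y, In t f ∧ In l a ∧ fv E' (f.map e) a = some (leaf y) ∧
    l ≤ y ∧ y < e k

/-- `e` is a cofinal weak embedding of level `t` of `E` in level `v` of `E'`, and `k` is the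
largest cardinal below `t`. The critical point of `e` may be smaller than `k`. -/
structure Ext (E : Seq.{u}) (k t : Ordinal.{u}) (E' : Seq.{u}) (v : Ordinal.{u})
    (e : Ordinal.{u} → Ordinal.{u}) : Prop where
  inf : ω ≤ k
  lt : k < t
  weak : Weak E t E' v e
  cof : ∀ y < v, ∃ x < t, y < e x
  top : TopC E k t
  card : ∀ a, k ≤ a → a < t → k ≤ rho E a

/-- The index `v` is active, with critical point `k`, domain `t` and map `e`. -/
structure Act (E : Seq.{u}) (v k t : Ordinal.{u}) (e : Ordinal.{u} → Ordinal.{u}) : Prop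
    extends Ext E k t E v e where
  graph : ∀ x y, E v x y ↔ x < t ∧ y = e x
  big : ω < k
  fix : ∀ x < k, e x = x
  move : k < e k
  dom : t < v
  next : NoProj E k t v
  typeA : TypeA E k t e

/-- The index `v` is passive. -/
def Pas (E : Seq.{u}) (v : Ordinal.{u}) : Prop := ∀ x y, ¬ E v x y

/-- Premouse of height `d`, without smallness. -/
structure PM0 (E : Seq.{u}) (d : Ordinal.{u}) : Prop where
  ls : LS E d
  act : ∀ v < d, Pas E v ∨ ∃ k t e, Act E v k t e

/-- Small premouse of height `d`. -/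
structure PM (E : Seq.{u}) (d : Ordinal.{u}) : Prop extends PM0 E d where
  small : ∀ v < d, ∀ k t e, Act E v k t e → Small E k

/-- `x` is generated at level `d` by labels from `X`. -/
def InHull (E : Seq.{u}) (d : Ordinal.{u}) (X : Set Ordinal.{u}) (y : Ordinal.{u}) : Prop :=
  ∃ c x, x.lv ⊆ X ∧ ev E d c x = some (leaf y)

/-- `i` is the ultrapower map of `(b + 1, E)` with generators below `i k`; the ultrapower is
`(i b + 1, E')`. -/
structure IsUlt (E : Seq.{u}) (b k : Ordinal.{u}) (E' : Seq.{u})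
    (i : Ordinal.{u} → Ordinal.{u}) : Prop extends Strong E (b + 1) E' (i b + 1) i where
  pm : PM0 E (b + 1)
  pm' : PM0 E' (i b + 1)
  inf : ω ≤ k
  lt : k < rho E b
  inc : UpInc E (b + 1) E' i k
  gen : ∀ y < i b, ∃ f a, In (b + 1) f ∧ In (i k) a ∧ fv E' (f.map i) a = some (leaf y)

/-- Measure one for the generators `a` of `e`. -/
def AE (E : Seq.{u}) (k t : Ordinal.{u}) (E' : Seq.{u}) (e : Ordinal.{u} → Ordinal.{u})
    (a : Tr.{u}) (A : Tr.{u} → Prop) : Prop :=
  ∃ n, In t n ∧ Nm E' (n.map e) a ∧ ∀ v, In k v → Nm E n v → A v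

/-- The order of the formal ultrapower of `(d, E)` by `e`. -/
def ULt (E : Seq.{u}) (d k t : Ordinal.{u}) (E' : Seq.{u}) (e : Ordinal.{u} → Ordinal.{u})
    (p q : Tr.{u} × Tr.{u}) : Prop :=
  In (e k) p.1 ∧ In (e k) q.1 ∧ In d p.2 ∧ In d q.2 ∧ AE E k t E' e (node p.1 q.1) fun v =>
    ∃ x y, fv E p.2 v.fst = some (leaf x) ∧ fv E q.2 v.snd = some (leaf y) ∧ x < y

/-- `(d', E')` with the maps `m j` is the direct limit of a directed system. -/
structure IsLim {J : Type (u + 1)} (le : J → J → Prop) (E : J → Seq.{u}) (b : J → Ordinal.{u})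
    (E' : Seq.{u}) (b' : Ordinal.{u}) (p : J → J → Ordinal.{u} → Ordinal.{u})
    (m : J → Ordinal.{u} → Ordinal.{u}) : Prop where
  pm' : PM0 E' (b' + 1)
  strong : ∀ j, Strong (E j) (b j + 1) E' (b' + 1) (m j)
  comm : ∀ j j', le j j' → ∀ x ≤ b j, m j' (p j j' x) = m j x
  onto : ∀ y ≤ b', ∃ j, ∃ x ≤ b j, m j x = y

/-! The calculus of codes. -/

/-- `g` is the value of a natural operation. -/
def IsOp (g : Tr.{u} → Tr.{u}) : Prop := ∃ a : Op, ∀ t, bop a t = g t

end Pool.Agent.KM
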