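import Pool.Agent.Lib.MP_5c0be7_lc.O.Pm

/-!
Project KM, block F3: statements on projecta, names and cardinals of a hierarchy.
-/

namespace Pool.Agent.KM

open Ordinal Tr

universe u

/-- Diagonal argument, projecta, parameters. -/
class DiagSt : Prop where
  rho_le : ∀ (E : Seq.{u}) b, rho E b ≤ b
  named_of_lt : ∀ (E : Seq.{u}) b k x, k < rho E b → In b x → Named E b k (Th E b x)
  rho_le_of : ∀ (E : Seq.{u}) b k x, In b x → ¬ Named E b k (Th E b x) → rho E b ≤ k
  diag : ∀ (E : Seq.{u}) b k x, Gen E b k x → ¬ Named E b k (Th E b x)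
  gen_rho : ∀ (E : Seq.{u}) b k x, Gen E b k x → rho E b ≤ k
  gen_top : ∀ (E : Seq.{u}) b, Gen E (b + 1) b .nil
  gen_succ : ∀ (E : Seq.{u}) b, Lev E b → Gen E (b + 1) (rho E b) .nil
  rho_top : ∀ (E : Seq.{u}) b, rho E (b + 1) ≤ b
  rho_succ : ∀ (E : Seq.{u}) b, Lev E b → rho E (b + 1) ≤ rho E b
  rho_lim : ∀ (E : Seq.{u}) b, ¬ Suc (rho E b)
  ss_unique : ∀ (E : Seq.{u}) b p q, SS E b p → SS E b q → p = q
  par_in : ∀ (E : Seq.{u}) b, In b (par E b)

/-- Closure properties of named sets. -/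
class NamedSt : Prop where
  pre : ∀ (E : Seq.{u}) b k k' (A : Tr.{u} → Prop) (s : Op) z, k < b → z.ht < b → Named E b k' A →
    (∀ q, In k q → In k' (bop s (.node q z))) → Named E b k fun q => A (bop s (.node q z))
  test : ∀ (E : Seq.{u}) b k (s : Op) z, k < b → z.ht < b →
    Named E b k fun q => bop s (.node q z) = .nil
  and : ∀ (E : Seq.{u}) b k (A B : Tr.{u} → Prop), Named E b k A → Named E b k B →
    Named E b k fun q => A q ∧ B q
  compl : ∀ (E : Seq.{u}) b k (A : Tr.{u} → Prop), k ≤ b → Named E b k A →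
    Named E (b + 1) k fun q => ¬ A q
  compl_lim : ∀ (E : Seq.{u}) b k (A : Tr.{u} → Prop), ¬ Suc b → k < b → Named E b k A →
    Named E b k fun q => ¬ A q
  dom : ∀ (E : Seq.{u}) b k c (s : Op) z, k < rho E b → In b z →
    Named E b k fun q => (ev E b c (bop s (.node q z))).isSome

/-- Acceptability; projecta and successor cardinals are cardinals. -/
class AccSt : Prop where
  acc : ∀ (E : Seq.{u}) d k t (A : Tr.{u} → Prop), NoProj E k t d → Named E d k A → Named E t k A
  card_rho : ∀ (E : Seq.{u}) b, LS E b → IsCard E (b + 1) (rho E b)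
  room : ∀ (E : Seq.{u}) b k (A : Tr.{u} → Prop), LS E b → k < rho E b → Named E (b + 1) k A →
    Named E (rho E b) k A
  next_card : ∀ (E : Seq.{u}) d k t, LS E d → IsNext E d k t → IsCard E d t
  next_lim : ∀ (E : Seq.{u}) d k t, LS E d → IsNext E d k t → t < d → Order.IsSuccLimit t
  acc_card : ∀ (E : Seq.{u}) d k t (A : Tr.{u} → Prop), IsCard E d t → k < t → Named E d k A →
    Named E t k A

/-- Successor cardinals are regular. -/
class RegSt : Prop where
  reg : ∀ (E : Seq.{u}) d k t f, LS E d → IsNext E d k t → t < d → In d f →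
    ∃ a < t, ∀ v y, In k v → fv E f v = some y → In t y → In a y
  reg_fun : ∀ (E : Seq.{u}) d k t f, LS E d → IsNext E d k t → t < d → In d f →
    ∃ g, In t g ∧ ∀ v y, In k v → (fv E g v = some y ↔ fv E f v = some y ∧ In t y)

/-- Limit levels do not project. -/
class AmenSt : Prop where
  lev_of : ∀ (E : Seq.{u}) b, ¬ Suc b → (∀ k < b, Named E b k (ora E b)) → Lev E b
  lev_pas : ∀ (E : Seq.{u}) b, ¬ Suc b → Pas E b → Lev E b
  amen : ∀ (E : Seq.{u}) v k t e, LS E v → Act E v k t e → ∀ a < v, Named E v a (ora E v)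
  lev_act : ∀ (E : Seq.{u}) v k t e, LS E v → Act E v k t e → ¬ Suc v ∧ Lev E v

end Pool.Agent.KM
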