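import Pool.Agent.Lib.MP_5c0be7_lc.O.Calc
import Pool.Agent.Lib.MP_5c0be7_lc.O.Pm

/-!
Project KM: the laws of the codes in usable form, derived codes, and the shallow calculus of
natural operations.
-/

namespace Pool.Agent.KM

open Ordinal Tr
open scoped Classical

universe u

variable {E : Seq.{u}} {b : Ordinal.{u}} {x : Tr.{u}}

theorem ev_opc (a : Op) (hx : In b x) : ev E b (opc a) x = some (bop a x) := (law E b).opc a x hx
theorem ev_cmp (s : Op) (c1 c2 x : Tr.{u}) : ev E b (cmp s c1 c2) x =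
    (ev E b c2 x).bind fun w => ev E b c1 (bop s (node w x)) := (law E b).cmp s c1 c2 x
theorem ev_unoptc (hx : In b x) : ev E b unoptc x = x.unopt := (law E b).unopt x hx
theorem ev_evc (hx : In b x) : ev E b evc x = some (call (ev E) b x) := (law E b).evc x hx
theorem ev_extc (hx : In b x) : ev E b extc x = some (tv (ora E b x)) := (law E b).extc x hx
theorem ev_pre (s : Op) (c : Tr.{u}) (hx : In b x) :
    ev E b (cmp s c (opc .nil)) x = ev E b c (bop s (node .nil x)) := (law E b).pre s c hx
theorem ev_post (s : Op) (c x : Tr.{u}) :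
    ev E b (cmp s (opc .id) c) x = (ev E b c x).map fun w => bop s (node w x) :=
  (law E b).post s c x
theorem ev_tst (a : Op) (hx : In b x) :
    ev E b (tst a) x = if bop a x = .nil then some .nil else none := (law E b).tst a hx
theorem ev_tst_isSome (a : Op) (hx : In b x) : (ev E b (tst a) x).isSome ↔ bop a x = .nil := by
  rw [ev_tst a hx]; split_ifs with h <;> simp [h]
theorem ev_atomc (q : Tr.{u}) (hx : In (b + 1) x) :
    ev E (b + 1) (atomc q) x = sev E b (decD q) x := by rw [ev_succ hx, body, decC_atomc, Cd.body]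
theorem ev_atom (Q : Bd) (hx : In (b + 1) x) : ev E (b + 1) (atom Q) x = sev E b Q x := by
  rw [atom, ev_atomc _ hx, decD_code]
theorem ev_atomc_lim (hb : ¬ Suc b) (q x : Tr.{u}) : ev E b (atomc q) x = none := by
  by_cases hx : In b x
  · rw [ev_lim hb hx, decC_atomc, lev]
  · exact ev_guard hx _
theorem ev_atom_lim (hb : ¬ Suc b) (Q : Bd) (x : Tr.{u}) : ev E b (atom Q) x = none :=
  ev_atomc_lim hb _ x

@[simp] theorem bev_op (a : Op) : bev E b (.op a) x = bop a x := rfl
@[simp] theorem bev_seq (s : Op) (P Q : BP) :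
    bev E b (.seq s P Q) x = bev E b P (bop s (node (bev E b Q x) x)) := rfl
@[simp] theorem bev_ev : bev E b .ev x = call (ev E) b x := rfl
@[simp] theorem bev_ext : bev E b .ext x = tv (ora E b x) := rfl
@[simp] theorem bev0_op (a : Op) : bev0 E b (.op a) x = bop a x := rfl
@[simp] theorem bev0_seq (s : Op) (P Q : BP) :
    bev0 E b (.seq s P Q) x = bev0 E b P (bop s (node (bev0 E b Q x) x)) := rfl
@[simp] theorem bev0_ev : bev0 E b .ev x = call (ev E) b x := rfl
@[simp] theorem bev0_ext : bev0 E b .ext x = Tr.one := tv_neg id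

theorem in_brun {g k : Ordinal.{u}} {R : Tr.{u} → Prop} (P : BP) (hx : In k x) :
    In k (brun (ev E) g R P x) := by
  induction P generalizing x with
  | op a => exact hx.bop a
  | seq s P Q ihP ihQ => exact ihP (In.bop (by simp [hx, ihQ hx]) s)
  | ev => exact hx.call
  | ext => exact in_tv _ _

theorem Tr.In.bev {g k : Ordinal.{u}} (hx : In k x) (P : BP) : In k (bev E g P x) := in_brun P hx
theorem Tr.In.bev0 {g k : Ordinal.{u}} (hx : In k x) (P : BP) : In k (bev0 E g P x) :=
  in_brun P hx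

theorem ev_bas (P : BP) (hx : In b x) : ev E b (bas P) x = some (bev E b P x) := by
  induction P generalizing x with
  | op a => exact ev_opc a hx
  | seq s P Q ihP ihQ =>
    exact (ev_cmp s _ _ x).trans (by
      rw [show ev E b Q.cd.code x = _ from ihQ hx]
      exact ihP (In.bop (by simp [hx, hx.bev]) s))
  | ev => exact ev_evc hx
  | ext => exact ev_extc hx

/-- Basic programs without oracle do not depend on the level. -/
theorem bev0_mono {g g' : Ordinal.{u}} (P : BP) (h : In g x) (h' : In g' x) :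
    bev0 E g P x = bev0 E g' P x := by
  induction P generalizing x with
  | op a => rfl
  | seq s P Q ihP ihQ =>
    rw [bev0_seq, bev0_seq, ← ihQ h h']
    exact ihP (In.bop (by simp [h, h.bev0]) s) (In.bop (by simp [h', h'.bev0]) s)
  | ev => exact call_mono h.fst h'.fst
  | ext => rfl

theorem bev_eq_bev0 (h : ∀ y, ¬ ora E b y) (P : BP) : bev E b P x = bev0 E b P x := by
  have : ora E b = fun _ => False := funext fun y => eq_false (h y)
  rw [bev, this]; rfl

theorem not_ora_succ (y : Tr.{u}) : ¬ ora E (b + 1) y := fun h => h.1 (suc_succ b)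

/-! Derived codes. -/

/-- Run `c` on the value of `a`. -/
def prec (a : Op) (c : Tr.{u}) : Tr.{u} := cmp (.comp a .snd) c (opc .nil)

/-- Apply `a` to the pair of the value of `c` and the input. -/
def postc (a : Op) (c : Tr.{u}) : Tr.{u} := cmp a (opc .id) c

/-- The pair of two values. -/
def pairc (c1 c2 : Tr.{u}) : Tr.{u} :=
  cmp (.pair .snd .fst) (postc (.pair .fst .ss) (prec .fst c1)) c2

/-- Defined, with value `nil`, if the value of `c` is `nil`. -/
def nilc (c : Tr.{u}) : Tr.{u} := cmp .fst (tst .id) c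

/-- The call of a lower level, undefined if the call is undefined. -/
def callc : Tr.{u} := cmp .fst unoptc evc

@[simp] theorem lv_prec (a : Op) (c : Tr.{u}) : (prec a c).lv = c.lv := by simp [prec]
@[simp] theorem lv_postc (a : Op) (c : Tr.{u}) : (postc a c).lv = c.lv := by simp [postc]
@[simp] theorem lv_pairc (c1 c2 : Tr.{u}) : (pairc c1 c2).lv = c1.lv ∪ c2.lv := by simp [pairc]
@[simp] theorem lv_nilc (c : Tr.{u}) : (nilc c).lv = c.lv := by simp [nilc]
@[simp] theorem lv_callc : (callc : Tr.{u}).lv = ∅ := by simp [callc]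

theorem ev_prec (a : Op) (c : Tr.{u}) (hx : In b x) :
    ev E b (prec a c) x = ev E b c (bop a x) := ev_pre _ c hx
theorem ev_postc (a : Op) (c x : Tr.{u}) :
    ev E b (postc a c) x = (ev E b c x).map fun w => bop a (node w x) := ev_post a c x
theorem ev_pairc (c1 c2 x : Tr.{u}) : ev E b (pairc c1 c2) x =
    (ev E b c2 x).bind fun w => (ev E b c1 x).map fun v => node v w := by
  rw [pairc, ev_cmp]
  cases h : ev E b c2 x with
  | none => rfl
  | some w =>
    simp only [Option.bind_some, bop_pair, bop_snd, bop_fst, fst_node, snd_node]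
    rw [ev_postc, ev_prec _ _ (by simp [ev_in h, in_of_ev_eq h])]
    simp
theorem ev_pairc_some {c1 c2 v w : Tr.{u}} (h1 : ev E b c1 x = some v)
    (h2 : ev E b c2 x = some w) : ev E b (pairc c1 c2) x = some (node v w) := by
  rw [ev_pairc, h1, h2]; rfl
theorem ev_pairc_isSome (c1 c2 x : Tr.{u}) : (ev E b (pairc c1 c2) x).isSome ↔
    (ev E b c1 x).isSome ∧ (ev E b c2 x).isSome := by
  rw [ev_pairc]
  cases ev E b c1 x <;> cases ev E b c2 x <;> simp
theorem ev_nilc (c x : Tr.{u}) :
    ev E b (nilc c) x = if ev E b c x = some .nil then some .nil else none := by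
  rw [nilc, ev_cmp]
  cases h : ev E b c x with
  | none => simp
  | some w => simp [ev_tst _ (ev_in h)]
theorem ev_nilc_isSome (c x : Tr.{u}) : (ev E b (nilc c) x).isSome ↔ ev E b c x = some .nil := by
  rw [ev_nilc]; split_ifs with h <;> simp [h]
theorem ev_callc' (hx : In b x) : ev E b callc x = (call (ev E) b x).unopt := by
  rw [callc, ev_cmp, ev_evc hx]
  exact ev_unoptc hx.call
theorem ev_callc {a : Ordinal.{u}} (ha : a < b) (c : Tr.{u}) {z : Tr.{u}} (hc : In b c) :
    ev E b callc (node (leaf a) (node c z)) = ev E a c z := by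
  by_cases hz : In b z
  · rw [ev_callc' (by simp [ha, hc, hz]), call_leaf ha]; simp
  · rw [ev_guard (by simp [hz]), ev_guard fun h => hz (h.mono ha.le)]

/-- The membership of `fst x` in the set named by `snd x`. -/
def Op.nmq : Op := .pair (.comp .fst .snd) (.pair (.comp .fst .ss) (.pair .fst (.comp .snd .ss)))

@[simp] theorem bop_nmq (t : Tr.{u}) : bop .nmq t =
    node t.snd.fst (node t.snd.snd.fst (node t.fst t.snd.snd.snd)) := rfl

/-- Defined if `fst x` belongs to the set named by `snd x`. -/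
def nmc : Tr.{u} := prec .nmq callc

@[simp] theorem lv_nmc : (nmc : Tr.{u}).lv = ∅ := by simp [nmc]

theorem unopt_call_isSome (L : Tab.{u}) (g : Ordinal.{u}) (x : Tr.{u}) :
    (call L g x).unopt.isSome ↔ call L g x ≠ .nil := by
  unfold call
  split_ifs <;> simp [Option.isSome_iff_ne_none]

theorem ev_nmc {q t : Tr.{u}} (hq : In b q) (ht : In b t) :
    (ev E b nmc (node q t)).isSome ↔ Nm E t q := by
  have h : In b (node q t) := by simp [hq, ht]
  rw [nmc, ev_prec _ _ h, ev_callc' (h.bop _), unopt_call_isSome, nm_iff_call ht.fst]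
  simp

/-- The predecessor of the level. -/
def topc : Tr.{u} := atom (.cst (opc .tone : Tr.{u}))

/-- The parameter of the predecessor of the level. -/
def parc : Tr.{u} := atom (.cst (opc (.comp .enc (.pair .nil .ss)) : Tr.{u}))

@[simp] theorem lv_topc : (topc : Tr.{u}).lv = ∅ := by simp [topc]
@[simp] theorem lv_parc : (parc : Tr.{u}).lv = ∅ := by simp [parc]

theorem ev_topc (hx : In (b + 1) x) : ev E (b + 1) topc x = some (leaf b) := by
  rw [topc, ev_atom _ hx, sev_cst (by simp), ev_opc _ (by simpa using in_dn E hx)]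
  rfl
theorem ev_topc_lim (hb : ¬ Suc b) (x : Tr.{u}) : ev E b topc x = none := ev_atom_lim hb _ x
theorem ev_topc_eq {a : Ordinal.{u}} (h : ev E b topc x = some (leaf a)) : b = a + 1 := by
  by_cases hb : Suc b
  · obtain ⟨g, rfl⟩ := hb
    rw [ev_topc (in_of_ev_eq h)] at h
    rw [leaf.inj (Option.some.inj h)]
  · simp [ev_topc_lim hb] at h
theorem ev_parc (hx : In (b + 1) x) : ev E (b + 1) parc x = some (par E b) := by
  rw [parc, ev_atom _ hx, sev_cst (by simp), ev_opc _ (by simpa using in_dn E hx)]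
  simp [dn_eq]

/-! Bodies at a successor level. -/

theorem th_tst (a : Op) {y : Tr.{u}} (hx : In b x) (hy : In b y) :
    Th E b x (node (tst a) y) ↔ bop a (node y x) = .nil := ev_tst_isSome a (by simp [hx, hy])

theorem th_in {q : Tr.{u}} (h : Th E b x q) : In b q.snd ∧ In b x := by
  simpa using in_of_ev h

/-- On `node w (dn x)`, the marked form of the value of `a` on `node w x`. -/
def Op.up (a : Op) : Op :=
  .comp (.lift a) (.pair (.pair (.comp .enc (.pair .nil .fst)) .fs) .nil)

theorem bop_up (a : Op) {w : Tr.{u}} (hx : In (b + 1) x) (hw : In b w) (p : Tr.{u}) :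
    bop a.up (node w (node (Tr.enc (leaf b) x) p)) = Tr.enc (leaf b) (bop a (node w x)) := by
  have h : In b (node (node (Tr.enc .nil w) (Tr.enc (leaf b) x)) .nil) := by
    simp [hx.enc, hw.of_subset (lv_enc_subset _ _)]
  simp only [Op.up, bop_comp, bop_pair, bop_enc, bop_nil, bop_fst, bop_fs, fst_node, snd_node]
  rw [lift_spec a h]
  simp [Tr.dec]

theorem enc_eq_nil_iff (m t : Tr.{u}) : Tr.enc m t = .nil ↔ t = .nil := by
  cases t with
  | nil => simp
  | leaf a => unfold Tr.enc; split_ifs <;> simp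
  | node l r => simp [enc_node]

/-- The test `a (node y x) = nil` for the candidate `y` and the input `x`. -/
def Bd.test (a : Op) : Bd := .pre (.pair (.const (tst a.up : Tr.{u})) .id) .orc

theorem bod_test (a : Op) {y : Tr.{u}} (hx : In (b + 1) x) (hy : In b y) :
    bod E b (Bd.test.{u} a) x y = tv (bop a (node y x) = .nil) := by
  simp only [bod_eq, Bd.test, drun_pre, drun_orc, bop_pair, bop_const (lv_tst _), bop_id]
  rw [th_tst _ (in_dn E hx) hy, dn_eq, bop_up a hx hy, enc_eq_nil_iff]

/-- Change of the oracle from the input `x` to the input `a (node w x)`. -/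
def Op.shf (a : Op) : Op :=
  .pair (Op.mkc.{u}
    (.comp (.pair .ff (.pair (.comp a.up (.pair .sf .snd)) .ss)) .snd) .ff
      (.const (opc .nil : Tr.{u})))
    (.pair .sf .snd)

theorem ev_shf (a : Op) {w : Tr.{u}} (hx : In (b + 1) x) (hw : In b w) (q : Tr.{u}) :
    ev E b (bop (Op.shf.{u} a) (node q w)).fst
      (node (bop (Op.shf.{u} a) (node q w)).snd (dn E b x)) =
    ev E b q.fst (node q.snd (dn E b (bop a (node w x)))) := by
  simp only [Op.shf, bop_pair, bop_mkc, bop_ff, bop_sf, bop_snd, fst_node, snd_node,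
    bop_const (lv_opc _)]
  by_cases hq : In b q.snd
  · rw [ev_pre _ _ (by simp [hq, hw, in_dn E hx])]
    simp [dn_eq, bop_up a hx hw]
  · rw [ev_guard (by simp [hq]), ev_guard (by simp [hq])]

/-- On `node y w`: the body `P` on `y` for the input `a (node w x)`. -/
def Bd.shift (a : Op) (P : Bd) : Bd := .sub (Op.shf.{u} a) P

theorem bod_shift (a : Op) (P : Bd) {w : Tr.{u}} (hx : In (b + 1) x) (hw : In b w) (y : Tr.{u}) :
    bod E b (Bd.shift.{u} a P) x (node y w) = bod E b P (bop a (node w x)) y := by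
  simp only [bod_eq, Bd.shift, drun_sub, fst_node, snd_node]
  congr 1
  funext q
  simp only [ThL]
  rw [ev_shf a hx hw]

/-- Output of a body: the value is the tree `a`. -/
def Op.out (a : Op) : Op := .pair (.const (opc (.comp .enc (.pair .nil .fst)) : Tr.{u})) a

theorem bop_out (a : Op) (t : Tr.{u}) :
    bop (Op.out.{u} a) t = node (opc (.comp .enc (.pair .nil .fst))) (bop a t) := by
  simp [Op.out]

theorem ev_out (hx : In (b + 1) x) {v : Tr.{u}} (hv : In b v) :
    (ev E b (opc (.comp .enc (.pair .nil .fst))) (node v (dn E b x))).map (Tr.dec (leaf b)) =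
      some v := by
  rw [ev_opc _ (by simp [hv, in_dn E hx])]
  simp

/-- The least candidate below the projectum on which the body is `nil`. -/
def ex0 (P : Bd) : Tr.{u} := atom (.post (.ite .fst (Op.out.{u} .snd) .nil) P)

@[simp] theorem lv_ex0 (P : Bd) : (ex0 P : Tr.{u}).lv = ∅ := by simp [ex0]

theorem ev_ex0 (P : Bd) (hx : In (b + 1) x) :
    ev E (b + 1) (ex0 P) x = least fun y => In (rho E b) y ∧ bod E b P x y = .nil := by
  have hb : ∀ y, bod E b (.post (.ite .fst (Op.out.{u} .snd) .nil) P) x y =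
      if bod E b P x y = .nil then node (opc (.comp .enc (.pair .nil .fst))) y else .nil := by
    intro y; simp [bod_eq, bop_out]
  have hb' : ∀ y, bod E b (.post (.ite .fst (Op.out.{u} .snd) .nil) P) x y ≠ .nil ↔
      bod E b P x y = .nil := by
    intro y; rw [hb]; split_ifs with h <;> simp [h]
  rw [ex0, ev_atom _ hx]
  cases h : least fun y => In (rho E b) y ∧ bod E b P x y = .nil with
  | none =>
    exact sev_none fun y hy => by_contra fun h1 => least_eq_none.1 h y ⟨hy, (hb' y).1 h1⟩
  | some y =>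
    obtain ⟨h1, h2⟩ := isLeast_in.1 (least_eq_some.1 h)
    rw [sev_least h1 (by simpa only [hb'] using h2), hb, if_pos h2.1]
    exact ev_out hx (h1.mono (rho_le E b))

/-- The identity on the trees below the projectum of the predecessor. -/
def ltr : Tr.{u} := ex0 (Bd.test.{u} .eq)

@[simp] theorem lv_ltr : (ltr : Tr.{u}).lv = ∅ := by simp [ltr]

theorem ev_ltr (hx : In (b + 1) x) :
    ev E (b + 1) ltr x = if In (rho E b) x then some x else none := by
  have h : ∀ y, (In (rho E b) y ∧ bod E b (Bd.test.{u} .eq) x y = .nil) ↔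
      In (rho E b) y ∧ y = x := fun y => and_congr_right fun hy => by
    simp [bod_test _ hx (hy.mono (rho_le E b))]
  rw [ltr, ev_ex0 _ hx]
  simp only [h]
  split_ifs with h1
  · exact least_eq_some.2 ⟨⟨h1, rfl⟩, fun s hs h2 => lt_irrefl' _ (h2.2 ▸ hs)⟩
  · exact least_eq_none.2 fun t ht => h1 (ht.2 ▸ ht.1)

theorem ev_ltr_leaf {k : Ordinal.{u}} : (ev E (b + 1) ltr (leaf k)).isSome ↔ k < rho E b := by
  by_cases hk : In (b + 1) (leaf k)
  · rw [ev_ltr hk]; split_ifs with h <;> simpa using h
  · rw [ev_guard hk]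
    simp only [in_leaf, not_lt] at hk
    simpa using (rho_le E b).trans (le_self_add.trans hk)

/-- A body as a code: the input is `node y x`. -/
def bodc (P : Bd) : Tr.{u} :=
  atom (.post (.ite .ff (Op.out.{u} .sf) .nil)
    (.pair (Bd.test.{u} (.comp .eq (.pair .fst .fs)))
      (.pre (.pair .id .nil) (Bd.shift.{u} .ss P))))

@[simp] theorem lv_bodc (P : Bd) : (bodc P : Tr.{u}).lv = ∅ := by simp [bodc]

theorem ev_bodc (P : Bd) {y : Tr.{u}} (hx : In (b + 1) (node y x)) :
    ev E (b + 1) (bodc P) (node y x) =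
      if In (rho E b) y then some (bod E b P x y) else none := by
  have hb : ∀ z, In (rho E b) z → bod E b (.post (.ite .ff (Op.out.{u} .sf) .nil)
      (.pair (Bd.test.{u} (.comp .eq (.pair .fst .fs)))
        (.pre (.pair .id .nil) (Bd.shift.{u} .ss P)))) (node y x) z =
      if z = y then node (opc (.comp .enc (.pair .nil .fst))) (bod E b P x z) else .nil := by
    intro z hz
    have h1 := bod_test (E := E) (.comp .eq (.pair .fst .fs)) hx (hz.mono (rho_le E b))
    have h2 := bod_shift (E := E) .ss P hx (in_nil b) z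
    simp only [bod_eq] at h1 h2 ⊢
    simp [h1, h2, bop_out]
  rw [bodc, ev_atom _ hx]
  split_ifs with h
  · rw [sev_pass (v := node (opc (.comp .enc (.pair .nil .fst))) (bod E b P x y))]
    · exact ev_out hx ((h.mono (rho_le E b)).drun _ _)
    · exact ⟨y, h, by simp [hb y h]⟩
    · intro z hz h1
      rw [hb z hz] at h1 ⊢
      split_ifs at h1 ⊢ with h2
      · rw [h2]
      · exact absurd rfl h1
  · exact sev_none fun z hz => by rw [hb z hz, if_neg fun e : z = y => h (e ▸ hz)]

/-- Case distinction at successor levels. -/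
def itec (a : Op) (c1 c2 : Tr.{u}) : Tr.{u} :=
  atom (.post (.ite .ff (.comp .fst .sf) (.comp .snd .sf))
    (.pair (Bd.test.{u} (.comp a .snd)) (.pair (body c1) (body c2))))

@[simp] theorem lv_itec (a : Op) (c1 c2 : Tr.{u}) : (itec a c1 c2).lv = ∅ := by simp [itec]

theorem sev_congr {P Q : Bd} {x' : Tr.{u}} (hd : dn E b x = dn E b x')
    (h : ∀ y, In (rho E b) y → bod E b P x y = bod E b Q x' y) : sev E b P x = sev E b Q x' := by
  by_cases h1 : ∃ y, In (rho E b) y ∧ bod E b P x y ≠ .nil
  · obtain ⟨y, hy⟩ := exists_isLeast h1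
    obtain ⟨h2, h3⟩ := isLeast_in.1 hy
    rw [sev_least h2 h3, sev_least (P := Q) (y := y) h2
      ⟨fun e => h3.1 ((h y h2).trans e), fun s hs e => h3.2 s hs fun e' =>
        e ((h s (hs.in h2)).symm.trans e')⟩, h y h2, hd]
  · rw [sev_none fun y hy => by_contra fun h2 => h1 ⟨y, hy, h2⟩,
      sev_none fun y hy => by_contra fun h2 => h1 ⟨y, hy, h y hy ▸ h2⟩]

theorem ev_itec (a : Op) (c1 c2 : Tr.{u}) (hx : In (b + 1) x) : ev E (b + 1) (itec a c1 c2) x =
    if bop a x = .nil then ev E (b + 1) c1 x else ev E (b + 1) c2 x := by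
  rw [itec, ev_atom _ hx, ev_succ hx, ev_succ hx]
  split_ifs with h <;> refine sev_congr rfl fun y hy => ?_ <;>
    have h1 := bod_test (E := E) (.comp a .snd) hx (hy.mono (rho_le E b)) <;>
    simp only [bod_eq] at h1 ⊢ <;> simp [h1, h]

/-! Search over a whole level. -/

/-- The body of the search for `y` with `c` defined on `node y x`. -/
def exsB (P : Bd) : Bd :=
  .seq .fst (.post (.ite .fs .nil (.ite .fst .ss .nil)) (.pre (Op.chg.{u} .id) .orc))
    (.post (.pair .fst .fs) (.pre (.pair .snd .fst) (.sub (Op.chg.{u} .id) P.lc)))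

/-- Search for a tree `y` of the level such that `c` is defined on `node y x`. -/
def exs (c : Tr.{u}) : Tr.{u} := atom (exsB.{u} (body c))

@[simp] theorem lv_exs (c : Tr.{u}) : (exs c).lv = ∅ := by simp [exs]

theorem bod_exsB (P : Bd) (x y : Tr.{u}) : bod E b (exsB.{u} P) x y =
    if drun P.lc (fun q => Th E b (dn E b x) (bop (Op.chg.{u} .id) (node q y.fst))) y.snd ≠ .nil ∧
      Th E b (dn E b x) (bop (Op.chg.{u} .id) (node (drun P.lc
        (fun q => Th E b (dn E b x) (bop (Op.chg.{u} .id) (node q y.fst))) y.snd) y.fst))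
    then y.fst else .nil := by
  simp only [bod_eq, exsB, drun_seq, drun_post, drun_pre, drun_orc, drun_sub, bop_fst, bop_snd,
    bop_pair, bop_fs, bop_ss, bop_ite, bop_nil, fst_node, snd_node, tv_eq_nil]
  split_ifs <;> simp_all

theorem th_chg (hx : In (b + 1) x) {v r : Tr.{u}}
    (hr : ev E b v.fst (node v.snd (dn E b x)) = some r) :
    (fun q => Th E b (dn E b x) (bop (Op.chg.{u} .id) (node q v))) =
      Th E b (dn E b (node (Tr.dec (leaf b) r) x)) := by
  funext q
  simp only [ThL]
  rw [(law E b).chg .id hx, hr]; rfl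

theorem exsB_pass (hx : In (b + 1) x) {c y : Tr.{u}} (hy : In (rho E b) y)
    (h : bod E b (exsB.{u} (body c)) x y ≠ .nil) : bod E b (exsB.{u} (body c)) x y = y.fst ∧
    ∃ r, ev E b y.fst.fst (node y.fst.snd (dn E b x)) = some r ∧
      (ev E (b + 1) c (node (Tr.dec (leaf b) r) x)).isSome := by
  rw [bod_exsB] at h ⊢
  split_ifs at h ⊢ with h1
  swap
  · exact absurd rfl h
  refine ⟨rfl, ?_⟩
  obtain ⟨h2, h3⟩ := h1
  cases hr : ev E b y.fst.fst (node y.fst.snd (dn E b x)) with
  | none =>
    simp only [ThL] at h3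
    rw [(law E b).chg .id hx, hr] at h3
    simp at h3
  | some r =>
    refine ⟨r, rfl, ?_⟩
    have h4 := congrFun (th_chg hx hr)
    rw [h4, th_chg hx hr, drun_lc_eq (th_chg hx hr ▸ h2)] at h3
    rw [th_chg hx hr] at h2
    have hi : In (b + 1) (node (Tr.dec (leaf b) r) x) := by
      simp [hx, In.dec (b := b + 1) (m := leaf b) (by simp) ((ev_in hr).mono le_self_add)]
    rw [ev_succ hi, sev_least hy.snd (drun_lc_ne.1 h2), Option.isSome_map]
    exact h3

theorem ev_exs_sound {c y : Tr.{u}} (h : ev E (b + 1) (exs c) x = some y) :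
    (ev E (b + 1) c (node y x)).isSome := by
  have hx := in_of_ev_eq h
  rw [exs, ev_atom _ hx] at h
  obtain ⟨z, h1, h2⟩ := Option.bind_eq_some_iff.1 h
  have h3 := (least_eq_some.1 h1).1
  obtain ⟨h4, r, h5, h6⟩ := exsB_pass hx h3.1 h3.2
  change (ev E b (bod E b _ x z).fst (node (bod E b _ x z).snd (dn E b x))).map _ = _ at h2
  rw [h4, h5] at h2
  exact Option.some.inj h2 ▸ h6

/-- In a sound level every tree has a description below the projectum. -/
theorem exists_desc (hs : ∃ p, SS E b p) (hx : In (b + 1) x) {t : Tr.{u}} (ht : In b t) :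
    ∃ v : Tr.{u}, v ≠ .nil ∧ In (rho E b) v ∧
      ev E b v.fst (node v.snd (dn E b x)) = some t := by
  obtain ⟨c, v, hv, h⟩ := (ss_pp hs).2.2.2 t ht
  refine ⟨node (prec (.pair .fst (.comp .fst .ss)) c.erase) v, by simp,
    by simp [hv, in_of_lv], ?_⟩
  rw [fst_node, snd_node, ev_prec _ _ (by simp [hv.mono (rho_le E b), in_dn E hx])]
  simpa [dn_eq] using h

theorem ev_exs_complete (hs : ∃ p, SS E b p) {c y : Tr.{u}}
    (h : (ev E (b + 1) c (node y x)).isSome) : (ev E (b + 1) (exs c) x).isSome := by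
  have hi := in_of_ev h
  have hx : In (b + 1) x := hi.snd
  have hy : In (b + 1) y := hi.fst
  obtain ⟨v, hv0, hv, hr⟩ := exists_desc hs hx hy.enc
  obtain ⟨w, hw⟩ := Option.isSome_iff_exists.1 h
  rw [ev_succ hi] at hw
  obtain ⟨z, h1, h2⟩ := Option.bind_eq_some_iff.1 hw
  obtain ⟨h3, h4⟩ := isLeast_in.1 (least_eq_some.1 h1)
  have h5 : ∃ y, In (rho E b) y ∧ bod E b (exsB.{u} (body c)) x y ≠ .nil := by
    refine ⟨node v z, by simp [hv, h3], ?_⟩
    have h6 := congrFun (th_chg hx hr)
    rw [bod_exsB, fst_node, snd_node, h6, th_chg hx hr, dec_enc, if_pos]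
    · exact hv0
    · refine ⟨drun_lc_ne.2 h4, ?_⟩
      rw [drun_lc_eq (drun_lc_ne.2 h4)]
      obtain ⟨w', h7, _⟩ := Option.map_eq_some_iff.1 h2
      exact Option.isSome_iff_exists.2 ⟨w', h7⟩
  obtain ⟨z', hz'⟩ := exists_isLeast h5
  obtain ⟨h6, h7⟩ := isLeast_in.1 hz'
  obtain ⟨h8, r, h9, _⟩ := exsB_pass hx h6 h7.1
  rw [exs, ev_atom _ hx, sev_least h6 h7, h8, h9]
  rfl

theorem ev_exs_isSome (hs : ∃ p, SS E b p) (c x : Tr.{u}) :
    (ev E (b + 1) (exs c) x).isSome ↔ ∃ y, (ev E (b + 1) c (node y x)).isSome :=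
  ⟨fun h => by
    obtain ⟨y, hy⟩ := Option.isSome_iff_exists.1 h
    exact ⟨y, ev_exs_sound hy⟩, fun ⟨_, h⟩ => ev_exs_complete hs h⟩

theorem ev_exs_lim (hb : ¬ Suc b) (c x : Tr.{u}) : ev E b (exs c) x = none := ev_atom_lim hb _ x

/-! Simulation of a limit level by a lower level. -/

theorem tr_spec {v g : Ordinal.{u}} (hv : ¬ Suc v) (hg : g ≤ v) {n : Tr.{u}} (hn : In g n)
    (ho : ∀ q, In g q → (Nm E n q ↔ ora E v q)) (c : Cd) (hx : In g x) :
    ev E g c.tr.code (node n x) = ev E v c.code x := by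
  induction c generalizing x with
  | op a =>
    exact (ev_opc _ (by simp [hn, hx])).trans (ev_opc _ (hx.mono hg)).symm
  | cmp s c1 c2 ih1 ih2 =>
    simp only [Cd.tr, Cd.code, ev_cmp, ih2 hx]
    cases h : ev E v c2.code x with
    | none => rfl
    | some w => exact ih1 (In.bop (by simp [hx, ev_lim_in hv hx h]) s)
  | unopt =>
    simp only [Cd.tr, Cd.code]
    rw [ev_pre _ _ (by simp [hn, hx]), ev_unoptc (hx.mono hg)]
    exact ev_unoptc hx
  | ev =>
    simp only [Cd.tr, Cd.code]
    rw [ev_pre _ _ (by simp [hn, hx]), ev_evc (hx.mono hg), ← call_mono hx.fst (hx.mono hg).fst]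
    exact ev_evc hx
  | ext =>
    simp only [Cd.tr, Cd.code]
    rw [ev_post, ev_pre _ _ (by simp [hn, hx]), ev_extc (hx.mono hg),
      ev_evc (In.bop (by simp [hn, hx]) _), ← ho x hx, nm_iff_call hn.fst]
    simp only [Option.map_some, bop_comp, bop_pair, bop_ite, bop_fst, bop_snd, bop_ff, bop_sf,
      bop_tone, bop_nil, fst_node, snd_node]
    split_ifs with h
    · rw [tv_neg (not_not.2 h)]
    · rw [tv_pos h]
  | atom Q =>
    simp only [Cd.tr, Cd.code]
    rw [ev_pre _ _ (by simp [hn, hx]), ev_atom_lim hv]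
    exact ev_unoptc (in_nil g)

theorem ev_tr {v g : Ordinal.{u}} (hv : ¬ Suc v) (hg : g ≤ v) {n : Tr.{u}} (hn : In g n)
    (ho : ∀ q, In g q → (Nm E n q ↔ ora E v q)) (c : Tr.{u}) (hx : In g x) :
    ev E g (bop .tr c) (node n x) = ev E v c x := by
  rw [bop_tr, tr_spec hv hg hn ho _ hx, ev_decC_code]

end Pool.Agent.KM
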