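import Pool.Agent.Lib.MP_5c0be7_lc.O.F3b
import Pool.Agent.Lib.MP_5c0be7_lc.O.Once

/-!
Project KM, block F3: acceptability, cardinals, regularity, amenability.
-/

namespace Pool.Agent.KM

open Ordinal Tr
open scoped Classical

universe u

namespace F3

variable {E : Seq.{u}} {a b d k k' m t : Ordinal.{u}} {x : Tr.{u}} {A B : Tr.{u} → Prop}
  {f : Tr.{u} → Option Tr.{u}} {g : Tr.{u} → Tr.{u}}

theorem acc (hn : NoProj E k t d) (H : Named E d k A) : Named E t k A := by
  rcases named_cases H with h | ⟨a, ha, h⟩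
  · exact named_empty h
  · induction a using WellFoundedLT.induction with
    | ind a ih =>
      by_cases hat : a < t
      · exact h.named hat
      · rcases named_cases (h.dom (hn a (not_lt.1 hat) ha)) with h1 | ⟨e, he, h1⟩
        · exact named_empty h1
        · exact ih e he (he.trans ha) h1

theorem CF.graph (hf : CF E a k f) (hg : IsP a g) : CS E a k fun q => f q = some (g q) :=
  (hf.ex (cs_test (E := E) (g := fun t => teq t.fst (g t.snd)) le_rfl (by fun_prop)) p_id
    fun q w hq e => by simpa using (hf.in hq e).symm).congr fun q _ => by simp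

theorem CS.and' (H : CS E a k A) (H' : CS E a k' B) (hg : IsP a g)
    (hk : ∀ q, In k q → A q → In k' (g q)) : CS E a k fun q => A q ∧ B (g q) := by
  obtain ⟨h, H1, H2⟩ := H'.cf
  refine (H.restrict H1 hg hk).cs fun q hq => ?_
  by_cases hA : A q
  · simp [hA, H2 _ (hk q hq hA)]
  · simp [hA]

theorem cs_in (hk : k ≤ a) (hm : m < a) (hg : IsP a g) : CS E a k fun q => In m (g q) :=
  have : In a (leaf m) := by simpa
  (cs_test (g := fun q => tbd (leaf m) (g q)) hk (by fun_prop (disch := assumption))).congr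
    fun q _ => by simp

theorem cs_call_nil (hk : k ≤ a) (hg : IsP a g) : CS E a k fun q => call (ev E) a (g q) = nil :=
  ((cf_ev hk hg evc).graph (p_const nil (by simp))).congr fun q hq => by
    simp [ev_evc (hg.in le_rfl (hq.mono hk))]

/-- Search over a whole successor level. -/
theorem cf_exs (hs : ∃ p, SS E a p) (H : CS E (a + 1) (a + 1) B) :
    ∃ f, CF E (a + 1) (a + 1) f ∧ ∀ q, In (a + 1) q → (∀ y, f q = some y → B (node y q)) ∧
      ∀ y, In (a + 1) y → B (node y q) → (f q).isSome := by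
  obtain ⟨c, z, hz, H⟩ := H
  have h0 : ∀ y q, In (a + 1) y → In (a + 1) q →
      ((ev E (a + 1) (prec (.pair (.pair .fst .fs) .ss) c) (node y (node q z))).isSome ↔
        B (node y q)) := fun y q hy hq => by
    rw [ev_prec _ _ (by simp [*]), ← H _ (by simp [*])]; rfl
  exact ⟨_, ⟨exs (prec (.pair (.pair .fst .fs) .ss) c), z, hz, fun _ _ => rfl⟩, fun q hq =>
    ⟨fun y e => (h0 y q (ev_in e) hq).1 (ev_exs_sound e),
      fun y hy hB => ev_exs_complete hs ((h0 y q hy hq).2 hB)⟩⟩

/-- Descriptions below the projectum are found at the next level. -/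
theorem cf_desc (hs : ∃ p, SS E a p) : ∃ f, CF E (a + 1) a f ∧ ∀ q, In a q → ∃ y, f q = some y ∧
    In (rho E a) y ∧ ev E a y.fst (node y.snd (pp E a)) = some q := by
  have hp : In (a + 1) (pp E a) := (in_pp E a).mono le_self_add
  have hr : rho E a < a + 1 := (rho_le E a).trans_lt (lt_add_one a)
  obtain ⟨f, H1, H2⟩ := cf_exs hs ((cs_in (g := fun t => t.fst) le_rfl hr (by fun_prop)).and
    ((cf_low (g := fun t => t.fst.fst) (g' := fun t => node t.fst.snd (pp E a)) le_rfl
      (lt_add_one a) (by fun_prop) (by fun_prop (disch := assumption))).graph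
      (g := fun t => t.snd) (by fun_prop)))
  refine ⟨f, H1.mono le_self_add, fun q hq => ?_⟩
  obtain ⟨c, v, hv, h1⟩ := (ss_pp hs).2.2.2 q hq
  obtain ⟨h2, h3⟩ := H2 q (hq.mono le_self_add)
  obtain ⟨y, hy⟩ := Option.isSome_iff_exists.1
    (h3 (node c.erase v) (by simpa using hv.mono hr.le) (by simp [hv, h1]))
  exact ⟨y, hy, h2 y hy⟩

theorem cs_desc (hs : ∃ p, SS E a p) (hm : a + 1 ≤ m) (H : CS E m k B) (hg : IsP m g)
    (h : ∀ q y, In a q → In (rho E a) y → ev E a y.fst (node y.snd (pp E a)) = some q →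
      In k (g (node y q)) ∧ (B (g (node y q)) ↔ A q)) : CS E m a A := by
  obtain ⟨f, H1, H2⟩ := cf_desc hs
  refine ((H1.lift hm).ex H hg fun q w hq e => ?_).congr fun q hq => ?_
  · obtain ⟨y, h1, h2, h3⟩ := H2 q hq
    exact Option.some.inj (h1.symm.trans e) ▸ (h q y hq h2 h3).1
  · obtain ⟨y, h1, h2, h3⟩ := H2 q hq
    simpa [h1] using (h q y hq h2 h3).2

theorem card_rho (hl : LS E b) : IsCard E (b + 1) (rho E b) := by
  intro a h1 h2
  rcases (Order.lt_add_one_iff.1 h2).eq_or_lt with rfl | hab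
  · exact le_rfl
  rcases (Order.add_one_le_iff.2 hab).eq_or_lt with rfl | hab1
  · exact rho_succ (hl a hab).1
  by_contra hc
  rcases rho_cases E b with h | ⟨x, hx, h⟩
  · exact absurd (h ▸ h1) (not_le.2 hab)
  have hp := (in_pp E a).mono hab.le
  have hx1 : In b (node x (node (leaf a) (pp E a))) := by simp [hx, hab, hp]
  obtain ⟨e, h3, h4, h5⟩ := named_cs (named_of_lt (not_le.1 hc) hx1) hab1
  obtain ⟨o1, o2, H⟩ := ex_sq
    (f := fun t : Tr.{u} => node t.snd.snd.fst (node t.fst.fst (node t.fst.snd t.snd.snd.snd)))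
    (g := fun t => node t.fst.snd t.snd.snd.fst) (by fun_prop) (by fun_prop)
  refine h (named_mono ((cs_desc (hl a hab).1 h3 h5
    (g := fun t => node (sq o1 o2 callc.erase t.snd.fst) t.fst) (by fun_prop (disch := simp))
    fun q y hq hy e => ⟨by simpa using hy, ?_⟩).named h4) le_rfl h1)
  have hy1 := hy.mono ((rho_le E a).trans hab.le)
  simp only [ThL, fst_node, snd_node]
  rw [H E b _ _ _ (by simp [hx1, hy1])]
  simp [ev_callc hab _ hy1.fst, e]

theorem acc_card (hc : IsCard E d t) (hk : k < t) (H : Named E d k A) : Named E t k A :=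
  acc (fun a h1 h2 => hk.trans_le (hc a h1 h2)) H

theorem next_card (hl : LS E d) (h : IsNext E d k t) : IsCard E d t := by
  intro a h1 h2
  by_contra hc
  obtain ⟨a', h3, h4, h5⟩ := h.2.2.1 _ (not_le.1 hc)
  exact absurd ((card_rho (fun b hb => hl b (hb.trans h2)) a' h3
    (h4.trans_le (h1.trans le_self_add))).trans h5) (not_le.2 (h.2.2.2 a h1 h2))

theorem next_lim (hl : LS E d) (h : IsNext E d k t) (ht : t < d) : Order.IsSuccLimit t := by
  refine limit_of_not_suc ?_ h.1.ne_bot
  rintro ⟨g, rfl⟩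
  obtain ⟨a, h3, h4, h5⟩ := h.2.2.1 g (lt_add_one g)
  obtain rfl : g = a := le_antisymm h3 (Order.lt_add_one_iff.1 h4)
  exact absurd ((rho_succ (hl g (h4.trans ht)).1).trans h5) (not_le.2 (h.2.2.2 _ le_rfl ht))

/-- No function maps the stratum `k` onto the stratum of a larger cardinal. -/
theorem surj (hf : CF E a k f) (hn : NoProj E k t (a + 1))
    (h : ∀ n, In t n → ∃ v, In k v ∧ f v = some n) : False := by
  obtain ⟨n, h1, h2⟩ := acc hn ((hf.ex (cs_nnm (E := E) (g := fun t => t.fst)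
    (g' := fun t => t.snd) le_rfl (by fun_prop) (by fun_prop)) p_id
    fun q w hq e => by simpa using (hf.in hq e).symm).named (lt_add_one a))
  obtain ⟨v, hv, e⟩ := h n h1
  simpa [e] using h2 v hv

theorem fv_cases {n : Tr.{u}} (h : In d n) : (∀ v, fv E n v = none) ∨
    ∃ e < d, ∃ c z, In e z ∧ ∀ v, fv E n v = ev E e c (node v z) := by
  by_cases h1 : n.fst = leaf n.fst.lab
  · by_cases h2 : In n.fst.lab n.snd.snd
    · exact Or.inr ⟨_, by simpa using (h1 ▸ h.fst : In d (leaf _)), _, _, h2, fun v => if_pos h1⟩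
    · exact Or.inl fun v => (if_pos h1).trans (ev_guard (by simp [h2]) _)
  · exact Or.inl fun v => if_neg h1

theorem CF.fv (hf : CF E a k f) (hab : a < b) : ∃ n, In b n ∧ ∀ v, In k v → fv E n v = f v :=
  let ⟨c, z, hz, H⟩ := hf
  ⟨node (leaf a) (node c.erase z), by simp [hab, hz.mono hab.le],
    fun v hv => by simpa [KM.fv] using H v hv⟩

theorem reg {n : Tr.{u}} (hl : LS E d) (h : IsNext E d k t) (ht : t < d) (hn : In d n) :
    ∃ a < t, ∀ v y, In k v → fv E n v = some y → In t y → In a y := by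
  have lim := next_lim hl h ht
  rcases fv_cases (E := E) hn with h0 | ⟨e, he, c, z, hz, h0⟩
  · exact ⟨k, h.1, fun v y _ e => by simp [h0] at e⟩
  rcases lt_trichotomy e t with het | rfl | het
  · exact ⟨e, het, fun v y _ e _ => ev_in (h0 v ▸ e)⟩
  · exact ⟨max k z.ht, max_lt h.1 (hz.ht_lt lim), fun v y hv e _ => ev_lim_in
      (not_suc_of_limit lim) (by simp [hv.mono (le_max_left _ _),
        (in_ht z).mono (le_max_right _ _)]) (h0 v ▸ e)⟩
  by_contra hc
  have hk1 : In (t + 1) (leaf k) := by simpa using h.1.le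
  have hk2 : In (t + 1) topc := in_of_lv (by simp) _
  have hk3 : In (t + 1) ltr := in_of_lv (by simp) _
  have p1 : IsP (t + 1) fun q => node q.fst (node topc nil) := by
    fun_prop (disch := first | assumption | simp)
  have p2 : IsP (t + 1) fun q => node q.fst (node ltr (leaf k)) := by
    fun_prop (disch := assumption)
  obtain ⟨s, H1, H2⟩ := cf_exs (hl t ht).1
    (((cs_test (g := fun q => tbd q.fst q.snd) le_rfl (by fun_prop)).and
      (cs_in (g := fun q => q.fst) le_rfl (lt_add_one t) (by fun_prop))).and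
    (((cf_call le_rfl p1).cs fun _ _ => Iff.rfl).and (cs_call_nil le_rfl p2)))
  have hke : k ≤ e := (h.1.trans het).le
  have F0 : CF E e k fun q => fv E n q.fst :=
    (CF.pre hke ⟨c, z, hz, fun v _ => (h0 v).symm⟩ (k' := k) (by fun_prop) fun q hq => hq.fst)
  have F1 := (cs_in (E := E) le_rfl het p_id).restrict (H1.lift (Order.add_one_le_iff.2 het)) p_id
    fun q _ hq => hq.mono le_self_add
  have F2 := F0.bind F1 (g := fun q => q.fst) (by fun_prop) fun q w hq e => (F0.in hq e).2
  have F3 := F2.bind (cf_call (E := E) le_rfl p_id)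
    (g := fun q => node q.fst (node q.snd.snd.fst (node q.snd.snd.snd nil)))
    (by fun_prop (disch := simp)) fun q w hq e => by
      have := F2.in hq e
      simp [this.2, this.1.snd.fst, this.1.snd.snd]
  refine surj F3 (t := t) (fun a h1 h2 => h.2.2.2 a h1 (h2.trans_le (Order.add_one_le_iff.2 he)))
    fun w hw => ?_
  obtain ⟨v, y, hv, h1, h2, h3⟩ : ∃ v y, In k v ∧ fv E n v = some y ∧ In t y ∧ ¬ In w.ht y := by
    by_contra h1
    exact hc ⟨w.ht, hw.ht_lt lim, fun v y hv e hy => by_contra fun h2 => h1 ⟨v, y, hv, e, hy, h2⟩⟩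
  obtain ⟨h4, h5⟩ := H2 y (h2.mono le_self_add)
  obtain ⟨g, g1, g2, g3⟩ := h.2.2.1 _ (h2.ht_lt lim)
  have g4 : g + 1 < t := lim.add_one_lt g2
  have g5 : g + 1 < t + 1 := g4.trans (lt_add_one t)
  obtain ⟨l, e1⟩ := Option.isSome_iff_exists.1 (h5 (leaf (g + 1)) (by simpa using g4.le) (by
    simp only [fst_node, snd_node, call_leaf g5, tbd_nil, opt_eq_nil, unopt_opt,
      ← Option.not_isSome_iff_eq_none, ev_ltr_leaf, ev_topc (in_nil _)]
    simp [g3, g4, (in_ht y).mono (g1.trans le_self_add)]))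
  obtain ⟨⟨j1, j2⟩, j3, j4⟩ := h4 l e1
  obtain ⟨a, rfl, j1⟩ := (tbd_nil _ _).1 j1
  replace j2 : a < t := by simpa using j2
  simp only [fst_node, snd_node, call_leaf (j2.trans (lt_add_one t)), opt_eq_nil,
    unopt_opt] at j1 j3 j4
  obtain ⟨a, rfl⟩ : Suc a := by_contra fun h6 => by simp [ev_topc_lim h6] at j3
  rw [← Option.not_isSome_iff_eq_none, ev_ltr_leaf, not_lt] at j4
  obtain ⟨c2, v2, hv2, e2⟩ := gen_succ (hl a ((lt_add_one a).trans (j2.trans ht))).1 w
    ((in_ht w).mono (le_of_not_ge fun h6 => h3 (j1.mono h6)))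
  refine ⟨node v (node c2.erase v2), by simp [hv, hv2.mono j4], ?_⟩
  simp [h1, h2, e1, call_leaf (j2.trans het), e2]

theorem reg_fun {n : Tr.{u}} (hl : LS E d) (h : IsNext E d k t) (ht : t < d) (hn : In d n) :
    ∃ g, In t g ∧ ∀ v y, In k v → (fv E g v = some y ↔ fv E n v = some y ∧ In t y) := by
  have lim := next_lim hl h ht
  obtain ⟨a, ha, hb⟩ := reg hl h ht hn
  rcases fv_cases (E := E) hn with h0 | ⟨e, he, c, z, hz, h0⟩
  · exact ⟨nil, by simp, fun v y _ => by rw [h0]; simp [fv]⟩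
  have h1 : max k a < t := max_lt h.1 ha
  have F0 : CF E (max e (max k a)) (max k a) fun q => fv E n q.snd :=
    (CF.lift ⟨c, z, hz, fun v _ => (h0 v).symm⟩ (le_max_left _ _)).pre (k' := max k a)
      (le_max_right _ _) (by fun_prop) fun q hq => hq.snd
  obtain ⟨m, m1, m2, m3⟩ := named_cs (acc_card (next_card hl h) h1
    ((F0.graph (g := fun q => q.fst) (by fun_prop)).named (max_lt he (h1.trans ht)))) h1
  have m4 : max k a < m + 1 := m1.trans_lt (lt_add_one m)
  obtain ⟨s, H1, H2⟩ := cf_exs (hl m (m2.trans ht)).1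
    ((cs_in le_rfl m4 p_id).and' (m3.lift le_self_add) p_id fun _ _ h => h)
  obtain ⟨g, g1, g2⟩ := H1.fv (lim.add_one_lt m2)
  refine ⟨g, g1, fun v y hv => ?_⟩
  have hv1 : In (max k a) v := hv.mono (le_max_left _ _)
  obtain ⟨h2, h3⟩ := H2 v (hv1.mono m4.le)
  rw [g2 v (hv1.mono m4.le)]
  refine ⟨fun e => ⟨(h2 y e).2, (h2 y e).1.fst.mono h1.le⟩, fun e => ?_⟩
  have hy : In (max k a) y := (hb v y hv e.1 e.2).mono (le_max_right _ _)
  obtain ⟨y', e'⟩ := Option.isSome_iff_exists.1 (h3 y (hy.mono m4.le) ⟨by simp [hy, hv1], e.1⟩)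
  exact e'.trans ((h2 y' e').2.symm.trans e.1)

theorem tr_spec' {v g : Ordinal.{u}} (hv : ¬ Suc v) (hg : m ≤ g) (hm : m ≤ v) {n : Tr.{u}}
    (hn : In g n) (ho : ∀ q, In m q → (Nm E n q ↔ ora E v q)) (c : Cd) (hx : In m x) :
    ev E g c.tr.code (node n x) = ev E v c.code x := by
  induction c generalizing x with
  | op a =>
    exact (ev_opc _ (by simp [hn, hx.mono hg])).trans (ev_opc _ (hx.mono hm)).symm
  | cmp s c1 c2 ih1 ih2 =>
    simp only [Cd.tr, Cd.code, ev_cmp, ih2 hx]
    cases h : ev E v c2.code x with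
    | none => rfl
    | some w => exact ih1 (In.bop (by simp [hx, ev_lim_in hv hx h]) s)
  | unopt =>
    simp only [Cd.tr, Cd.code]
    rw [ev_pre _ _ (by simp [hn, hx.mono hg]), ev_unoptc (hx.mono hm)]
    exact ev_unoptc (hx.mono hg)
  | ev =>
    simp only [Cd.tr, Cd.code]
    rw [ev_pre _ _ (by simp [hn, hx.mono hg]), ev_evc (hx.mono hm),
      ← call_mono (hx.mono hg).fst (hx.mono hm).fst]
    exact ev_evc (hx.mono hg)
  | ext =>
    simp only [Cd.tr, Cd.code]
    rw [ev_post, ev_pre _ _ (by simp [hn, hx.mono hg]), ev_extc (hx.mono hm),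
      ev_evc (In.bop (by simp [hn, hx.mono hg]) _), ← ho x hx, nm_iff_call hn.fst]
    simp only [Option.map_some, bop_comp, bop_pair, bop_ite, bop_fst, bop_snd, bop_ff, bop_sf,
      bop_tone, bop_nil, fst_node, snd_node]
    split_ifs with h
    · rw [tv_neg (not_not.2 h)]
    · rw [tv_pos h]
  | atom Q =>
    simp only [Cd.tr, Cd.code]
    rw [ev_pre _ _ (by simp [hn, hx.mono hg]), ev_atom_lim hv]
    exact ev_unoptc (in_nil g)

theorem lev_of (hb : ¬ Suc b) (h : ∀ k < b, Named E b k (ora E b)) : Lev E b := by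
  have hr : rho E b = b := by
    by_contra hne
    obtain ⟨x, hx, h1⟩ := (rho_cases E b).resolve_left hne
    have h2 := lt_of_le_of_ne (rho_le E b) hne
    have lim := limit_of_not_suc hb h2.ne_bot
    have h3 : max (rho E b) x.ht < b := max_lt h2 (hx.ht_lt lim)
    obtain ⟨n, hn, h4⟩ := h _ h3
    have h5 : max (max (rho E b) x.ht) n.ht < b := max_lt h3 (hn.ht_lt lim)
    have h6 := le_max_left (max (rho E b) x.ht) n.ht
    have hn1 := (in_ht n).mono (le_max_right (max (rho E b) x.ht) n.ht)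
    have hx1 := (in_ht x).mono (le_max_right (rho E b) x.ht)
    have hn2 := hn1.mono (le_self_add (b := 1))
    have hx2 := (hx1.mono h6).mono (le_self_add (b := 1))
    refine h1 (((cf_low (g := fun q => trc q.fst) (g' := fun q => node n (node q.snd x))
      ((le_max_left _ _).trans (h6.trans le_self_add)) (lt_add_one _) (by fun_prop)
      (by fun_prop (disch := assumption))).cs fun q hq => ?_).named (lim.add_one_lt h5))
    rw [trc, tr_spec' hb h6 h3.le hn1 h4 _ (by simp [hx1, hq.snd.mono (le_max_left _ _)]),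
      ev_decC_code]
    rfl
  refine ⟨⟨nil, by simp, by simp, trivial, fun t ht => ⟨opc .fst, t, ht.mono hr.ge, ?_⟩⟩,
    fun _ => hr⟩
  exact ev_opc _ (by simpa using ht)

theorem rel_pas {R : Ordinal.{u} → Ordinal.{u} → Prop} (h : ∀ x y, ¬ R x y) (s r : Tr.{u}) :
    Tr.Rel R s r ↔ s = r ∧ s.erase = s := by
  induction s generalizing r with
  | nil => cases r <;> simp [Tr.Rel]
  | leaf a => cases r <;> simp [Tr.Rel, h]
  | node l l' ih ih' => cases r <;> simp [Tr.Rel, ih, ih', and_assoc, and_left_comm]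

theorem rel_graph {R : Ordinal.{u} → Ordinal.{u} → Prop} {e : Ordinal.{u} → Ordinal.{u}}
    (h : ∀ x y, R x y ↔ x < t ∧ y = e x) (s r : Tr.{u}) : Tr.Rel R s r ↔ In t s ∧ r = s.map e := by
  induction s generalizing r with
  | nil => cases r <;> simp [Tr.Rel]
  | leaf a => cases r <;> simp [Tr.Rel, h]
  | node l l' ih ih' => cases r <;> simp [Tr.Rel, ih, ih', and_assoc, and_left_comm]

theorem lev_pas (hb : ¬ Suc b) (h : Pas E b) : Lev E b :=
  lev_of hb fun k hk => (((cs_test (g := fun q => teq q.fst q.snd) le_rfl (by fun_prop)).and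
    (cs_test (g := fun q => teq q.fst.erase q.fst) le_rfl (by fun_prop))).congr
      fun q _ => by simp only [teq_nil, ora, rel_pas h, hb, not_false_eq_true, true_and]).named hk

theorem act_lim {v : Ordinal.{u}} {e} (h : Act E v k t e) : ¬ Suc v := by
  rintro ⟨g, rfl⟩
  obtain ⟨x, h1, h2⟩ := h.cof g (lt_add_one g)
  exact absurd (Order.lt_add_one_iff.1 (h.weak.maps x h1)) (not_le.2 h2)

theorem amen {v : Ordinal.{u}} {e} (hl : LS E v) (h : Act E v k t e) (ha : a < v) :
    Named E v a (ora E v) := by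
  have hv := act_lim h
  have hs := not_suc_iff.1 hv
  obtain ⟨x0, h1, h2⟩ := h.cof a ha
  obtain ⟨a0, h3, h4, h5⟩ := h.top x0 h1
  have h6 : a0 < v := h4.trans h.dom
  have h7 : e a0 < v := h.weak.maps a0 h4
  obtain ⟨m, m0, m1, m2, m3⟩ : ∃ m < v, a ≤ m ∧ a0 + 1 ≤ m ∧ e a0 < m :=
    ⟨max a (max (a0 + 1) (e a0 + 1)), max_lt ha (max_lt (hs _ h6) (hs _ h7)), le_max_left _ _,
      (le_max_left _ _).trans (le_max_right _ _),
      (lt_add_one _).trans_le ((le_max_right _ _).trans (le_max_right _ _))⟩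
  have hp : In (e a0) ((pp E a0).map e) :=
    (in_map_iff (h.weak.mono.mono (Set.insert_subset h4 ((in_pp E a0).mono h4.le)))).2 (in_pp E a0)
  have hp1 := hp.mono m3.le
  have m4 : a0 < m := (lt_add_one a0).trans_le m2
  obtain ⟨f, H1, H2⟩ := cf_desc (hl a0 h6).1
  have F1 := (cs_in (E := E) (g := fun q => q.fst) m1 m4 (by fun_prop)).restrict (H1.lift m2)
    (g := fun q => q.fst) (by fun_prop) fun _ _ h => h
  refine ((F1.ex ((cf_low (g := fun q => q.fst.fst) (g' := fun q => node q.fst.snd ((pp E a0).map e))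
    le_rfl m3 (by fun_prop) (by fun_prop (disch := assumption))).graph (g := fun q => q.snd.snd)
    (by fun_prop)) p_id fun q w hq e => by simpa using (F1.in hq e).symm).congr
    fun q hq => ?_).named m0
  simp only [ora, hv, not_false_eq_true, true_and, rel_graph h.graph, fst_node, snd_node]
  by_cases h8 : In a0 q.fst
  · obtain ⟨y, y1, y2, y3⟩ := H2 _ h8
    have y4 := h.weak.comm a0 h4 y.fst _ (in_of_ev_eq y3)
    rw [y3, map_node, map_eq_self fun i hi => h.fix i ((y2.snd i hi).trans_le h5)] at y4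
    simp [h8, y1, y4, h8.mono h4.le, eq_comm]
  · simp only [h8, if_false, reduceCtorEq, false_and, exists_false, false_iff, not_and]
    refine fun h9 e1 => h8 fun i hi => lt_of_lt_of_le ?_ h3
    refine (h.weak.mono.lt_iff_lt (h9 i hi) h1).1 (lt_trans (hq.snd _ ?_) h2)
    rw [e1, lv_map]
    exact ⟨i, hi, rfl⟩

end F3

open F3

instance : AccSt.{u} :=
  ⟨fun _ _ _ _ _ => acc, fun _ _ => card_rho, fun _ _ _ _ hl => acc_card (card_rho hl),
    fun _ _ _ _ => next_card, fun _ _ _ _ => next_lim, fun _ _ _ _ _ => acc_card⟩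

instance : RegSt.{u} := ⟨fun _ _ _ _ _ => reg, fun _ _ _ _ _ => reg_fun⟩

instance : AmenSt.{u} :=
  ⟨fun _ _ => lev_of, fun _ _ => lev_pas, fun _ _ _ _ _ hl h _ => amen hl h,
    fun _ _ _ _ _ hl h => ⟨act_lim h, lev_of (act_lim h) fun _ => amen hl h⟩⟩

end Pool.Agent.KM
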