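import Pool.Agent.Lib.MP_5c0be7_lc.O.Calc
import Pool.Agent.Lib.MP_5c0be7_lc.O.Pm

/-!
Project KM, fine hierarchy: closure properties of the natural operations.
-/

namespace Pool.Agent.KM

open Ordinal Tr
open scoped Classical

universe u

namespace IsOp
variable {f g h : Tr.{u} → Tr.{u}}
theorem id : IsOp.{u} fun t => t := ⟨.id, fun _ => rfl⟩
theorem of (a : Op) (hf : IsOp f) : IsOp fun t => bop a (f t) :=
  let ⟨b, hb⟩ := hf; ⟨.comp a b, fun t => by simp [bop, hb]⟩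
theorem fst (hf : IsOp f) : IsOp fun t => (f t).fst := hf.of .fst
theorem snd (hf : IsOp f) : IsOp fun t => (f t).snd := hf.of .snd
theorem erase (hf : IsOp f) : IsOp fun t => (f t).erase := hf.of .erase
theorem nil : IsOp.{u} fun _ => .nil := ⟨.nil, fun _ => rfl⟩
theorem pair (hf : IsOp f) (hg : IsOp g) : IsOp fun t => node (f t) (g t) :=
  let ⟨a, ha⟩ := hf; let ⟨b, hb⟩ := hg; ⟨.pair a b, fun t => by simp [bop, ha, hb]⟩
theorem comp (hf : IsOp f) (hg : IsOp g) : IsOp fun t => f (g t) :=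
  let ⟨a, ha⟩ := hf; let ⟨b, hb⟩ := hg; ⟨.comp a b, fun t => by simp [bop, ha, hb]⟩
theorem const {c : Tr.{u}} (hc : c.erase = c) : IsOp.{u} fun _ => c := by
  refine ⟨Op.const c, fun t => ?_⟩
  rw [← hc]; clear hc
  induction c <;> simp [Op.const, bop, *]
theorem dec (hf : IsOp f) (hg : IsOp g) : IsOp fun t => Tr.dec (f t) (g t) := (hf.pair hg).of .dec
theorem enc (hf : IsOp f) (hg : IsOp g) : IsOp fun t => Tr.enc (f t) (g t) := (hf.pair hg).of .enc
theorem ite_nil (hf : IsOp f) (hg : IsOp g) (hh : IsOp h) :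
    IsOp fun t => if f t = .nil then g t else h t :=
  let ⟨a, ha⟩ := hf; let ⟨b, hb⟩ := hg; let ⟨c, hc⟩ := hh
  ⟨.ite a b c, fun t => by simp [bop, ha, hb, hc]⟩
theorem eq (hf : IsOp f) (hg : IsOp g) : IsOp fun t => tv (f t = g t) := (hf.pair hg).of .eq
theorem lt (hf : IsOp f) (hg : IsOp g) : IsOp fun t => tv (Lt (f t) (g t)) := (hf.pair hg).of .lt
theorem bd (hf : IsOp f) (hg : IsOp g) : IsOp fun t => tv (∃ a, f t = leaf a ∧ In a (g t)) :=
  (hf.pair hg).of .bd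
theorem isleaf (hf : IsOp f) : IsOp fun t => tv (∃ a, f t = leaf a) := hf.of .isleaf
theorem mem {b : Ordinal.{u}} {t : Tr.{u}} (hf : IsOp f) (h : In b t) : In b (f t) :=
  let ⟨a, ha⟩ := hf; ha t ▸ h.bop a
theorem cmp (s : Op) (hf : IsOp f) (hg : IsOp g) : IsOp fun t => cmp s (f t) (g t) :=
  (const (erase_num 0)).pair (hf.pair (hg.pair (const (erase_of_lv (Op.lv_code s)))))
theorem tag3 (n : ℕ) (hf : IsOp f) (hg : IsOp g) (hh : IsOp h) :
    IsOp fun t => tag3 n (f t) (g t) (h t) := (const (erase_num n)).pair (hf.pair (hg.pair hh))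
theorem map {t : Tr.{u}} {s : Ordinal.{u} → Ordinal.{u}} (hf : IsOp f) (h : StrictMonoOn s t.lv) :
    f (t.map s) = (f t).map s :=
  let ⟨a, ha⟩ := hf; by rw [← ha, ← ha, bop_map a s t h]
theorem lv (hf : IsOp f) (t : Tr.{u}) : (f t).lv ⊆ t.lv := let ⟨a, ha⟩ := hf; ha t ▸ lv_bop a t
end IsOp

end Pool.Agent.KM
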