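import Pool.Agent.Lib.MP_5c0be7_lc.O.FO2
import Pool.Agent.Lib.MP_5c0be7_lc.O.Once
import Pool.Agent.Lib.MP_5c0be7_lc.O.Api

/-!
Project KM, fine hierarchy: the notions of the theory of premice are first-order definable.
-/

namespace Pool.Agent.KM

open Ordinal Tr
open scoped Classical

universe u

variable {d k t l o : OF.{u}} {f g n : TF.{u}}

theorem in_of_nm {E : Seq.{u}} {b : Ordinal.{u}} {h q : Tr.{u}} (hh : In b h) (hq : Nm E h q) :
    In b q := by
  obtain ⟨a, h1, h2⟩ := hq
  have := hh.fst; rw [h1] at this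
  exact (in_of_ev h2).fst.mono (le_of_lt (by simpa using this))

theorem Df.topC (hk : On k) (ht : On t) : Df fun E b z => TopC E (k E b z) (t E b z) := by
  refine Df.congr (A := fun E b z => ∀ c < t E b z, ∃ a < t E b z, c ≤ a ∧ rho E a ≤ k E b z) ?_
    fun _ _ _ _ => forall₂_congr fun _ _ => exists_congr fun _ => and_left_comm
  repeat' first
    | exact Fn.id | exact IsOp.id | apply IsOp.fst | apply IsOp.snd | apply On.lab
    | apply Df.nm | apply Df.lt | apply Df.in_ | apply Df.olt | apply Df.ole | apply On.rho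
    | apply Df.ball | apply Df.bex | apply Df.lex | apply Df.oall | apply Df.oex
    | apply Df.and | apply Df.or | apply Df.iff | apply Df.not | apply Df.imp
    | apply Fn.pair | apply Fn.fst | apply Fn.snd
    | exact hk | apply hk.pre | exact ht | apply ht.pre

theorem Df.noProj (hk : On k) (ht : On t) (hd : On d) :
    Df fun E b z => NoProj E (k E b z) (t E b z) (d E b z) := by
  refine Df.congr (A := fun E b z => ∀ a < d E b z, t E b z ≤ a → k E b z < rho E a) ?_
    fun _ _ _ _ => forall_congr' fun _ => imp.swap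
  repeat' first
    | exact Fn.id | exact IsOp.id | apply IsOp.fst | apply IsOp.snd | apply On.lab
    | apply Df.nm | apply Df.lt | apply Df.in_ | apply Df.olt | apply Df.ole | apply On.rho
    | apply Df.ball | apply Df.bex | apply Df.lex | apply Df.oall | apply Df.oex
    | apply Df.and | apply Df.or | apply Df.iff | apply Df.not | apply Df.imp
    | apply Fn.pair | apply Fn.fst | apply Fn.snd
    | exact hk | apply hk.pre | exact ht | apply ht.pre | exact hd | apply hd.pre

theorem Df.isCard (hd : On d) (hk : On k) : Df fun E b z => IsCard E (d E b z) (k E b z) := by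
  refine Df.congr (A := fun E b z => ∀ a < d E b z, k E b z ≤ a → k E b z ≤ rho E a) ?_
    fun _ _ _ _ => forall_congr' fun _ => imp.swap
  repeat' first
    | exact Fn.id | exact IsOp.id | apply IsOp.fst | apply IsOp.snd | apply On.lab
    | apply Df.nm | apply Df.lt | apply Df.in_ | apply Df.olt | apply Df.ole | apply On.rho
    | apply Df.ball | apply Df.bex | apply Df.lex | apply Df.oall | apply Df.oex
    | apply Df.and | apply Df.or | apply Df.iff | apply Df.not | apply Df.imp
    | apply Fn.pair | apply Fn.fst | apply Fn.snd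
    | exact hk | apply hk.pre | exact hd | apply hd.pre

theorem Df.isNext (hd : On d) (hk : On k) (ht : On t) :
    Df fun E b z => IsNext E (d E b z) (k E b z) (t E b z) :=
  (Df.olt hk ht).and ((Df.ole ht hd).and ((Df.topC hk ht).and (Df.noProj hk ht hd)))

theorem frag_iff {E : Seq.{u}} {d k t l : Ordinal.{u}} {F : Tr.{u} → Tr.{u} → Prop} :
    Frag E d k t l F ↔
    (∀ X, In t X → ∀ a, In k a → In l a → (F X a ↔ Nm E X a)) ∧
    (∀ X, In t X → ∀ Y, In t Y → ∀ a, In l a → (∀ v, In k v → Nm E X v ∨ Nm E Y v) →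
      F X a ∨ F Y a) ∧
    (∀ X, In t X → ∀ Y, In t Y → ∀ Z, In t Z → ∀ W, In t W → ∀ a, In l a → ∀ b, In l b →
      ∀ c, In l c → F X (node a b) → F Y (node a c) → F Z (node b c) → F W (node a a) →
      ∃ x, In k x ∧ ∃ y, In k y ∧ ∃ z, In k z ∧ Nm E X (node x y) ∧ Nm E Y (node x z) ∧
        Nm E Z (node y z) ∧ Nm E W (node x x)) ∧
    (∀ X, In t X → ∀ a, In l a → ∀ b, In l b →
      (∀ x, In k x → ∀ y, In k y → Nm E X (node (node x y) x)) → F X (node (node a b) a)) ∧
    (∀ X, In t X → ∀ a, In l a → ∀ b, In l b →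
      (∀ x, In k x → ∀ y, In k y → Nm E X (node (node x y) y)) → F X (node (node a b) b)) ∧
    (∀ X, In t X → ∀ a, In l a → ∀ b, In l b →
      (∀ x, In k x → ∀ y, In k y → Lt x y → Nm E X (node x y)) → Lt a b → F X (node a b)) ∧
    (∀ X, In t X → ∀ a, In l a → ∀ b, In l b →
      (∀ x, In k x → ∀ y, In k y → (Nm E X (node x y) ↔ Lt x y ∧ Nm E y x)) →
      (F X (node a b) ↔ Lt a b ∧ Nm E b a)) ∧
    (∀ f, In t f → ∀ w, In t w → ∀ c, In l c → ∀ b, In l b →
      (∀ x, In k x → ∀ y, In k y → Nm E w (node x y) → ∃ z, Lt z y ∧ Nm E f (node x z)) →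
      F w (node c b) → ∃ a, Lt a b ∧ F f (node c a)) ∧
    (∀ X, In t X → ∀ h, In t h → ∀ S, In d S → (∀ x, In k x → ∃ z, In t z ∧ Nm E h (node x z)) →
      (∀ x, In k x → ∀ y, In k y → ∀ z, In t z → ∀ w, In t w → Nm E X (node x y) →
        Nm E h (node x z) → Nm E h (node y w) → Lt z w) →
      (∀ a, In l a → Nm E S a → ∃ a', In l a' ∧ Nm E S a' ∧ F X (node a' a)) →
      ∀ a, In l a → ¬ Nm E S a) := by
  constructor
  · intro h
    refine ⟨fun X i a => h.fix X a i, fun X i Y j a => h.ultra X Y a i j,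
      fun X i Y j Z p W q a r b s c v h1 h2 h3 h4 => ?_,
      fun X i a j b p q => h.fst X a b i j p fun x y r => q x r y,
      fun X i a j b p q => h.snd X a b i j p fun x y r => q x r y,
      fun X i a j b p q => h.lt X a b i j p fun x y r => q x r y,
      fun X i a j b p q => h.nm X a b i j p fun x y r => q x r y,
      fun f i w j c p b q r => h.normal f w c b i j p q fun x y s => r x s y,
      fun X i f j S p q r => h.wf X f S i j p (fun x s => (q x s).imp fun _ => And.right)
        fun x y z w s v h1 h2 h3 => r x s y v z (in_of_nm j h2).snd w (in_of_nm j h3).snd h1 h2 h3⟩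
    obtain ⟨x, y, z, h5, h6, h7⟩ := h.sat X Y Z W a b c i j p q r s v h1 h2 h3 h4
    exact ⟨x, h5, y, h6, z, h7⟩
  · rintro ⟨h1, h2, h3, h4, h5, h6, h7, h8, h9⟩
    refine ⟨fun X a i => h1 X i a, fun X Y a i j => h2 X i Y j a,
      fun X Y Z W a b c i j p q r s v g1 g2 g3 g4 => ?_,
      fun X a b i j p q => h4 X i a j b p fun x r y => q x y r,
      fun X a b i j p q => h5 X i a j b p fun x r y => q x y r,
      fun X a b i j p q => h6 X i a j b p fun x r y => q x y r,
      fun X a b i j p q => h7 X i a j b p fun x r y => q x y r,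
      fun f w c b i j p q r => h8 f i w j c p b q fun x s y => r x y s,
      fun X f S i j p q r => h9 X i f j S p
        (fun x s => (q x s).imp fun _ v => ⟨((in_node _ _ _).1 (in_of_nm j v)).2, v⟩)
        fun x s y v z _ w _ => r x y z w s v⟩
    obtain ⟨x, g5, y, g6, z, g7⟩ := h3 X i Y j Z p W q a r b s c v g1 g2 g3 g4
    exact ⟨x, y, z, g5, g6, g7⟩

theorem Df.frag (hd : On d) (hk : On k) (ht : On t) (hl : On l) (hn : Fn n) :
    Df fun E b z => Frag E (d E b z) (k E b z) (t E b z) (l E b z)
      fun X a => Nm E (n E b z) (node X a) := by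
  refine Df.congr ?_ fun _ _ _ _ => frag_iff.symm
  repeat' first
    | exact Fn.id | exact IsOp.id | apply IsOp.fst | apply IsOp.snd | apply On.lab
    | apply Df.nm | apply Df.lt | apply Df.in_ | apply Df.olt | apply Df.ole | apply On.rho
    | apply Df.ball | apply Df.bex | apply Df.lex | apply Df.oall | apply Df.oex
    | apply Df.and | apply Df.or | apply Df.iff | apply Df.not | apply Df.imp
    | apply Fn.pair | apply Fn.fst | apply Fn.snd
    | exact hk | apply hk.pre | exact ht | apply ht.pre | exact hl | apply hl.pre | exact hd | apply hd.pre | exact hn | apply hn.pre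

theorem Df.strongTo (hd : On d) (hk : On k) : Df fun E b z => StrongTo E (d E b z) (k E b z) := by
  unfold StrongTo
  repeat' first
    | exact Fn.id | exact IsOp.id | apply IsOp.fst | apply IsOp.snd | apply On.lab
    | apply Df.omega_lt | apply Df.isNext | apply Df.frag
    | apply Df.nm | apply Df.lt | apply Df.in_ | apply Df.olt | apply Df.ole | apply On.rho
    | apply Df.ball | apply Df.bex | apply Df.lex | apply Df.oall | apply Df.oex
    | apply Df.and | apply Df.or | apply Df.iff | apply Df.not | apply Df.imp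
    | apply Fn.pair | apply Fn.fst | apply Fn.snd
    | exact hk | apply hk.pre | exact hd | apply hd.pre

theorem Df.small (hk : On k) : Df fun E b z => Small E (k E b z) := by
  refine Df.congr (A := fun E b z => ∃ a < k E b z, ∀ m < k E b z, a < m →
    ¬ StrongTo E (k E b z) m) ?_ fun _ _ _ _ => exists_congr fun _ => and_congr_right fun _ =>
      forall_congr' fun _ => imp.swap
  repeat' first
    | exact Fn.id | exact IsOp.id | apply IsOp.fst | apply IsOp.snd | apply On.lab
    | apply Df.nm | apply Df.lt | apply Df.in_ | apply Df.olt | apply Df.ole | apply On.rho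
    | apply Df.strongTo
    | apply Df.ball | apply Df.bex | apply Df.lex | apply Df.oall | apply Df.oex
    | apply Df.and | apply Df.or | apply Df.iff | apply Df.not | apply Df.imp
    | apply Fn.pair | apply Fn.fst | apply Fn.snd
    | exact hk | apply hk.pre

theorem On.min (ho : On o) (hk : On k) : On fun E b z => min (o E b z) (k E b z) :=
  On.of_lt (((Df.olt (On.lab IsOp.id.fst) (ho.pre IsOp.id.snd)).and (Df.olt (On.lab IsOp.id.fst)
    (hk.pre IsOp.id.snd))).congr fun _ _ _ _ => lt_min_iff.symm)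
    fun E b z i => (min_le_left _ _).trans (ho.le E b z i)

theorem On.max (ho : On o) (hk : On k) : On fun E b z => max (o E b z) (k E b z) :=
  On.of_lt (((Df.olt (On.lab IsOp.id.fst) (ho.pre IsOp.id.snd)).or (Df.olt (On.lab IsOp.id.fst)
    (hk.pre IsOp.id.snd))).congr fun _ _ _ _ => lt_max_iff.symm)
    fun E b z i => max_le (ho.le E b z i) (hk.le E b z i)

/-- The successor, cut off at the level. -/
theorem On.succ (ho : On o) : On fun E b z => Min.min (o E b z + 1) b :=
  On.of_lt (((Df.ole (On.lab IsOp.id.fst) (ho.pre IsOp.id.snd)).and (Df.olt (On.lab IsOp.id.fst)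
    On.top)).congr fun _ _ _ _ => by rw [lt_min_iff, Order.lt_add_one_iff])
    fun _ _ _ _ => min_le_right _ _

theorem On.ht {s : Tr.{u} → Tr.{u}} (hs : IsOp s) : On fun _ _ z => (s z).ht :=
  On.of_lt ((Df.in_ (On.lab IsOp.id.fst) (Fn.op (hs.comp IsOp.id.snd))).not.congr
    fun _ _ _ _ => by rw [← ht_le_iff, not_le]) fun _ _ _ i => (hs.mem i).ht_le

theorem Df.eq_succ (ho : On o) (hk : On k) : Df fun E b z => o E b z = k E b z + 1 :=
  ((Df.olt hk ho).and (Df.oall (Q := fun E b a z => a ≤ k E b z) ho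
    (Df.ole (On.lab IsOp.id.fst) (hk.pre IsOp.id.snd)))).congr fun _ _ _ _ =>
    ⟨fun h => le_antisymm (le_of_forall_lt fun c j => Order.lt_add_one_iff.2 (h.2 c j))
      (Order.add_one_le_iff.2 h.1),
      fun e => ⟨e ▸ lt_add_one _, fun _ j => Order.lt_add_one_iff.1 (e ▸ j)⟩⟩

/-- The extender of a definable level, on trees. -/
theorem Df.ora (ho : On o) (hf : Fn f) :
    Df fun E b z => In (o E b z) (f E b z) ∧ ora E (o E b z) (f E b z) :=
  (Df.ev_eq ho (Fn.const (erase_of_lv lv_extc)) hf Fn.nil).congr fun E b z _ => by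
    by_cases h : In (o E b z) (f E b z)
    · rw [ev_extc h]; simp [h]
    · rw [ev_guard h]; simp [h]

/-- The extender of a definable level, on ordinals. -/
theorem Df.ext (ho : On o) (hk : On k) (ht : On t) : Df fun E b z => k E b z < o E b z ∧
    t E b z < o E b z ∧ ¬ Suc (o E b z) ∧ E (o E b z) (k E b z) (t E b z) :=
  ((Df.olt hk ho).and ((Df.olt ht ho).and (Df.ora ho (hk.leaf.pair ht.leaf)))).congr
    fun E b z i => and_congr_right fun h1 => and_congr_right fun h2 => by
      simp [h1, h2, h1.trans_le (ho.le E b z i), h2.trans_le (ho.le E b z i), KM.ora, Tr.Rel]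

theorem Fn.par (ho : On o) : Fn fun E b z => par E (o E b z) := by
  have h1 : Fn fun E b _ => KM.par E b := ⟨1, Cp.mk' (erase_of_lv lv_parc) fun E b z _ i => by
    rw [Nat.cast_one, ev_parc (i.mono le_self_add)], fun E b _ _ _ => in_par E b⟩
  refine ((Df.olt ho On.top).ite (Fn.ev ho.succ (Fn.const (erase_of_lv lv_parc)) Fn.nil).snd
    h1).congr fun E b z i => ?_
  split_ifs with h
  · rw [min_eq_left (Order.add_one_le_iff.2 h), ev_parc (in_nil _)]; rfl
  · rw [le_antisymm (ho.le E b z i) (not_lt.1 h)]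

theorem Fn.pp (ho : On o) : Fn fun E b z => pp E (o E b z) := (Fn.par ho).fst

theorem Df.names {P : Seq.{u} → Ordinal.{u} → Tr.{u} → Tr.{u} → Prop} (ho : On o) (hk : On k)
    (h : Df fun E b w => P E b w.fst w.snd) (hn : Fn n) :
    Df fun E b z => Names E (o E b z) (k E b z) (fun q => P E b q z) (n E b z) :=
  (Df.in_ ho hn).and (Df.ball (P := fun E b q z => Nm E (n E b z) q ↔ P E b q z) hk
    ((Df.nm (hn.pre IsOp.id.snd) Fn.id.fst).iff h))

theorem Fn.nm (ho : On o) (hk : On k) (hf : Fn f) :
    Fn fun E b z => nm E (o E b z) (k E b z) (f E b z) := by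
  refine (Df.names (P := fun E b q w => Th E (o E b w.snd) (f E b w.snd) q) (ho.pre IsOp.id.snd)
    (hk.pre IsOp.id.snd) (Df.th' (ho.pre IsOp.id.snd.snd) (hf.pre IsOp.id.snd.snd) Fn.id.fst)
    Fn.id.fst).least.snd.congr fun E b z i => ?_
  have e : (fun t => In b t ∧ Names E (o E b z) (k E b z) (Th E (o E b z) (f E b z)) t) =
      Names E (o E b z) (k E b z) (Th E (o E b z) (f E b z)) :=
    funext fun t => propext (and_iff_right_of_imp fun h => h.1.mono (ho.le E b z i))
  show (Tr.opt (least fun t => In b t ∧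
    Names E (o E b z) (k E b z) (Th E (o E b z) (f E b z)) t)).snd = _
  rw [e]; unfold KM.nm nmL
  cases least (NamesL (KM.ev E) (o E b z) (k E b z) (ThL (KM.ev E) (o E b z) (f E b z))) <;> rfl

theorem Df.gen (ho : On o) (hk : On k) (hf : Fn f) :
    Df fun E b z => Gen E (o E b z) (k E b z) (f E b z) := by
  refine Df.congr (A := fun E b z => ∀ x, In (o E b z) x → ∃ c, In b c ∧ ∃ v, In (k E b z) v ∧
    ev E (o E b z) c (node v (f E b z)) = some x) ?_ fun E b z _ => forall₂_congr fun x _ =>
      ⟨fun ⟨c, _, h⟩ => ⟨c, h⟩, fun ⟨c, h⟩ => ⟨c.erase, in_erase _ _, by rwa [ev_erase]⟩⟩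
  repeat' first
    | exact Fn.id | exact IsOp.id | apply IsOp.fst | apply IsOp.snd | exact On.top
    | apply Df.ev_eq | apply Df.ball | apply Df.bex | apply Fn.pair | apply Fn.fst | apply Fn.snd
    | exact ho | apply ho.pre | apply hk.pre | apply hf.pre

end Pool.Agent.KM
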