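import Pool.Agent.Lib.MP_5c0be7_lc.O.FO

/-!
Project KM, fine hierarchy: definable sets are named, definable notions are preserved, and
top-down rules for definability proofs (ordinal terms, bounded quantifiers).
-/

namespace Pool.Agent.KM

open Ordinal Tr
open scoped Classical

universe u

section Pres

variable {A : PR.{u}} {f : TF.{u}} {p : PF.{u}} {n : ℕ}

theorem Comm.succ_eq {E E' : Seq.{u}} {a a' : Ordinal.{u}} {s : Ordinal.{u} → Ordinal.{u}}
    (h : Comm E (a + 1) E' a' s) : a' = s a + 1 := by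
  obtain ⟨t, -, t2, t3⟩ := Code.top.{u}
  have h1 := h t .nil (in_nil _)
  rw [t2 E a _ (in_nil _), map_nil] at h1
  by_cases k : Suc a'
  · obtain ⟨c, rfl⟩ := k
    rw [t2 E' c _ (in_nil _)] at h1
    simpa using h1
  · rw [t3 E' a' _ k] at h1; cases h1

theorem Weak.add_nat {E E' : Seq.{u}} {d d' b : Ordinal.{u}} {s : Ordinal.{u} → Ordinal.{u}}
    (h : Weak E d E' d' s) (n : ℕ) (hb : b + n < d) : s (b + n) = s b + n := by
  induction n with
  | zero => simp
  | succ n ih =>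
    rw [add_succ_cast] at hb
    rw [add_succ_cast, add_succ_cast, (h.comm _ hb).succ_eq, ih ((lt_add_one _).trans hb)]

theorem Weak.in_map {E E' : Seq.{u}} {d d' b : Ordinal.{u}} {s : Ordinal.{u} → Ordinal.{u}}
    (h : Weak E d E' d' s) (hb : b < d) {z : Tr.{u}} (hz : In d z) :
    In (s b) (z.map s) ↔ In b z :=
  in_map_iff (h.mono.mono fun a ha => ha.elim (fun e => e ▸ hb) (hz a))

theorem Cp.comm (hp : Cp n p) {E E' : Seq.{u}} {b b' : Ordinal.{u}} {s z} (l : LS E (b + n))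
    (l' : LS E' (b' + n)) (h : Comm E (b + n) E' (b' + n) s) (i : In b z) (i' : In b' (z.map s)) :
    p E' b' (z.map s) = (p E b z).map (Tr.map s) := by
  obtain ⟨c, -, h2⟩ := hp
  have := h c z (i.mono le_self_add)
  rwa [h2 E b z l, h2 E' b' _ l', if_pos i, if_pos i'] at this

theorem Cp.weak (hp : Cp n p) {E E' : Seq.{u}} {d d' b : Ordinal.{u}} {s z} (h : Weak E d E' d' s)
    (l : LS E d) (l' : LS E' d') (hb : b + n < d) (i : In b z) :
    p E' (s b) (z.map s) = (p E b z).map (Tr.map s) := by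
  have hb' : b < d := le_self_add.trans_lt hb
  refine hp.comm (l.mono hb.le) (l'.mono ?_) ?_ i ((h.in_map hb' (i.mono hb'.le)).2 i)
  · rw [← h.add_nat n hb]; exact (h.maps _ hb).le
  · rw [← h.add_nat n hb]; exact h.comm _ hb

/-- Preservation by a map that commutes with one level high enough. -/
theorem Fn.comm (hf : Fn f) : ∃ n : ℕ, ∀ m : ℕ, n ≤ m → ∀ E E' b b' s z, LS E (b + m) →
    LS E' (b' + m) → Comm E (b + m) E' (b' + m) s → In b z → In b' (z.map s) →
    f E' b' (z.map s) = (f E b z).map s :=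
  let ⟨n, h, _⟩ := hf
  ⟨n, fun _ hm _ _ _ _ _ _ l l' k i i' => Option.some.inj ((h.mono hm).comm l l' k i i')⟩

theorem Fn.weak (hf : Fn f) : ∃ n : ℕ, ∀ E d E' d' s b z, Weak E d E' d' s → LS E d → LS E' d' →
    b + n < d → In b z → f E' (s b) (z.map s) = (f E b z).map s :=
  let ⟨n, h, _⟩ := hf
  ⟨n, fun _ _ _ _ _ _ _ k l l' hb i => Option.some.inj (h.weak k l l' hb i)⟩

theorem Df.comm (hA : Df A) : ∃ n : ℕ, ∀ m : ℕ, n ≤ m → ∀ E E' b b' s z, LS E (b + m) →
    LS E' (b' + m) → Comm E (b + m) E' (b' + m) s → In b z → In b' (z.map s) →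
    (A E' b' (z.map s) ↔ A E b z) :=
  hA.fn.comm.imp fun _ h m hm E E' b b' s z l l' k i i' => by
    rw [← tv_eq_nil.{u} (A E' b' _), h m hm E E' b b' s z l l' k i i', map_tv, tv_eq_nil]

theorem Df.weak (hA : Df A) : ∃ n : ℕ, ∀ E d E' d' s b z, Weak E d E' d' s → LS E d → LS E' d' →
    b + n < d → In b z → (A E' (s b) (z.map s) ↔ A E b z) :=
  hA.fn.weak.imp fun _ h E d E' d' s b z k l l' hb i => by
    rw [← tv_eq_nil.{u} (A E' _ _), h E d E' d' s b z k l l' hb i, map_tv, tv_eq_nil]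

theorem add_nat_lt {b d : Ordinal.{u}} (hd : ¬ Suc d) (hb : b < d) (n : ℕ) : b + n < d := by
  induction n with
  | zero => simpa using hb
  | succ n ih => rw [add_succ_cast]; exact not_suc_iff.1 hd _ ih

/-- Weak maps are elementary below every limit level of the domain. -/
theorem Fn.weak_lim (hf : Fn f) {E E' : Seq.{u}} {d d' b m : Ordinal.{u}} {s z}
    (h : Weak E d E' d' s) (l : LS E d) (l' : LS E' d') (hm : ¬ Suc m) (hb : b < m) (hd : m ≤ d)
    (i : In b z) : f E' (s b) (z.map s) = (f E b z).map s :=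
  let ⟨n, k⟩ := hf.weak; k E d E' d' s b z h l l' ((add_nat_lt hm hb n).trans_le hd) i

theorem Df.weak_lim (hA : Df A) {E E' : Seq.{u}} {d d' b m : Ordinal.{u}} {s z}
    (h : Weak E d E' d' s) (l : LS E d) (l' : LS E' d') (hm : ¬ Suc m) (hb : b < m) (hd : m ≤ d)
    (i : In b z) : A E' (s b) (z.map s) ↔ A E b z :=
  let ⟨n, k⟩ := hA.weak; k E d E' d' s b z h l l' ((add_nat_lt hm hb n).trans_le hd) i

/-- Explicit names for computed functions. -/
theorem Cp.name (hp : Cp n p) : ∃ c : Tr.{u}, c.erase = c ∧ ∀ E b z q, LS E (b + n) →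
    fv E (node (leaf (b + n)) (node c z)) q =
      if In b (node q z) then p E b (node q z) else none :=
  hp.imp fun c h => ⟨h.1, fun E b z q l => by rw [← h.2 E b _ l]; simp [fv]⟩

theorem Fn.name (hf : Fn f) : ∃ (n : ℕ) (c : Tr.{u}), c.erase = c ∧ ∀ E b z q, LS E (b + n) →
    KM.fv E (node (leaf (b + n)) (node c z)) q =
      if In b (node q z) then some (f E b (node q z)) else none :=
  let ⟨n, h, _⟩ := hf; ⟨n, h.name⟩

/-- Explicit names for definable sets. -/
theorem Df.name (hA : Df A) : ∃ (n : ℕ) (c : Tr.{u}), c.erase = c ∧ ∀ E b z q, LS E (b + n) →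
    (Nm E (node (leaf (b + n)) (node c z)) q ↔ In b (node q z) ∧ A E b (node q z)) := by
  obtain ⟨n, c, h1, h2⟩ := hA.semi
  refine ⟨n + 1, c, h1, fun E b z q l => ?_⟩
  unfold Nm NmL
  simp only [fst_node, snd_node, leaf.injEq, exists_eq_left']
  rw [h2 E b _ l]
  by_cases i : In b (node q z) <;> by_cases k : A E b (node q z) <;> simp [i, k, -in_node]

theorem Df.named (hA : Df A) : ∃ n : ℕ, ∀ E b d k z, LS E (b + n) → b + n < d → k ≤ b → In b z →
    Named E d k fun q => A E b (node q z) := by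
  obtain ⟨n, c, h1, h2⟩ := hA.name
  refine ⟨n, fun E b d k z l hd hk i => ⟨node (leaf (b + n)) (node c z), ?_, fun q hq => ?_⟩⟩
  · simp [hd, in_of_lf h1, i.mono (le_self_add.trans hd.le)]
  · exact (h2 E b z q l).trans (and_iff_right ((in_node _ _ _).2 ⟨hq.mono hk, i⟩))

/-- Below a limit level definable sets are named, with the exact extension. -/
theorem Df.named_lim (hA : Df A) {E : Seq.{u}} {b d : Ordinal.{u}} {z} (l : LS E d) (hd : ¬ Suc d)
    (hb : b < d) (i : In b z) : ∃ t, In d t ∧ ∀ q, Nm E t q ↔ In b q ∧ A E b (node q z) := by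
  obtain ⟨n, c, h1, h2⟩ := hA.name
  have h3 := add_nat_lt hd hb n
  refine ⟨node (leaf (b + n)) (node c z), by simp [h3, in_of_lf h1, i.mono hb.le], fun q => ?_⟩
  rw [h2 E b z q (l.mono h3.le)]; simp [i]

theorem Fn.named_lim (hf : Fn f) {E : Seq.{u}} {b d : Ordinal.{u}} {z} (l : LS E d) (hd : ¬ Suc d)
    (hb : b < d) (i : In b z) :
    ∃ t, In d t ∧ ∀ q, KM.fv E t q = if In b q then some (f E b (node q z)) else none := by
  obtain ⟨n, c, h1, h2⟩ := hf.name
  have h3 := add_nat_lt hd hb n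
  refine ⟨node (leaf (b + n)) (node c z), by simp [h3, in_of_lf h1, i.mono hb.le], fun q => ?_⟩
  rw [h2 E b z q (l.mono h3.le)]; simp [i]

/-- What is definable over a level finitely above is definable. -/
theorem Df.shift (k : ℕ) (hA : Df A) : Df fun E b z => A E (b + k) z := by
  obtain ⟨n, c, h1, h2⟩ := hA
  refine ⟨k + n, Cp.mk' h1 fun E b z l i => ?_⟩
  rw [Nat.cast_add, ← add_assoc] at l ⊢
  rw [h2 E _ z l, if_pos (i.mono le_self_add)]

end Pres

/-- Level-dependent ordinals. -/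
abbrev OF : Type (u + 1) := Seq.{u} → Ordinal.{u} → Tr.{u} → Ordinal.{u}

/-- A definable ordinal, at most the level. -/
structure On (o : OF.{u}) : Prop where
  df : Df fun E b w => In (o E b w.snd) w.fst
  le : ∀ E b z, In b z → o E b z ≤ b

section Rules

variable {o o' : OF.{u}} {f g h : TF.{u}} {A B : PR.{u}}
  {P : Seq.{u} → Ordinal.{u} → Tr.{u} → Tr.{u} → Prop}
  {Q : Seq.{u} → Ordinal.{u} → Ordinal.{u} → Tr.{u} → Prop}

theorem Df.triv : Df.{u} fun _ _ _ => True := (Df.eq Fn.nil Fn.nil).congr fun _ _ _ _ => by simp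

theorem Fn.erase (hf : Fn f) : Fn fun E b z => (f E b z).erase := hf.post IsOp.id.erase

theorem Fn.bop (a : Op) (hf : Fn f) : Fn fun E b z => bop a (f E b z) := hf.post (IsOp.id.of a)

theorem Fn.cmp (s : Op) (hf : Fn f) (hg : Fn g) : Fn fun E b z => cmp s (f E b z) (g E b z) :=
  ((hf.pair hg).post (IsOp.cmp s IsOp.id.fst IsOp.id.snd) :)

theorem On.top : On.{u} fun _ b _ => b :=
  ⟨Df.triv.congr fun _ _ _ i => iff_of_true trivial i.fst, fun _ _ _ _ => le_rfl⟩

theorem On.zero : On.{u} fun _ _ _ => 0 :=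
  ⟨(Df.eq Fn.id.fst.erase Fn.id.fst).congr fun _ _ _ _ => in_zero.symm, fun _ _ _ _ => zero_le⟩

theorem lab_le {b : Ordinal.{u}} {t : Tr.{u}} (h : In b t) : t.lab ≤ b := by
  cases t with
  | leaf a => exact le_of_lt (by simpa using h)
  | _ => exact zero_le

/-- The label of a component of the input. -/
theorem On.lab {s : Tr.{u} → Tr.{u}} (hs : IsOp s) : On fun _ _ z => (s z).lab := by
  refine ⟨((Df.bd (Fn.op (hs.comp IsOp.id.snd)) Fn.id.fst).or
    (Df.eq Fn.id.fst.erase Fn.id.fst)).congr fun E b z _ => ?_,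
    fun _ _ _ i => lab_le (hs.mem i)⟩
  rw [← in_zero]
  cases s z.snd with
  | leaf a => simpa using fun h => h.mono zero_le
  | _ => simp

theorem Df.in_ (ho : On o) (hf : Fn f) : Df fun E b z => In (o E b z) (f E b z) :=
  ho.df.comp (hf.pair Fn.id)

theorem On.pre {s : Tr.{u} → Tr.{u}} (ho : On o) (hs : IsOp s) : On fun E b z => o E b (s z) :=
  ⟨ho.df.pre (IsOp.id.fst.pair (hs.comp IsOp.id.snd)), fun E b _ i => ho.le E b _ (hs.mem i)⟩

theorem Df.all' (h : Df fun E b w => P E b w.fst w.snd) :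
    Df fun E b z => ∀ t, In b t → P E b t z := h.all

theorem Df.ex' (h : Df fun E b w => P E b w.fst w.snd) :
    Df fun E b z => ∃ t, In b t ∧ P E b t z := h.ex

theorem Df.ball (ho : On o) (h : Df fun E b w => P E b w.fst w.snd) :
    Df fun E b z => ∀ t, In (o E b z) t → P E b t z :=
  (ho.df.imp h).all.congr fun E b z i => forall_congr' fun _ =>
    ⟨fun k j => k (j.mono (ho.le E b z i)) j, fun k _ j => k j⟩

theorem Df.bex (ho : On o) (h : Df fun E b w => P E b w.fst w.snd) :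
    Df fun E b z => ∃ t, In (o E b z) t ∧ P E b t z :=
  (ho.df.and h).ex.congr fun E b z i => exists_congr fun _ =>
    ⟨fun k => k.2, fun k => ⟨k.1.mono (ho.le E b z i), k⟩⟩

/-- Quantifiers bounded in the tree order. -/
theorem Df.lex {s : Tr.{u} → Tr.{u}} (hs : IsOp s) (h : Df fun E b w => P E b w.fst w.snd) :
    Df fun E b z => ∃ t, Lt t (s z) ∧ P E b t z :=
  ((Df.lt Fn.id.fst (Fn.op (hs.comp IsOp.id.snd))).and h).ex.congr fun _ _ _ i =>
    exists_congr fun _ => ⟨fun k => k.2, fun k => ⟨k.1.in (hs.mem i), k⟩⟩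

theorem Df.lall {s : Tr.{u} → Tr.{u}} (hs : IsOp s) (h : Df fun E b w => P E b w.fst w.snd) :
    Df fun E b z => ∀ t, Lt t (s z) → P E b t z :=
  (Df.lex (P := fun E b t z => ¬ P E b t z) hs h.not).not.congr fun _ _ _ _ => by simp

theorem Df.oall (ho : On o) (h : Df fun E b w => Q E b w.fst.lab w.snd) :
    Df fun E b z => ∀ a < o E b z, Q E b a z :=
  (Df.ball (P := fun E b t z => (∃ a, t = leaf a) → Q E b t.lab z) ho
    ((Df.isleaf Fn.id.fst).imp h)).congr fun _ _ _ _ =>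
    ⟨fun k a j => k (leaf a) (by simpa using j) ⟨a, rfl⟩,
      fun k _ j ⟨a, e⟩ => by subst e; exact k a (by simpa using j)⟩

theorem Df.oex (ho : On o) (h : Df fun E b w => Q E b w.fst.lab w.snd) :
    Df fun E b z => ∃ a < o E b z, Q E b a z :=
  (Df.oall (Q := fun E b a z => ¬ Q E b a z) ho h.not).not.congr fun _ _ _ _ => by simp

theorem Df.ole (ho : On o) (ho' : On o') : Df fun E b z => o E b z ≤ o' E b z :=
  (Df.ball (P := fun E b t z => In (o' E b z) t) ho ho'.df).congr fun _ _ _ _ =>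
    ⟨fun k => le_of_forall_lt fun a j => by simpa using k (leaf a) (by simpa using j),
      fun k _ j => j.mono k⟩

theorem Df.olt (ho : On o) (ho' : On o') : Df fun E b z => o E b z < o' E b z :=
  (Df.ole ho' ho).not.congr fun _ _ _ _ => not_le

theorem Df.oeq (ho : On o) (ho' : On o') : Df fun E b z => o E b z = o' E b z :=
  ((Df.ole ho ho').and (Df.ole ho' ho)).congr fun _ _ _ _ => le_antisymm_iff.symm

/-- An ordinal is definable if the ordinals below it are. -/
theorem On.of_lt (h : Df fun E b w => w.fst.lab < o E b w.snd) (hl : ∀ E b z, In b z → o E b z ≤ b) :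
    On o := by
  refine ⟨(Df.oall (Q := fun E b a w => In a w.fst ∨ a < o E b w.snd) On.top
    ((Df.in_ (On.lab IsOp.id.fst) Fn.id.snd.fst).or
      (h.pre (IsOp.id.fst.pair IsOp.id.snd.snd)))).congr fun E b z i => ?_, hl⟩
  exact ⟨fun k a j => (k a (i.fst a j)).resolve_left fun m => lt_irrefl _ (m a j),
    fun k a _ => (le_or_gt (o E b z.snd) a).imp_left k.mono⟩

/-- The label of a definable tree. -/
theorem Df.lab (hf : Fn f) (h : Df fun E b w => Q E b w.fst.lab w.snd) :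
    Df fun E b z => Q E b (f E b z).lab z := h.comp (hf.pair Fn.id)

theorem Df.eq_leaf (hf : Fn f) (ho : On o) : Df fun E b z => f E b z = leaf (o E b z) :=
  ((Df.isleaf hf).and (Df.lab (Q := fun E b a z => a = o E b z) hf
    (Df.oeq (On.lab IsOp.id.fst) (ho.pre IsOp.id.snd)))).congr fun _ _ _ _ =>
    ⟨fun ⟨⟨a, e⟩, k⟩ => by rw [← k, e]; rfl, fun k => ⟨⟨_, k⟩, by rw [k]; rfl⟩⟩

/-- The leaf with a definable label, if the label is below the level. -/
theorem On.leaf (ho : On o) : Fn fun E b z => if o E b z < b then leaf (o E b z) else .nil :=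
  Df.graph 0 ((((Df.olt (ho.pre IsOp.id.snd) On.top).and (Df.eq_leaf Fn.id.fst
    (ho.pre IsOp.id.snd))).or ((Df.olt (ho.pre IsOp.id.snd) On.top).not.and
      (Df.eq Fn.id.fst Fn.nil))).congr fun _ _ _ _ => by split_ifs with h <;> simp [h])
    fun _ _ _ _ _ => by split_ifs with h <;> simp [h]

/-- Evaluation at a definable level. -/
theorem Fn.ev (ho : On o) (hf : Fn f) (hg : Fn g) :
    Fn fun E b z => Tr.opt (ev E (o E b z) (f E b z) (g E b z)) :=
  ((Df.olt ho On.top).ite (ho.leaf.pair (hf.pair hg)).call (hf.evTop hg)).congr fun E b z i => by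
    split_ifs with h
    · simp [KM.call, h]
    · rw [le_antisymm (ho.le E b z i) (not_lt.1 h)]

theorem opt_eq_node {x : Option Tr.{u}} {t : Tr.{u}} : opt x = node .nil t ↔ x = some t := by
  cases x <;> simp [opt]

theorem Df.ev_eq (ho : On o) (hf : Fn f) (hg : Fn g) (hh : Fn h) :
    Df fun E b z => ev E (o E b z) (f E b z) (g E b z) = some (h E b z) :=
  (Df.eq (Fn.ev ho hf hg) (Fn.nil.pair hh)).congr fun _ _ _ _ => opt_eq_node

theorem Df.ev_some (ho : On o) (hf : Fn f) (hg : Fn g) :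
    Df fun E b z => (ev E (o E b z) (f E b z) (g E b z)).isSome = true :=
  (Df.eq (Fn.ev ho hf hg) Fn.nil).not.congr fun E b z _ => by
    rw [opt_eq_nil, ← ne_eq, ← Option.isSome_iff_ne_none]

theorem Df.fv_eq (hf : Fn f) (hg : Fn g) (hh : Fn h) :
    Df fun E b z => fv E (f E b z) (g E b z) = some (h E b z) :=
  (Df.eq (hf.fv hg) (Fn.nil.pair hh)).congr fun _ _ _ _ => opt_eq_node

theorem Df.fv_leaf (hf : Fn f) (hg : Fn g) (ho : On o) :
    Df fun E b z => fv E (f E b z) (g E b z) = some (leaf (o E b z)) :=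
  (Df.eq_leaf (hf.fv hg).snd ho).congr fun E b z _ => by
    cases fv E (f E b z) (g E b z) <;> simp

theorem Df.th' (ho : On o) (hf : Fn f) (hg : Fn g) :
    Df fun E b z => Th E (o E b z) (f E b z) (g E b z) := Df.ev_some ho hg.fst (hg.snd.pair hf)

theorem Df.named' (ho : On o) (ho' : On o') (h : Df fun E b w => P E b w.fst w.snd) :
    Df fun E b z => Named E (o E b z) (o' E b z) fun q => P E b q z :=
  Df.bex (P := fun E b t z => ∀ q, In (o' E b z) q → (Nm E t q ↔ P E b q z)) ho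
    (Df.ball (P := fun E b q w => Nm E w.fst q ↔ P E b q w.snd) (ho'.pre IsOp.id.snd)
      ((Df.nm Fn.id.snd.fst Fn.id.fst).iff (h.pre (IsOp.id.fst.pair IsOp.id.snd.snd))))

theorem lt_rho_iff {E : Seq.{u}} {b k : Ordinal.{u}} :
    k < rho E b ↔ k < b ∧ ∀ x, In b x → Named E b k (Th E b x) := by
  constructor
  · exact fun h => ⟨h.trans_le (rho_le E b), fun x hx => by
      by_contra hn; exact h.not_ge (csInf_le' (Or.inr ⟨x, hx, hn⟩))⟩
  · rintro ⟨h1, h2⟩
    by_contra h3
    have h4 : rho E b ∈ {k | k = b ∨ ∃ x, In b x ∧ ¬ ∃ t, Names E b k (Th E b x) t} :=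
      csInf_mem (s := {k | k = b ∨ ∃ x, In b x ∧ ¬ ∃ t, Names E b k (Th E b x) t}) ⟨b, Or.inl rfl⟩
    rcases h4 with h4 | ⟨x, h4, h5⟩
    · exact h3 (h4.symm ▸ h1)
    · obtain ⟨t, h6, h7⟩ := h2 x h4
      exact h5 ⟨t, h6, fun q hq => h7 q (hq.mono (not_lt.1 h3))⟩

theorem On.rho (ho : On o) : On fun E b z => rho E (o E b z) :=
  On.of_lt (((Df.olt (On.lab IsOp.id.fst) (ho.pre IsOp.id.snd)).and
    (Df.ball (P := fun E b x w => Named E (o E b w.snd) w.fst.lab (Th E (o E b w.snd) x))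
      (ho.pre IsOp.id.snd) (Df.named' (P := fun E b q w => Th E (o E b w.snd.snd) w.fst q)
        (ho.pre IsOp.id.snd.snd) (On.lab IsOp.id.snd.fst) (Df.th' (ho.pre IsOp.id.snd.snd.snd)
          Fn.id.snd.fst Fn.id.fst)))).congr fun _ _ _ _ => lt_rho_iff.symm)
    fun E b z i => (rho_le E _).trans (ho.le E b z i)

theorem Df.suc (ho : On o) : Df fun E b z => Suc (o E b z) :=
  (Df.oex (Q := fun E b a z => ∀ c < o E b z, c ≤ a) ho (Df.oall (Q := fun _ _ c w => c ≤ w.fst.lab)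
    (ho.pre IsOp.id.snd) (Df.ole (On.lab IsOp.id.fst) (On.lab IsOp.id.snd.fst)))).congr
    fun _ _ _ _ => ⟨fun ⟨a, h1, h2⟩ => ⟨a, le_antisymm (le_of_forall_lt fun c k =>
      Order.lt_add_one_iff.2 (h2 c k)) (Order.add_one_le_iff.2 h1)⟩,
      fun ⟨a, e⟩ => ⟨a, e ▸ lt_add_one a, fun _ k => Order.lt_add_one_iff.1 (e ▸ k)⟩⟩

theorem Df.omega_lt (ho : On o) : Df fun E b z => ω < o E b z :=
  (Df.oex (Q := fun _ _ a _ => 0 < a ∧ ¬ Suc a) ho ((Df.olt On.zero (On.lab IsOp.id.fst)).and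
    (Df.suc (On.lab IsOp.id.fst)).not)).congr fun _ _ _ _ =>
    ⟨fun ⟨_, h1, h2, h3⟩ => (omega0_le_of_isSuccLimit (limit_of_not_suc h3 h2.ne')).trans_lt h1,
      fun h => ⟨ω, h, omega0_pos, not_suc_of_limit isSuccLimit_omega0⟩⟩

theorem Df.omega_le (ho : On o) : Df fun E b z => ω ≤ o E b z :=
  ((Df.omega_lt ho).or ((Df.olt On.zero ho).and (Df.suc ho).not)).congr fun _ _ _ _ =>
    ⟨fun h => h.elim le_of_lt fun h => omega0_le_of_isSuccLimit (limit_of_not_suc h.2 h.1.ne'),
      fun h => h.lt_or_eq.imp_right fun e => by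
        rw [← e]; exact ⟨omega0_pos, not_suc_of_limit isSuccLimit_omega0⟩⟩

end Rules

end Pool.Agent.KM
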