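import Pool.Agent.Lib.MP_5c0be7_lc.O.F3a
import Pool.Agent.Lib.MP_5c0be7_lc.O.Api

/-!
Project KM, block F3: the diagonal argument, projecta, parameters, named sets.
-/

namespace Pool.Agent.KM

open Ordinal Tr
open scoped Classical

universe u

namespace F3

variable {E : Seq.{u}} {a b k k' : Ordinal.{u}} {x : Tr.{u}} {A B : Tr.{u} → Prop}

theorem rho_le_of (hx : In b x) (h : ¬ Named E b k (Th E b x)) : rho E b ≤ k :=
  csInf_le' (Or.inr ⟨x, hx, h⟩)

theorem named_of_lt (hk : k < rho E b) (hx : In b x) : Named E b k (Th E b x) := by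
  by_contra h
  exact absurd (rho_le_of hx h) (not_le.2 hk)

theorem rho_cases (E : Seq.{u}) (b : Ordinal.{u}) :
    rho E b = b ∨ ∃ x, In b x ∧ ¬ Named E b (rho E b) (Th E b x) :=
  csInf_mem (s := {k | k = b ∨ ∃ x, In b x ∧ ¬ ∃ t, NamesL (ev E) b k (ThL (ev E) b x) t})
    ⟨b, Or.inl rfl⟩

theorem gen_in (h : Gen E b k x) : In b x :=
  let ⟨_, _, _, h⟩ := h nil (by simp)
  (in_of_ev_eq h).snd

theorem diag (h : Gen E b k x) : ¬ Named E b k (Th E b x) := by
  intro H
  obtain ⟨c0, H0⟩ := ex_nnm (f := fun t : Tr.{u} => t.fst) (g := fun t => t.snd.fst)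
    (by fun_prop) (by fun_prop)
  obtain ⟨o1, o2, H1⟩ := ex_sq (f := fun t : Tr.{u} => node t.fst.snd t.snd) (g := fun t => t)
    (by fun_prop) p_id
  obtain ⟨t, ht, H2⟩ := named_pre0 H (k := k) (g := fun q => node (sq o1 o2 q.fst c0.erase) q)
    (by fun_prop (disch := simp)) (fun q hq => by simpa using hq) fun q => by simp
  obtain ⟨c, v, hv, h3⟩ := h t ht
  have hi := in_of_ev_eq h3
  have hq : In b (node (node c.erase v) x) := by simpa using hi
  have h4 := H2 (node c.erase v) (by simpa using hv)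
  simp only [ThL, fst_node, snd_node] at h4
  rw [H1 E b _ _ _ hq] at h4
  simp only [fst_node, snd_node, ev_erase, h3, Option.bind_some] at h4
  rw [H0 E b _ (by simpa [ht] using hi)] at h4
  exact iff_not_self h4

theorem gen_rho (h : Gen E b k x) : rho E b ≤ k := rho_le_of (gen_in h) (diag h)

theorem ex_up (d : Tr.{u}) : ∃ c, ∀ (E : Seq.{u}) b x, In b x →
    ev E (b + 1) c x = (ev E b d (node x (par E b))).map (dec (leaf b)) := by
  obtain ⟨o1, o2, H⟩ := ex_pre (f := fun t : Tr.{u} => node (dec nil t.snd.fst) t.snd.snd)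
    (by fun_prop (disch := simp))
  refine ⟨atom (.cst (sq o1 o2 d (opc .id))), fun E b x hx => ?_⟩
  have h1 := hx.mono (le_self_add : b ≤ b + 1)
  rw [ev_atom _ h1, sev_cst (by simp), H E b _ _ (by simpa using in_dn E h1)]
  simp [dn_eq, enc_eq_nil hx]

theorem gen_top (E : Seq.{u}) (b : Ordinal.{u}) : Gen E (b + 1) b nil := by
  intro t ht
  obtain ⟨c, H⟩ := ex_up (opc .ff : Tr.{u})
  have h1 : In b (node (enc (leaf b) t) nil) := by simpa using ht.enc
  refine ⟨c, enc (leaf b) t, ht.enc, ?_⟩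
  rw [H E b _ h1, ev_opc _ (by simp [h1, in_par])]
  simp

theorem gen_succ (h : ∃ p, SS E b p) : Gen E (b + 1) (rho E b) nil := by
  intro t ht
  obtain ⟨c, v, hv, h1⟩ := (ss_pp h).2.2.2 _ ht.enc
  obtain ⟨c', H⟩ := ex_up (prec (.pair .ff .fs) c)
  have h2 : In b (node v nil) := by simpa using hv.mono (rho_le E b)
  refine ⟨c', v, hv, ?_⟩
  rw [H E b _ h2, ev_prec _ _ (by simp [h2, in_par])]
  simp [h1]

theorem rho_top (E : Seq.{u}) (b : Ordinal.{u}) : rho E (b + 1) ≤ b := gen_rho (gen_top E b)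

theorem rho_succ (h : ∃ p, SS E b p) : rho E (b + 1) ≤ rho E b := gen_rho (gen_succ h)

theorem rho_lim (E : Seq.{u}) (b : Ordinal.{u}) : ¬ Suc (rho E b) := by
  rintro ⟨g, hg⟩
  have hb : g + 1 < b := by
    refine lt_of_le_of_ne (hg ▸ rho_le E b) fun e => ?_
    have := rho_top E g
    rw [e, hg] at this
    exact absurd this (not_le.2 (lt_add_one g))
  rcases rho_cases E b with h | ⟨x, hx, h⟩
  · exact hb.ne (hg.symm.trans h)
  have hg1 : In (g + 1) (leaf g) := by simp
  have hx1 : In b (node (leaf g) x) := by simp [hx, (lt_add_one g).trans hb]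
  have h1 := named_of_lt (E := E) (hg ▸ lt_add_one g) hx1
  obtain ⟨o1, o2, H⟩ := ex_pre (f := fun t : Tr.{u} => node (dec t.snd.fst t.fst) t.snd.snd)
    (by fun_prop)
  refine h (hg ▸ named_congr (named_pre h1 hb hb
    (g := fun q => node (sq o1 o2 q.fst (opc .id)) (enc (leaf g) q.snd))
    (by fun_prop (disch := first | assumption | simp)) fun q hq => by simpa using hq.snd.enc)
    fun q hq => ?_)
  simp only [ThL, fst_node, snd_node]
  rw [H E b _ _ (by simpa [hx1] using hq.snd.enc.mono (le_self_add.trans hb.le))]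
  simp

theorem ex_path {g : Ordinal.{u}} (h : g ∈ x.lv) : ∃ o, bop o x = leaf g := by
  induction x with
  | nil => simp at h
  | leaf a => exact ⟨.id, by simp_all⟩
  | node l r ihl ihr =>
    rcases h with h | h
    · exact let ⟨o, ho⟩ := ihl h; ⟨.comp o .fst, ho⟩
    · exact let ⟨o, ho⟩ := ihr h; ⟨.comp o .snd, ho⟩

/-- A tree is the value of an operation on any tree that contains its labels. -/
theorem ex_op {q : Tr.{u}} (h : q.lv ⊆ x.lv) : ∃ o, bop o x = q := by
  induction q with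
  | nil => exact ⟨.nil, rfl⟩
  | leaf a => exact ex_path (by simpa using h)
  | node l r ihl ihr =>
    simp only [lv_node, Set.union_subset_iff] at h
    obtain ⟨o, ho⟩ := ihl h.1
    obtain ⟨o', ho'⟩ := ihr h.2
    exact ⟨.pair o o', by simp [ho, ho']⟩

theorem gen_change {q s : Tr.{u}} (h : Gen E b k q) (hk : k ≤ k') (hb : k' ≤ b) (hs : In b s)
    (hl : ∀ a ∈ q.lv, a < k' ∨ a ∈ s.lv) : Gen E b k' s := by
  intro t ht
  obtain ⟨c, v, hv, h1⟩ := h t ht
  obtain ⟨w, hw, hw'⟩ := exists_list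
    (S := leaf '' {a ∈ q.lv | a < k'}) ((q.lv_finite.subset fun _ h => h.1).image _)
  have h2 : In k' w := fun a ha => by
    obtain ⟨_, ⟨a', h3, rfl⟩, h4⟩ := hw' a ha
    exact (show a = a' from h4) ▸ h3.2
  obtain ⟨o, ho⟩ := ex_op (q := node v q) (x := node (node v w) s) (by
    rintro a (ha | ha)
    · exact Or.inl (Or.inl ha)
    · rcases hl a ha with h3 | h3
      · exact Or.inl (Or.inr (mem_lv ((hw _).2 ⟨a, ⟨ha, h3⟩, rfl⟩) (by simp)))
      · exact Or.inr h3)
  refine ⟨prec o c, node v w, by simp [hv.mono hk, h2], ?_⟩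
  rw [ev_prec _ _ (by simp [hv.mono (hk.trans hb), h2.mono hb, hs]), ho, h1]

theorem solid_tail {p : Tr.{u}} (h : Solid E b p) {g} (hg : g ∈ p.lv) :
    ∃ s : Tr.{u}, s.lv = {a ∈ p.lv | g < a} ∧ Named E b g (Th E b s) := by
  induction p with
  | nil => simp at hg
  | leaf a => exact h.elim
  | node l r _ ih =>
    obtain ⟨g', rfl, h1, h2, h3⟩ := h
    rcases hg with hg | hg
    · obtain rfl : g = g' := hg
      refine ⟨r, ?_, h2⟩
      ext a
      simp only [lv_node, lv_leaf, Set.mem_ofPred_eq, Set.mem_union, Set.mem_singleton_iff]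
      exact ⟨fun ha => ⟨Or.inr ha, h1 a ha⟩, fun ha => ha.1.resolve_left ha.2.ne'⟩
    · obtain ⟨s, h4, h5⟩ := ih h3 hg
      refine ⟨s, ?_, h5⟩
      rw [h4]
      ext a
      simp only [lv_node, lv_leaf, Set.mem_ofPred_eq, Set.mem_union, Set.mem_singleton_iff]
      exact ⟨fun ha => ⟨Or.inr ha.1, ha.2⟩, fun ha =>
        ⟨ha.1.resolve_left ((h1 g hg).trans ha.2).ne', ha.2⟩⟩

theorem solid_ext {p q : Tr.{u}} (hp : Solid E b p) (hq : Solid E b q) (h : p.lv = q.lv) :
    p = q := by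
  induction p generalizing q with
  | leaf a => exact hp.elim
  | nil =>
    cases q with
    | nil => rfl
    | leaf a => exact hq.elim
    | node l r =>
      obtain ⟨g, rfl, _⟩ := hq
      exact absurd (h ▸ Or.inl rfl : g ∈ lv nil) (by simp)
  | node l r _ ih =>
    obtain ⟨g, rfl, h1, _, h3⟩ := hp
    cases q with
    | nil => exact absurd (h ▸ Or.inl rfl : g ∈ lv nil) (by simp)
    | leaf a => exact hq.elim
    | node l' r' =>
      obtain ⟨g', rfl, h1', _, h3'⟩ := hq
      have e1 : g = g' ∨ g ∈ r'.lv := (h ▸ Or.inl rfl : g ∈ lv (node (leaf g') r'))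
      have e2 : g' = g ∨ g' ∈ r.lv := (h.symm ▸ Or.inl rfl : g' ∈ lv (node (leaf g) r))
      obtain rfl : g = g' := by
        by_contra hne
        exact (h1' g (e1.resolve_left hne)).asymm (h1 g' (e2.resolve_left (Ne.symm hne)))
      rw [ih h3 h3' (Set.ext fun a => ⟨fun ha => ?_, fun ha => ?_⟩)]
      · exact (h ▸ Or.inr ha : a ∈ lv (node (leaf g) r')).resolve_left (h1 a ha).ne'
      · exact (h.symm ▸ Or.inr ha : a ∈ lv (node (leaf g) r)).resolve_left (h1' a ha).ne'

theorem ss_step {p q : Tr.{u}} (hp : SS E b p) (hq : SS E b q) {g} (hg : g ∈ p.lv)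
    (hg' : g ∉ q.lv) : ∃ a ∈ q.lv, a ∉ p.lv ∧ g < a := by
  by_contra hc
  obtain ⟨s, h1, h2⟩ := solid_tail hp.2.2.1 hg
  refine diag (gen_change hq.2.2.2 (hp.2.1 g hg) (hp.1 g hg).le
    (fun a ha => hp.1 a (h1 ▸ ha : a ∈ {a ∈ p.lv | g < a}).1) fun a ha => ?_) h2
  rcases lt_trichotomy a g with h3 | rfl | h3
  · exact Or.inl h3
  · exact absurd ha hg'
  · exact Or.inr (h1 ▸ ⟨by_contra fun h4 => hc ⟨a, ha, h4, h3⟩, h3⟩)

theorem ss_unique {p q : Tr.{u}} (hp : SS E b p) (hq : SS E b q) : p = q := by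
  refine solid_ext hp.2.2.1 hq.2.2.1 (by_contra fun hne => ?_)
  obtain ⟨g, hg, hm⟩ := Set.exists_max_image {a | ¬ (a ∈ p.lv ↔ a ∈ q.lv)} id
    ((p.lv_finite.union q.lv_finite).subset fun a ha => by_contra fun h => ha (by simp_all))
    (by_contra fun h => hne (Set.ext fun a => by_contra fun h1 => h ⟨a, h1⟩))
  by_cases h : g ∈ p.lv
  · obtain ⟨a, h1, h2, h3⟩ := ss_step hp hq h fun h1 => hg (iff_of_true h h1)
    exact absurd (hm a fun e => h2 (e.2 h1)) (not_le.2 h3)
  · obtain ⟨a, h1, h2, h3⟩ := ss_step hq hp (by_contra fun h1 => hg (iff_of_false h h1)) h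
    exact absurd (hm a fun e => h2 (e.1 h1)) (not_le.2 h3)

theorem named_and (H : Named E b k A) (H' : Named E b k B) : Named E b k fun q => A q ∧ B q := by
  rcases named_cases H with h1 | ⟨a, ha, h1⟩
  · exact named_empty fun q hq h => h1 q hq h.1
  · obtain ⟨e, h2, h3, h4⟩ := named_cs H' ha
    exact ((h1.lift h2).and h4).named h3

theorem named_compl (hk : k ≤ b) (H : Named E b k A) : Named E (b + 1) k fun q => ¬ A q :=
  (named_cs_compl H hk).named (lt_add_one b)

theorem named_compl_lim (hb : ¬ Suc b) (hk : k < b) (H : Named E b k A) :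
    Named E b k fun q => ¬ A q := by
  obtain ⟨e, h1, h2, h3⟩ := named_cs H hk
  exact (named_cs_compl (h3.named (lt_add_one e)) (h1.trans le_self_add)).named
    (not_suc_iff.1 hb e h2)

theorem CS.dom (H : CS E b k A) (hk : k < rho E b) : Named E b k A :=
  let ⟨_, _, hz, H⟩ := H
  named_of_th (named_of_lt hk hz) H

theorem p_par (s : Op) {z : Tr.{u}} (hz : In a z) : IsP a fun q => bop s (node q z) :=
  ⟨s, z, hz, fun _ => rfl⟩

end F3

open F3

instance : DiagSt.{u} :=
  ⟨rho_le, fun _ _ _ _ => named_of_lt, fun _ _ _ _ => rho_le_of, fun _ _ _ _ => diag,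
    fun _ _ _ _ => gen_rho, gen_top, fun _ _ h => gen_succ h.1, rho_top, fun _ _ h => rho_succ h.1,
    rho_lim, fun _ _ _ _ => ss_unique, in_par⟩

instance : NamedSt.{u} :=
  ⟨fun _ _ _ _ _ s z hk hz H h => named_pre H hk hz (p_par s (in_ht z)) h,
    fun _ _ k s z hk hz => (cs_test (le_max_left k z.ht)
      (p_par s ((in_ht z).mono (le_max_right _ _)))).named (max_lt hk hz),
    fun _ _ _ _ _ => named_and, fun _ _ _ _ => named_compl, fun _ _ _ _ => named_compl_lim,
    fun E b _ c s _ hk hz => CS.dom ((cf_ev (hk.le.trans (rho_le E b)) (p_par s hz) c).cs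
      fun _ _ => Iff.rfl) hk⟩

end Pool.Agent.KM
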