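import Pool.Agent.Lib.MP_5c0be7_lc.O.Ev

/-!
Project KM: basic facts on trees, their order and the natural operations.
-/

namespace Pool.Agent.KM

open Ordinal Tr
open scoped Classical

universe u

namespace Tr

@[simp] theorem map_nil (f : Ordinal.{u} → Ordinal.{u}) : map f nil = nil := rfl
@[simp] theorem map_leaf (f : Ordinal.{u} → Ordinal.{u}) (a) : map f (leaf a) = leaf (f a) := rfl
@[simp] theorem map_node (f : Ordinal.{u} → Ordinal.{u}) (l r) :
    map f (node l r) = node (map f l) (map f r) := rfl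
@[simp] theorem map_one (f : Ordinal.{u} → Ordinal.{u}) : map f one = one := rfl
@[simp] theorem lv_nil : lv nil.{u} = ∅ := rfl
@[simp] theorem lv_leaf (a : Ordinal.{u}) : lv (leaf a) = {a} := rfl
@[simp] theorem lv_node (l r : Tr.{u}) : lv (node l r) = lv l ∪ lv r := rfl
@[simp] theorem lv_one : lv one.{u} = ∅ := by simp [one]
@[simp] theorem fst_node (l r : Tr.{u}) : fst (node l r) = l := rfl
@[simp] theorem snd_node (l r : Tr.{u}) : snd (node l r) = r := rfl
@[simp] theorem fst_nil : fst nil.{u} = nil := rfl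
@[simp] theorem snd_nil : snd nil.{u} = nil := rfl
@[simp] theorem fst_leaf (a : Ordinal.{u}) : fst (leaf a) = nil := rfl
@[simp] theorem snd_leaf (a : Ordinal.{u}) : snd (leaf a) = nil := rfl
@[simp] theorem lab_leaf (a : Ordinal.{u}) : lab (leaf a) = a := rfl
@[simp] theorem lab_nil : lab nil.{u} = 0 := rfl
@[simp] theorem lab_node (l r : Tr.{u}) : lab (node l r) = 0 := rfl
@[simp] theorem opt_none : opt none = nil.{u} := rfl
@[simp] theorem opt_some (v : Tr.{u}) : opt (some v) = node nil v := rfl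
@[simp] theorem unopt_opt (o : Option Tr.{u}) : unopt (opt o) = o := by cases o <;> rfl
@[simp] theorem unopt_node (l v : Tr.{u}) : unopt (node l v) = some v := rfl
@[simp] theorem unopt_nil : unopt nil.{u} = none := rfl
@[simp] theorem unopt_leaf (a : Ordinal.{u}) : unopt (leaf a) = none := rfl
@[simp] theorem erase_nil : erase nil.{u} = nil := rfl
@[simp] theorem erase_leaf (a : Ordinal.{u}) : erase (leaf a) = nil := rfl
@[simp] theorem erase_node (l r : Tr.{u}) : erase (node l r) = node (erase l) (erase r) := rfl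
@[simp] theorem one_ne_nil : one.{u} ≠ nil := by simp [one]
@[simp] theorem tv_eq_nil (p : Prop) : tv.{u} p = nil ↔ p := by
  unfold tv; split_ifs with h <;> simp [h]
theorem tv_pos {p : Prop} (h : p) : tv.{u} p = nil := if_pos h
theorem tv_neg {p : Prop} (h : ¬ p) : tv.{u} p = one := if_neg h
@[simp] theorem map_tv (f : Ordinal.{u} → Ordinal.{u}) (p : Prop) : map f (tv p) = tv p := by
  unfold tv; split_ifs <;> rfl
@[simp] theorem lv_tv (p : Prop) : lv (tv.{u} p) = ∅ := by unfold tv; split_ifs <;> simp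
@[simp] theorem opt_eq_nil (o : Option Tr.{u}) : opt o = nil ↔ o = none := by cases o <;> simp [opt]

theorem map_map (f g : Ordinal.{u} → Ordinal.{u}) (t : Tr.{u}) :
    map g (map f t) = map (fun a => g (f a)) t := by
  induction t <;> simp [*]

theorem map_congr {f g : Ordinal.{u} → Ordinal.{u}} {t : Tr.{u}} (h : ∀ a ∈ t.lv, f a = g a) :
    map f t = map g t := by
  induction t with
  | nil => rfl
  | leaf a => simp [h a (by simp)]
  | node l r ihl ihr =>
    simp [ihl fun a ha => h a (Or.inl ha), ihr fun a ha => h a (Or.inr ha)]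

@[simp] theorem map_id' (t : Tr.{u}) : map (fun a => a) t = t := by induction t <;> simp [*]

theorem map_eq_self {f : Ordinal.{u} → Ordinal.{u}} {t : Tr.{u}} (h : ∀ a ∈ t.lv, f a = a) :
    map f t = t := (map_congr h).trans (map_id' t)

theorem lv_map (f : Ordinal.{u} → Ordinal.{u}) (t : Tr.{u}) : (map f t).lv = f '' t.lv := by
  induction t <;> simp [*, Set.image_union]

theorem lv_finite (t : Tr.{u}) : t.lv.Finite := by induction t <;> simp [*]

@[simp] theorem map_fst (f : Ordinal.{u} → Ordinal.{u}) (t : Tr.{u}) :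
    (map f t).fst = map f t.fst := by cases t <;> rfl
@[simp] theorem map_snd (f : Ordinal.{u} → Ordinal.{u}) (t : Tr.{u}) :
    (map f t).snd = map f t.snd := by cases t <;> rfl
@[simp] theorem map_eq_nil (f : Ordinal.{u} → Ordinal.{u}) (t : Tr.{u}) :
    map f t = nil ↔ t = nil := by cases t <;> simp
theorem map_opt (f : Ordinal.{u} → Ordinal.{u}) (o : Option Tr.{u}) :
    map f (opt o) = opt (o.map (map f)) := by cases o <;> rfl
theorem unopt_map (f : Ordinal.{u} → Ordinal.{u}) (t : Tr.{u}) :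
    unopt (map f t) = (unopt t).map (map f) := by cases t <;> rfl
theorem map_eq_leaf {f : Ordinal.{u} → Ordinal.{u}} {t : Tr.{u}} {b} :
    map f t = leaf b ↔ ∃ a, t = leaf a ∧ f a = b := by cases t <;> simp
theorem lv_fst (t : Tr.{u}) : t.fst.lv ⊆ t.lv := by cases t <;> simp
theorem lv_snd (t : Tr.{u}) : t.snd.lv ⊆ t.lv := by cases t <;> simp
@[simp] theorem lv_erase (t : Tr.{u}) : t.erase.lv = ∅ := by induction t <;> simp [*]
@[simp] theorem erase_map (f : Ordinal.{u} → Ordinal.{u}) (t : Tr.{u}) :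
    (map f t).erase = t.erase := by induction t <;> simp [*]
@[simp] theorem map_erase (f : Ordinal.{u} → Ordinal.{u}) (t : Tr.{u}) :
    map f t.erase = t.erase := map_eq_self (by simp)
@[simp] theorem erase_erase (t : Tr.{u}) : t.erase.erase = t.erase := by induction t <;> simp [*]
theorem erase_eq_self {t : Tr.{u}} : t.erase = t ↔ t.lv = ∅ := by
  induction t <;> simp [*]
@[simp] theorem erase_fst (t : Tr.{u}) : t.erase.fst = t.fst.erase := by cases t <;> rfl
@[simp] theorem erase_snd (t : Tr.{u}) : t.erase.snd = t.snd.erase := by cases t <;> rfl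
@[simp] theorem unnum_num (n : ℕ) : unnum (num.{u} n) = n := by
  induction n <;> simp [num, unnum, *]
@[simp] theorem unnum_erase (t : Tr.{u}) : unnum t.erase = unnum t := by
  induction t <;> simp [unnum, *]
@[simp] theorem unnum_map (f : Ordinal.{u} → Ordinal.{u}) (t : Tr.{u}) :
    unnum (map f t) = unnum t := by rw [← unnum_erase, erase_map, unnum_erase]
@[simp] theorem lv_num (n : ℕ) : (num.{u} n).lv = ∅ := by induction n <;> simp [num, *]
@[simp] theorem erase_num (n : ℕ) : (num.{u} n).erase = num n := erase_eq_self.2 (lv_num n)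

@[simp] theorem in_nil (k : Ordinal.{u}) : In k nil := by simp [In]
@[simp] theorem in_leaf (k a : Ordinal.{u}) : In k (leaf a) ↔ a < k := by simp [In]
@[simp] theorem in_node (k : Ordinal.{u}) (l r) : In k (node l r) ↔ In k l ∧ In k r := by
  simp only [In, lv_node, Set.mem_union, or_imp, forall_and]
@[simp] theorem in_one (k : Ordinal.{u}) : In k one := by simp [In]
@[simp] theorem in_tv (k : Ordinal.{u}) (p : Prop) : In k (tv p) := by simp [In]
@[simp] theorem in_erase (k : Ordinal.{u}) (t : Tr.{u}) : In k t.erase := by simp [In]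
@[simp] theorem in_num (k : Ordinal.{u}) (n : ℕ) : In k (num n) := by simp [In]
theorem In.mono {k k' : Ordinal.{u}} {t} (h : In k t) (hk : k ≤ k') : In k' t :=
  fun a ha => (h a ha).trans_le hk
theorem In.of_subset {k : Ordinal.{u}} {s t : Tr.{u}} (h : In k t) (hs : s.lv ⊆ t.lv) : In k s :=
  fun a ha => h a (hs ha)
theorem In.fst {k : Ordinal.{u}} {t} (h : In k t) : In k t.fst := h.of_subset (lv_fst t)
theorem In.snd {k : Ordinal.{u}} {t} (h : In k t) : In k t.snd := h.of_subset (lv_snd t)
theorem in_of_lf {t : Tr.{u}} (h : t.erase = t) (k : Ordinal.{u}) : In k t := h ▸ in_erase k t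
theorem in_zero {t : Tr.{u}} : In 0 t ↔ t.erase = t := by
  rw [erase_eq_self, In, Set.eq_empty_iff_forall_notMem]; simp
theorem In.opt {k : Ordinal.{u}} {o : Option Tr.{u}} (h : ∀ v, o = some v → In k v) :
    In k (opt o) := by
  cases o with
  | none => simp
  | some v => simp [h v rfl]
theorem in_iff_subset {k : Ordinal.{u}} {t : Tr.{u}} : In k t ↔ t.lv ⊆ Set.Iio k := Iff.rfl

/-! Heights. -/

@[simp] theorem ht_nil : ht nil.{u} = 0 := rfl
@[simp] theorem ht_leaf (a : Ordinal.{u}) : ht (leaf a) = a + 1 := rfl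
@[simp] theorem ht_node (l r : Tr.{u}) : ht (node l r) = max (ht l) (ht r) := rfl

theorem ht_le_iff {k : Ordinal.{u}} {t : Tr.{u}} : t.ht ≤ k ↔ In k t := by
  induction t with
  | nil => simp
  | leaf a => simp [Order.add_one_le_iff]
  | node l r ihl ihr => simp [ihl, ihr]

theorem in_ht (t : Tr.{u}) : In t.ht t := ht_le_iff.1 le_rfl

theorem In.ht_le {k : Ordinal.{u}} {t} (h : In k t) : t.ht ≤ k := ht_le_iff.2 h

theorem add_one_lt_omega {a : Ordinal.{u}} (h : a < ω) : a + 1 < ω :=
  isSuccLimit_omega0.add_one_lt h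

/-- Below a limit ordinal, a tree lies in a smaller stratum. -/
theorem In.ht_lt {k : Ordinal.{u}} (hk : Order.IsSuccLimit k) {t} (h : In k t) : t.ht < k := by
  induction t with
  | nil => simpa using hk.pos
  | leaf a => exact hk.add_one_lt (by simpa using h)
  | node l r ihl ihr =>
    rw [in_node] at h
    exact max_lt (ihl h.1) (ihr h.2)

/-- The height is zero or given by the largest label. -/
theorem ht_cases (t : Tr.{u}) : (t.lv = ∅ ∧ t.ht = 0) ∨ ∃ a ∈ t.lv, t.ht = a + 1 := by
  induction t with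
  | nil => simp
  | leaf a => simp
  | node l r ihl ihr =>
    rcases le_total (ht l) (ht r) with h2 | h2
    · rw [ht_node, max_eq_right h2]
      rcases ihr with ⟨h3, h4⟩ | ⟨a, ha, h3⟩
      · rcases ihl with ⟨h5, _⟩ | ⟨a, _, h5⟩
        · exact Or.inl ⟨by simp [h3, h5], h4⟩
        · rw [h4, h5] at h2; simp at h2
      · exact Or.inr ⟨a, Or.inr ha, h3⟩
    · rw [ht_node, max_eq_left h2]
      rcases ihl with ⟨h3, h4⟩ | ⟨a, ha, h3⟩
      · rcases ihr with ⟨h5, _⟩ | ⟨a, _, h5⟩
        · exact Or.inl ⟨by simp [h3, h5], h4⟩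
        · rw [h4, h5] at h2; simp at h2
      · exact Or.inr ⟨a, Or.inl ha, h3⟩

theorem ht_lt_ht {s t : Tr.{u}} : s.ht < t.ht ↔ ∃ a ∈ t.lv, In a s := by
  rw [← not_le, ht_le_iff]
  simp only [In, not_forall, not_lt, ht_le_iff, exists_prop]

/-! The order. -/

theorem ser_append {s t : Tr.{u}} {x y} (h : ser s ++ x = ser t ++ y) : s = t ∧ x = y := by
  induction s generalizing t x y with
  | nil => cases t <;> simp_all [ser]
  | leaf a => cases t <;> simp_all [ser]
  | node l r ihl ihr =>
    cases t with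
    | nil => simp [ser] at h
    | leaf a => simp [ser] at h
    | node l' r' =>
      simp only [ser, List.cons_append, List.cons.injEq, true_and, List.append_assoc] at h
      obtain ⟨rfl, h2⟩ := ihl h
      obtain ⟨rfl, h3⟩ := ihr h2
      exact ⟨rfl, h3⟩

theorem ser_inj {s t : Tr.{u}} (h : ser s = ser t) : s = t :=
  (ser_append (x := []) (y := []) (by simpa using h)).1

theorem lt_wf : WellFounded Lt.{u} := by
  have h := WellFounded.prod_lex (wellFounded_lt (α := Ordinal.{u}))
    (List.Shortlex.wf (wellFounded_lt (α := WithBot (WithBot Ordinal.{u}))))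
  refine Subrelation.wf ?_ (InvImage.wf (fun t : Tr.{u} => (t.ht, t.ser)) h)
  intro s t hst
  rcases hst with h1 | ⟨h1, h2⟩
  · exact Prod.Lex.left _ _ h1
  · show Prod.Lex _ _ (s.ht, s.ser) (t.ht, t.ser)
    rw [h1]; exact Prod.Lex.right _ h2

theorem lt_tri (s t : Tr.{u}) : Lt s t ∨ s = t ∨ Lt t s := by
  rcases lt_trichotomy s.ht t.ht with h | h | h
  · exact Or.inl (Or.inl h)
  · rcases trichotomous_of (List.Shortlex (· < ·)) s.ser t.ser with h1 | h1 | h1
    · exact Or.inl (Or.inr ⟨h, h1⟩)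
    · exact Or.inr (Or.inl (ser_inj h1))
    · exact Or.inr (Or.inr (Or.inr ⟨h.symm, h1⟩))
  · exact Or.inr (Or.inr (Or.inl h))

theorem Lt.asymm {s t : Tr.{u}} (h : Lt s t) : ¬ Lt t s := lt_wf.asymmetric _ _ h
theorem lt_irrefl' (s : Tr.{u}) : ¬ Lt s s := fun h => h.asymm h
theorem Lt.trans {r s t : Tr.{u}} (h : Lt r s) (h' : Lt s t) : Lt r t := by
  rcases lt_tri r t with h1 | rfl | h1
  · exact h1
  · exact absurd h' h.asymm
  · exact absurd h1 (lt_wf.asymmetric₃ _ _ _ h h' |> fun x => x)
theorem Lt.ht_le {s t : Tr.{u}} (h : Lt s t) : s.ht ≤ t.ht := h.elim le_of_lt fun h => h.1.le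
theorem Lt.in {s t : Tr.{u}} {k} (h : Lt s t) (ht : In k t) : In k s :=
  ht_le_iff.1 (h.ht_le.trans ht.ht_le)
theorem not_lt_nil (s : Tr.{u}) : ¬ Lt s nil := by
  rintro (h | ⟨_, h⟩)
  · simp at h
  · rw [List.shortlex_def] at h
    cases s with
    | node l r => cases l <;> simp [ser] at h
    | _ => simp [ser] at h

theorem IsLeast.unique {P : Tr.{u} → Prop} {s t} (hs : IsLeast P s) (ht : IsLeast P t) : s = t := by
  rcases lt_tri s t with h | h | h
  · exact absurd hs.1 (ht.2 s h)
  · exact h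
  · exact absurd ht.1 (hs.2 t h)

theorem exists_isLeast {P : Tr.{u} → Prop} (h : ∃ t, P t) : ∃ t, IsLeast P t := by
  obtain ⟨t, ht, hm⟩ := lt_wf.has_min {t | P t} h
  exact ⟨t, ht, fun s hs hP => hm s hP hs⟩

theorem least_eq_some {P : Tr.{u} → Prop} {t} : least P = some t ↔ IsLeast P t := by
  unfold least; split_ifs with h
  · rw [Option.some_inj]
    exact ⟨fun e => e ▸ h.choose_spec, fun ht => h.choose_spec.unique ht⟩
  · exact ⟨fun e => by simp at e, fun ht => absurd ⟨t, ht⟩ h⟩

theorem least_eq_none {P : Tr.{u} → Prop} : least P = none ↔ ∀ t, ¬ P t := by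
  unfold least; split_ifs with h
  · exact ⟨fun e => by simp at e, fun hn => absurd h.choose_spec.1 (hn _)⟩
  · exact ⟨fun _ t ht => h (exists_isLeast ⟨t, ht⟩), fun _ => rfl⟩

theorem least_isSome {P : Tr.{u} → Prop} : (least P).isSome ↔ ∃ t, P t := by
  rw [← not_iff_not, Option.not_isSome_iff_eq_none, least_eq_none]; simp

/-! Marks. -/

theorem dec_enc_of {m m' t : Tr.{u}} (h : ∀ a ∈ t.lv, leaf a = m → m' = m) :
    dec m' (enc m t) = t := by
  induction t with
  | nil => rfl
  | leaf a =>
    unfold enc; split_ifs with h1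
    · exact (h a (by simp) h1).trans h1.symm
    · rfl
  | node l r ihl ihr =>
    show node _ _ = _
    rw [ihl fun a ha => h a (Or.inl ha), ihr fun a ha => h a (Or.inr ha)]

@[simp] theorem dec_enc (m t : Tr.{u}) : dec m (enc m t) = t := dec_enc_of fun _ _ _ => rfl
@[simp] theorem dec_enc_nil (m t : Tr.{u}) : dec m (enc nil t) = t :=
  dec_enc_of fun _ _ h => by simp at h
@[simp] theorem dec_one (m : Tr.{u}) : dec m one = m := rfl
@[simp] theorem dec_nil (m : Tr.{u}) : dec m nil = nil := rfl
@[simp] theorem enc_nil (m : Tr.{u}) : enc m nil = nil := rfl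
theorem enc_node (m l r : Tr.{u}) : enc m (node l r) = node (node (enc m l) (enc m r)) nil := rfl

theorem enc_congr {m m' t : Tr.{u}} (h : ∀ a ∈ t.lv, leaf a = m ↔ leaf a = m') :
    enc m t = enc m' t := by
  induction t with
  | nil => rfl
  | leaf a => simp only [enc, h a (by simp)]
  | node l r ihl ihr =>
    rw [enc_node, enc_node, ihl fun a ha => h a (Or.inl ha), ihr fun a ha => h a (Or.inr ha)]

theorem enc_eq_nil {b : Ordinal.{u}} {t : Tr.{u}} (h : In b t) : enc (leaf b) t = enc nil t :=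
  enc_congr fun a ha => by simp [(h a ha).ne]

theorem lv_enc (m t : Tr.{u}) : (enc m t).lv = {a | a ∈ t.lv ∧ leaf a ≠ m} := by
  induction t with
  | nil => simp
  | leaf a => unfold enc; split_ifs with h <;> ext x <;> simp <;> grind
  | node l r ihl ihr => rw [enc_node]; ext x; simp [ihl, ihr, or_and_right]

theorem lv_enc_subset (m t : Tr.{u}) : (enc m t).lv ⊆ t.lv := by
  rw [lv_enc]; exact fun _ h => h.1

theorem lv_dec (m t : Tr.{u}) : (dec m t).lv ⊆ m.lv ∪ t.lv := by
  fun_induction dec m t with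
  | case1 => simp
  | case2 => simp
  | case3 l r x ihl ihr =>
    intro a ha
    rcases ha with ha | ha
    · exact (ihl ha).elim Or.inl fun h => Or.inr (Or.inl (Or.inl h))
    · exact (ihr ha).elim Or.inl fun h => Or.inr (Or.inl (Or.inr h))
  | case4 => simp
  | case5 => simp

theorem In.enc {b : Ordinal.{u}} {t} (h : In (b + 1) t) : In b (enc (leaf b) t) := by
  intro a ha
  rw [lv_enc] at ha
  exact lt_of_le_of_ne (Order.lt_add_one_iff.1 (h a ha.1)) fun e => ha.2 (by rw [e])

theorem In.dec {b : Ordinal.{u}} {m t} (hm : In b m) (h : In b t) : In b (dec m t) :=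
  fun a ha => (lv_dec m t ha).elim (hm a) (h a)

theorem map_dec (f : Ordinal.{u} → Ordinal.{u}) (m t : Tr.{u}) :
    map f (dec m t) = dec (map f m) (map f t) := by
  fun_induction dec m t <;> simp [dec, *]

theorem mem_lv {t s : Tr.{u}} (h : Mem t s) : t.lv ⊆ s.lv := by
  induction s with
  | node l r _ ihr =>
    rcases h with rfl | h
    · simp
    · exact (ihr h).trans (by simp)
  | _ => exact h.elim

theorem exists_list {S : Set Tr.{u}} (hS : S.Finite) :
    ∃ s : Tr.{u}, (∀ t, Mem t s ↔ t ∈ S) ∧ ∀ a ∈ s.lv, ∃ t ∈ S, a ∈ t.lv := by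
  induction S, hS using Set.Finite.induction_on with
  | empty => exact ⟨nil, by simp [Mem], by simp⟩
  | @insert x S _ _ ih =>
    obtain ⟨s, h1, h2⟩ := ih
    refine ⟨node x s, fun t => by simp [Mem, h1], fun a ha => ?_⟩
    rcases ha with ha | ha
    · exact ⟨x, by simp, ha⟩
    · obtain ⟨t, ht, h⟩ := h2 a ha
      exact ⟨t, Or.inr ht, h⟩

end Tr

end Pool.Agent.KM
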