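import Pool.Agent.Lib.MP_5c0be7_lc.O.Nat

/-!
Project KM: unfolding of the evaluation, locality, and the calculus of codes. Nothing is assumed
about the sequence `E`.
-/

namespace Pool.Agent.KM

open Ordinal Tr
open scoped Classical

universe u

section Congr

variable {L L' : Tab.{u}} {b : Ordinal.{u}}

theorem nmL_congr' {t : Tr.{u}} (h : ∀ a < b, L a = L' a) (ht : In b t) : NmL L t = NmL L' t := by
  funext q
  refine propext (exists_congr fun a => and_congr_right fun ha => ?_)
  rw [h a (by simpa [ha] using ht.fst)]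

theorem namesL_congr (h : ∀ a < b, L a = L' a) : NamesL L b = NamesL L' b := by
  funext k A t
  refine propext (and_congr_right fun ht => ?_)
  rw [nmL_congr' h ht]

theorem thL_congr (h : L b = L' b) : ThL L b = ThL L' b := by
  funext x q; simp only [ThL, h]

variable (h : ∀ a ≤ b, L a = L' a)
include h

theorem rhoL_congr : rhoL L b = rhoL L' b := by
  simp only [rhoL, namesL_congr fun a ha => h a ha.le, thL_congr (h b le_rfl)]

theorem nmL_congr : nmL L b = nmL L' b := by
  funext k x
  simp only [nmL, namesL_congr fun a ha => h a ha.le, thL_congr (h b le_rfl)]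

theorem solidL_congr : SolidL L b = SolidL L' b := by
  funext p
  induction p with
  | nil => rfl
  | leaf a => rfl
  | node l s _ ih =>
    simp only [SolidL, namesL_congr fun a ha => h a ha.le, thL_congr (h b le_rfl), ih]

theorem genL_congr : GenL L b = GenL L' b := by
  funext k p; simp only [GenL, h b le_rfl]

theorem ssL_congr : SSL L b = SSL L' b := by
  funext p; simp only [SSL, rhoL_congr h, solidL_congr h, genL_congr h]

theorem ppL_congr : ppL L b = ppL L' b := by simp only [ppL, ssL_congr h]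

theorem witL_congr : witL L b = witL L' b := by
  funext p
  induction p with
  | nil => rfl
  | leaf a => rfl
  | node l s _ ih => simp only [witL, nmL_congr h, ih]

theorem parL_congr : parL L b = parL L' b := by simp only [parL, ppL_congr h, witL_congr h]

theorem dnL_congr : dnL L b = dnL L' b := by funext x; simp only [dnL, parL_congr h]

theorem bodL_congr : bodL L b = bodL L' b := by
  funext P x y; simp only [bodL, dnL_congr h, thL_congr (h b le_rfl)]

theorem srchL_congr : srchL L b = srchL L' b := by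
  funext P x; simp only [srchL, bodL_congr h, rhoL_congr h]

theorem sevL_congr : sevL L b = sevL L' b := by
  funext P x; simp only [sevL, bodL_congr h, srchL_congr h, dnL_congr h, h b le_rfl]

end Congr

theorem call_congr {L L' : Tab.{u}} {b : Ordinal.{u}} (h : ∀ a < b, L a = L' a) :
    call L b = call L' b := by
  funext x
  unfold call
  split_ifs with h1
  · rw [h _ h1.2]
  · rfl

theorem lev_congr {L L' : Tab.{u}} {b : Ordinal.{u}} (h : ∀ a < b, L a = L' a)
    (R : Tr.{u} → Prop) (c : Cd) : lev L b R c = lev L' b R c := by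
  funext x
  induction c generalizing x <;> simp only [lev, call_congr h, *]

theorem brun_congr {L L' : Tab.{u}} {b : Ordinal.{u}} (h : ∀ a < b, L a = L' a)
    (R : Tr.{u} → Prop) (P : BP) : brun L b R P = brun L' b R P := by
  funext x
  induction P generalizing x <;> simp only [brun, call_congr h, *]

theorem suc_succ (b : Ordinal.{u}) : Suc (b + 1) := ⟨b, rfl⟩

theorem suc_choose {b : Ordinal.{u}} (h : Suc (b + 1)) : h.choose = b :=
  (Order.succ_injective (h.choose_spec : Order.succ b = Order.succ h.choose)).symm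

theorem not_suc_iff {b : Ordinal.{u}} : ¬ Suc b ↔ ∀ a < b, a + 1 < b :=
  ⟨fun h a ha => lt_of_le_of_ne (Order.add_one_le_iff.2 ha) fun e => h ⟨a, e.symm⟩,
    fun h ⟨a, e⟩ => lt_irrefl _ (e ▸ h a (e ▸ lt_add_one a))⟩

theorem not_suc_of_limit {b : Ordinal.{u}} (h : Order.IsSuccLimit b) : ¬ Suc b :=
  not_suc_iff.2 fun _ ha => h.add_one_lt ha

theorem not_suc_zero : ¬ Suc (0 : Ordinal.{u}) := not_suc_iff.2 fun a ha => by simp at ha

theorem limit_of_not_suc {b : Ordinal.{u}} (h : ¬ Suc b) (h0 : b ≠ 0) : Order.IsSuccLimit b := by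
  rcases zero_or_succ_or_isSuccLimit b with h1 | ⟨a, h1⟩ | h1
  · exact absurd h1 h0
  · exact absurd ⟨a, h1.symm⟩ h
  · exact h1

theorem step_congr (E : Seq.{u}) {L L' : Tab.{u}} {b : Ordinal.{u}} (h : ∀ a < b, L a = L' a) :
    step E b L = step E b L' := by
  funext c x
  unfold step
  split_ifs with h1 h2
  · obtain ⟨a, rfl⟩ := id h2
    rw [suc_choose, sevL_congr fun a' ha' => h a' (Order.lt_add_one_iff.2 ha')]
  · rw [lev_congr h]
  · rfl

variable (E : Seq.{u})

theorem ev_eq (b : Ordinal.{u}) : ev E b = step E b (ev E) := by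
  conv_lhs => unfold ev
  rw [WellFounded.fix_eq]
  exact step_congr E fun a ha => by simp only [dif_pos ha]; rfl

/-- Reading of a body at level `b + 1`. -/
noncomputable abbrev sev := sevL (ev E)

variable {E}

theorem ev_guard {b : Ordinal.{u}} {x : Tr.{u}} (h : ¬ In b x) (c : Tr.{u}) :
    ev E b c x = none := by rw [ev_eq, step, if_neg h]

theorem in_of_ev {b : Ordinal.{u}} {c x : Tr.{u}} (h : (ev E b c x).isSome) : In b x := by
  by_contra hc
  simp [ev_guard hc] at h

theorem in_of_ev_eq {b : Ordinal.{u}} {c x v : Tr.{u}} (h : ev E b c x = some v) : In b x :=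
  in_of_ev (E := E) (c := c) (by simp [h])

theorem ev_succ {b : Ordinal.{u}} {x : Tr.{u}} (h : In (b + 1) x) (c : Tr.{u}) :
    ev E (b + 1) c x = sev E b (body c) x := by
  rw [ev_eq, step, if_pos h, dif_pos (suc_succ b), suc_choose]

theorem ev_lim {b : Ordinal.{u}} (hb : ¬ Suc b) {x : Tr.{u}} (h : In b x) (c : Tr.{u}) :
    ev E b c x = lev (ev E) b (ora E b) (decC c) x := by
  rw [ev_eq, step, if_pos h, dif_neg hb]

theorem ev_code_congr {c c' : Tr.{u}} (h : decC c = decC c') (b : Ordinal.{u}) :
    ev E b c = ev E b c' := by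
  funext x
  rw [ev_eq]
  simp only [step, body, h]

@[simp] theorem ev_erase (b : Ordinal.{u}) (c : Tr.{u}) : ev E b c.erase = ev E b c :=
  ev_code_congr (by simp) b

@[simp] theorem ev_map_code (f : Ordinal.{u} → Ordinal.{u}) (b : Ordinal.{u}) (c : Tr.{u}) :
    ev E b (c.map f) = ev E b c := ev_code_congr (by simp) b

@[simp] theorem ev_decC_code (b : Ordinal.{u}) (c : Tr.{u}) :
    ev E b (decC c).code = ev E b c := ev_code_congr (by simp) b

/-- Level `b` depends only on the extenders with index at most `b`. -/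
theorem ev_local {E E' : Seq.{u}} {b : Ordinal.{u}} (h : ∀ v ≤ b, ¬ Suc v → E v = E' v) :
    ev E b = ev E' b := by
  induction b using WellFoundedLT.induction with
  | ind b ih =>
    rw [ev_eq, ev_eq, step_congr E fun a ha => ih a ha fun v hv => h v (hv.trans ha.le)]
    funext c x
    unfold step
    split_ifs with h1 h2
    · rfl
    · have : ora E b = ora E' b := by funext x; simp only [ora, h b le_rfl h2]
      rw [this]
    · rfl

theorem rhoL_le (L : Tab.{u}) (b : Ordinal.{u}) : rhoL L b ≤ b := csInf_le' (Or.inl rfl)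

theorem in_nmL (L : Tab.{u}) (b k : Ordinal.{u}) (x : Tr.{u}) : In b (nmL L b k x) := by
  unfold nmL
  cases h : least (NamesL L b k (ThL L b x)) with
  | none => simp
  | some t => exact (least_eq_some.1 h).1.1

theorem in_ppL (L : Tab.{u}) (b : Ordinal.{u}) : In b (ppL L b) := by
  unfold ppL
  split_ifs with h
  · exact h.choose_spec.1
  · simp

theorem ssL_pp {L : Tab.{u}} {b : Ordinal.{u}} (h : ∃ p, SSL L b p) : SSL L b (ppL L b) := by
  unfold ppL
  rw [dif_pos h]
  exact h.choose_spec

theorem in_witL (L : Tab.{u}) (b : Ordinal.{u}) (p : Tr.{u}) : In b (witL L b p) := by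
  induction p <;> simp [witL, in_nmL, *]

theorem in_parL (L : Tab.{u}) (b : Ordinal.{u}) : In b (parL L b) := by
  simp [parL, in_ppL, in_witL]

theorem in_dnL (L : Tab.{u}) {b : Ordinal.{u}} {x : Tr.{u}} (h : In (b + 1) x) :
    In b (dnL L b x) := by simp [dnL, in_parL, h.enc]

theorem rho_le (E : Seq.{u}) (b : Ordinal.{u}) : rho E b ≤ b := rhoL_le _ b
theorem in_nm (E : Seq.{u}) (b k : Ordinal.{u}) (x : Tr.{u}) : In b (nm E b k x) := in_nmL _ b k x
theorem in_pp (E : Seq.{u}) (b : Ordinal.{u}) : In b (pp E b) := in_ppL _ b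
theorem ss_pp {b : Ordinal.{u}} (h : ∃ p, SS E b p) : SS E b (pp E b) := ssL_pp h
theorem in_par (E : Seq.{u}) (b : Ordinal.{u}) : In b (par E b) := in_parL _ b
theorem in_dn (E : Seq.{u}) {b : Ordinal.{u}} {x : Tr.{u}} (h : In (b + 1) x) :
    In b (dn E b x) := in_dnL _ h
theorem dn_eq (E : Seq.{u}) (b : Ordinal.{u}) (x : Tr.{u}) :
    dn E b x = node (Tr.enc (leaf b) x) (par E b) := rfl
@[simp] theorem par_fst (E : Seq.{u}) (b : Ordinal.{u}) : (par E b).fst = pp E b := rfl
theorem bod_eq (E : Seq.{u}) (b : Ordinal.{u}) (P : Bd) (x y : Tr.{u}) :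
    bod E b P x y = drun P (Th E b (dn E b x)) y := rfl

theorem in_call {L : Tab.{u}} {g k : Ordinal.{u}} {x : Tr.{u}}
    (hL : ∀ a < g, ∀ c z v, L a c z = some v → In a v) (hx : In k x) : In k (call L g x) := by
  unfold call
  split_ifs with h
  · refine In.opt fun v hv => (hL _ h.2 _ _ _ hv).mono (le_of_lt ?_)
    have := hx.fst
    rwa [h.1, in_leaf] at this
  · simp

theorem in_unopt {k : Ordinal.{u}} {x v : Tr.{u}} (hx : In k x) (h : x.unopt = some v) :
    In k v := by
  cases x <;> simp_all

theorem in_lev {L : Tab.{u}} {g k : Ordinal.{u}} {R : Tr.{u} → Prop}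
    (hL : ∀ a < g, ∀ c z v, L a c z = some v → In a v) (c : Cd) {x v : Tr.{u}} (hx : In k x)
    (h : lev L g R c x = some v) : In k v := by
  induction c generalizing x v with
  | op a => exact Option.some.inj h ▸ hx.bop a
  | cmp s c1 c2 ih1 ih2 =>
    obtain ⟨w, h1, h2⟩ := Option.bind_eq_some_iff.1 h
    exact ih1 (In.bop (by simp [hx, ih2 hx h1]) s) h2
  | unopt => exact in_unopt hx h
  | ev => exact Option.some.inj h ▸ in_call hL hx
  | ext => exact Option.some.inj h ▸ in_tv _ _
  | atom Q => simp [lev] at h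

/-- Values at level `b` have labels below `b`. -/
theorem ev_in {b : Ordinal.{u}} {c x v : Tr.{u}} (h : ev E b c x = some v) : In b v := by
  induction b using WellFoundedLT.induction generalizing c x v with
  | ind b ih =>
    have hx := in_of_ev_eq h
    by_cases hb : Suc b
    · obtain ⟨a, rfl⟩ := hb
      rw [ev_succ hx] at h
      obtain ⟨y, _, h2⟩ := Option.bind_eq_some_iff.1 h
      obtain ⟨w, h3, rfl⟩ := Option.map_eq_some_iff.1 h2
      exact In.dec (by simp) ((ih a (lt_add_one a) h3).mono le_self_add)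
    · rw [ev_lim hb hx] at h
      exact in_lev (fun a ha _ _ _ => ih a ha) _ hx h

/-- At a level that is not a successor, values are bounded by the input. -/
theorem ev_lim_in {b k : Ordinal.{u}} (hb : ¬ Suc b) {c x v : Tr.{u}} (hx : In k x)
    (h : ev E b c x = some v) : In k v := by
  rw [ev_lim hb (in_of_ev_eq h)] at h
  exact in_lev (fun _ _ _ _ _ => ev_in) _ hx h

theorem Tr.In.call {g k : Ordinal.{u}} {x : Tr.{u}} (hx : In k x) : In k (call (ev E) g x) :=
  in_call (fun _ _ _ _ _ => ev_in) hx

theorem call_leaf {L : Tab.{u}} {g a : Ordinal.{u}} (h : a < g) (z : Tr.{u}) :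
    call L g (node (leaf a) z) = opt (L a z.fst z.snd) := by simp [call, h]

/-- The call of a lower level does not depend on the calling level. -/
theorem call_mono {L : Tab.{u}} {g g' : Ordinal.{u}} {x : Tr.{u}} (h : In g x.fst)
    (h' : In g' x.fst) : call L g x = call L g' x := by
  unfold call
  by_cases h1 : x.fst = leaf x.fst.lab
  · rw [h1, in_leaf] at h h'
    rw [if_pos ⟨h1, h⟩, if_pos ⟨h1, h'⟩]
  · rw [if_neg fun h2 => h1 h2.1, if_neg fun h2 => h1 h2.1]

theorem nm_iff_call {g : Ordinal.{u}} {t : Tr.{u}} (h : In g t.fst) (q : Tr.{u}) :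
    Nm E t q ↔ call (ev E) g (node t.fst (node t.snd.fst (node q t.snd.snd))) ≠ .nil := by
  cases hf : t.fst with
  | leaf a =>
    rw [hf, in_leaf] at h
    simp [NmL, hf, call_leaf h, Option.isSome_iff_ne_none]
  | _ => simp [NmL, hf, call]

/-! The search. -/

section Search

variable {b : Ordinal.{u}} {P : Bd} {x : Tr.{u}}

theorem sev_none (h : ∀ y, In (rho E b) y → bod E b P x y = .nil) : sev E b P x = none := by
  rw [sev, sevL, srchL, least_eq_none.2 fun y hy => hy.2 (h y hy.1)]
  rfl

theorem sev_least {y : Tr.{u}} (h0 : In (rho E b) y)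
    (h : IsLeast (fun t => bod E b P x t ≠ .nil) y) : sev E b P x =
    (ev E b (bod E b P x y).fst (node (bod E b P x y).snd (dn E b x))).map (Tr.dec (leaf b)) := by
  rw [sev, sevL, srchL, least_eq_some.2 (isLeast_in.2 ⟨h0, h⟩)]
  rfl

theorem sev_pass {v : Tr.{u}} (h0 : ∃ y, In (rho E b) y ∧ bod E b P x y ≠ .nil)
    (hu : ∀ y, In (rho E b) y → bod E b P x y ≠ .nil → bod E b P x y = v) :
    sev E b P x = (ev E b v.fst (node v.snd (dn E b x))).map (Tr.dec (leaf b)) := by
  obtain ⟨y, hy⟩ := exists_isLeast h0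
  rw [sev_least hy.1.1 (isLeast_in.1 hy).2, hu y hy.1.1 hy.1.2]

theorem sev_cst {d : Tr.{u}} (hd : d.lv = ∅) :
    sev E b (.cst d) x = (ev E b d (node .nil (dn E b x))).map (Tr.dec (leaf b)) :=
  sev_pass (v := node d .nil) ⟨.nil, by simp, by simp [bodL, hd]⟩ fun y _ _ => by simp [bodL, hd]

end Search

/-! Substitution of the mark. -/

theorem dec_enc_node (m m' l r : Tr.{u}) : Tr.dec m' (Tr.enc m (node l r)) =
    node (Tr.dec m' (Tr.enc m l)) (Tr.dec m' (Tr.enc m r)) := rfl

theorem dec_enc_leaf (m m' : Tr.{u}) (a : Ordinal.{u}) :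
    Tr.dec m' (Tr.enc m (leaf a)) = if leaf a = m then m' else leaf a := by
  unfold Tr.enc; split_ifs <;> rfl

theorem dec_enc_fst {m' : Tr.{u}} (h : m'.fst = .nil) (m x : Tr.{u}) :
    (Tr.dec m' (Tr.enc m x)).fst = Tr.dec m' (Tr.enc m x.fst) := by
  cases x with
  | leaf a => rw [dec_enc_leaf]; split_ifs <;> simp [h]
  | _ => rfl

theorem dec_enc_snd {m' : Tr.{u}} (h : m'.snd = .nil) (m x : Tr.{u}) :
    (Tr.dec m' (Tr.enc m x)).snd = Tr.dec m' (Tr.enc m x.snd) := by
  cases x with
  | leaf a => rw [dec_enc_leaf]; split_ifs <;> simp [h]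
  | _ => rfl

theorem erase_dec_enc (m x : Tr.{u}) : (Tr.dec .nil (Tr.enc m x)).erase = x.erase := by
  induction x with
  | nil => rfl
  | leaf a => rw [dec_enc_leaf]; split_ifs <;> rfl
  | node l r ihl ihr => simp [dec_enc_node, ihl, ihr]

theorem dec_enc_eq_iff {b : Ordinal.{u}} {z : Tr.{u}} :
    Tr.dec .nil (Tr.enc (leaf b) z) = Tr.dec Tr.one (Tr.enc (leaf b) z) ↔ b ∉ z.lv := by
  induction z with
  | nil => simp
  | leaf a =>
    simp only [dec_enc_leaf]
    split_ifs with h
    · simp [Tr.one, leaf.inj h]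
    · simpa [eq_comm] using h
  | node l r ihl ihr => simp [dec_enc_node, ihl, ihr]

theorem dec_enc_of_notMem {b : Ordinal.{u}} {z : Tr.{u}} (h : b ∉ z.lv) (m : Tr.{u}) :
    Tr.dec m (Tr.enc (leaf b) z) = z :=
  dec_enc_of fun _ ha e => absurd (leaf.inj e ▸ ha) h

theorem dec_enc_map (a b : Ordinal.{u}) (z : Tr.{u}) :
    Tr.dec (leaf a) (Tr.enc (leaf b) z) = z.map fun i => if i = b then a else i := by
  induction z with
  | nil => rfl
  | leaf i => simp only [dec_enc_leaf, map_leaf, leaf.injEq]; split_ifs <;> rfl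
  | node l r ihl ihr => simp [dec_enc_node, ihl, ihr]

theorem enc_eq_one {b : Ordinal.{u}} {z : Tr.{u}} : Tr.enc (leaf b) z = Tr.one ↔ z = leaf b := by
  cases z with
  | nil => simp [Tr.one]
  | leaf a => unfold Tr.enc; split_ifs with h <;> simp_all [Tr.one]
  | node l r => simp [enc_node, Tr.one]

theorem enc_ff_eq_one {b : Ordinal.{u}} {x : Tr.{u}} :
    (Tr.enc (leaf b) x).fst.fst = Tr.one ↔ x.fst = leaf b := by
  cases x with
  | nil => simp [Tr.one]
  | leaf a => unfold Tr.enc; split_ifs <;> simp [Tr.one]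
  | node l r => simp [enc_node, enc_eq_one]

theorem in_iff_notMem {b : Ordinal.{u}} {z : Tr.{u}} (h : In (b + 1) z) : In b z ↔ b ∉ z.lv :=
  ⟨fun h1 h2 => lt_irrefl _ (h1 b h2), fun h1 a ha =>
    lt_of_le_of_ne (Order.lt_add_one_iff.1 (h a ha)) fun e => h1 (e ▸ ha)⟩

theorem call_low {b : Ordinal.{u}} {x : Tr.{u}} (hx : In (b + 1) x) (h : x.fst ≠ leaf b) :
    call (ev E) b (Tr.dec (Tr.enc (leaf b) x).fst.fst (Tr.enc (leaf b) x)) =
      call (ev E) (b + 1) x := by
  match x with
  | .nil => simp [call]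
  | leaf a => rw [dec_enc_leaf]; unfold Tr.enc; split_ifs <;> simp [call, Tr.one]
  | node .nil r => simp [call, dec_enc_node]
  | node (node l l') r => simp [call, dec_enc_node]
  | node (leaf a) r =>
    have ha : a ≠ b := fun e => h (by simp [e])
    have ha1 : a < b + 1 := by simpa using hx.fst
    have ha2 : a < b := lt_of_le_of_ne (Order.lt_add_one_iff.1 ha1) ha
    have he : (Tr.enc (leaf b) (node (leaf a) r)).fst.fst = leaf a := by
      simp [Tr.enc, ha]
    rw [he, dec_enc_map, map_node, map_leaf, if_neg ha, call_leaf ha2, call_leaf ha1, map_fst,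
      map_snd, ev_map_code]
    by_cases hz : In a r.snd
    · rw [map_eq_self fun i hi => if_neg ((hz i hi).trans ha2).ne]
    · rw [ev_guard hz, ev_guard]
      simp only [In, not_forall, not_lt, lv_map, Set.forall_mem_image] at hz ⊢
      obtain ⟨i, hi, h1⟩ := hz
      refine ⟨i, hi, ?_⟩
      split_ifs
      · exact le_rfl
      · exact h1

/-- The laws of the codes at one level. -/
structure Law (E : Seq.{u}) (b : Ordinal.{u}) : Prop where
  opc : ∀ a x, In b x → ev E b (opc a) x = some (bop a x)
  cmp : ∀ s c1 c2 x, ev E b (cmp s c1 c2) x =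
    (ev E b c2 x).bind fun w => ev E b c1 (bop s (node w x))
  unopt : ∀ x, In b x → ev E b unoptc x = x.unopt
  evc : ∀ x, In b x → ev E b evc x = some (call (ev E) b x)
  extc : ∀ x, In b x → ev E b extc x = some (tv (ora E b x))

namespace Law

variable {b : Ordinal.{u}} (H : Law E b)
include H

theorem pre (s : Op) (c : Tr.{u}) {x : Tr.{u}} (hx : In b x) :
    ev E b (KM.cmp s c (KM.opc .nil)) x = ev E b c (bop s (node .nil x)) := by
  rw [H.cmp, H.opc _ _ hx]; rfl

theorem post (s : Op) (c x : Tr.{u}) :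
    ev E b (KM.cmp s (KM.opc .id) c) x = (ev E b c x).map fun w => bop s (node w x) := by
  rw [H.cmp]
  cases h : ev E b c x with
  | none => rfl
  | some w => exact H.opc _ _ (In.bop (by simp [ev_in h, in_of_ev_eq h]) s)

theorem tst (a : Op) {x : Tr.{u}} (hx : In b x) :
    ev E b (tst a) x = if bop a x = .nil then some .nil else none := by
  rw [KM.tst, H.pre _ _ hx, H.unopt _ (In.bop (by simpa using hx) _)]
  simp only [bop_ite, bop_comp, bop_snd, snd_node, bop_tone, bop_nil]
  split_ifs <;> rfl

theorem chg (s : Op) {x : Tr.{u}} (hx : In (b + 1) x) (q v : Tr.{u}) :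
    ev E b (bop (Op.chg.{u} s) (node q v)).fst
      (node (bop (Op.chg.{u} s) (node q v)).snd (dn E b x)) =
    (ev E b v.fst (node v.snd (dn E b x))).bind fun r =>
      ev E b q.fst (node q.snd (dn E b (bop s (node (Tr.dec (leaf b) r) x)))) := by
  simp only [Op.chg, bop_pair, bop_mkc, fst_node, snd_node, bop_ff, bop_fs, bop_sf, bop_ss,
    bop_const (lv_opc _)]
  rw [H.cmp]
  by_cases hi : In b (node (node q.snd v.snd) (dn E b x))
  · rw [H.pre _ _ hi]
    simp only [bop_pair, bop_comp, bop_sf, bop_ss, bop_snd, fst_node, snd_node]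
    cases h : ev E b v.fst (node v.snd (dn E b x)) with
    | none => rfl
    | some r =>
      have h1 : In b (node (node r (Tr.enc (leaf b) x)) .nil) := by simp [ev_in h, hx.enc]
      simp only [Option.bind_some, bop_ff, bop_fs, bop_fst, bop_nil, fst_node, snd_node, dnL]
      rw [lift_spec s h1]
      simp [Tr.dec]
  · rw [ev_guard hi]
    cases h : ev E b v.fst (node v.snd (dn E b x)) with
    | none => rfl
    | some r =>
      have h1 := in_of_ev_eq h
      refine (ev_guard (fun h2 => hi ?_) _).symm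
      simp only [in_node] at h1 h2 ⊢
      exact ⟨⟨h2.1, h1.1⟩, h1.2⟩

theorem succ_cmp (s : Op) (P1 P2 : Bd) {x : Tr.{u}} (hx : In (b + 1) x) :
    sev E b (cmpBody.{u} s P1 P2) x =
      (sev E b P2 x).bind fun w => sev E b P1 (bop s (node w x)) := by
  have hb : ∀ y, bod E b (cmpBody.{u} s P1 P2) x y =
      if bod E b P2.lc x y.fst = .nil then .nil else
      if drun P1.lc (fun q => Th E b (dn E b x) (bop (Op.chg.{u} s)
        (node q (bod E b P2.lc x y.fst)))) y.snd = .nil then .nil else
      bop (Op.chg.{u} s) (node (drun P1.lc (fun q => Th E b (dn E b x) (bop (Op.chg.{u} s)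
        (node q (bod E b P2.lc x y.fst)))) y.snd) (bod E b P2.lc x y.fst)) := fun y => by
    simp [bodL, cmpBody]
  by_cases h2 : ∃ y, In (rho E b) y ∧ bod E b P2 x y ≠ .nil
  swap
  · rw [sev_none (P := P2) fun y hy => by_contra fun h => h2 ⟨y, hy, h⟩]
    refine sev_none fun y hy => ?_
    rw [hb, if_pos]
    by_contra h
    exact h2 ⟨y.fst, hy.fst, (drun_lc_ne.1 h).1⟩
  obtain ⟨y2, hy2⟩ := exists_isLeast h2
  obtain ⟨hy2, hl2⟩ := isLeast_in.1 hy2
  have hv2 : bod E b P2.lc x y2 ≠ .nil := drun_lc_ne.2 hl2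
  have hu2 : ∀ y, bod E b P2.lc x y ≠ .nil → bod E b P2.lc x y = bod E b P2 x y2 := fun y h => by
    have := (drun_lc_ne.1 h).unique hl2
    subst this
    exact drun_lc_eq h
  rw [sev_least hy2 hl2]
  cases hr : ev E b (bod E b P2 x y2).fst (node (bod E b P2 x y2).snd (dn E b x)) with
  | none =>
    show _ = none
    rw [sev, sevL]
    cases hs : srchL (ev E) b (cmpBody.{u} s P1 P2) x with
    | none => rfl
    | some y =>
      have h3 := (least_eq_some.1 hs).1.2
      rw [Option.bind_some]
      change bod E b _ x y ≠ .nil at h3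
      change (ev E b (bod E b _ x y).fst (node (bod E b _ x y).snd (dn E b x))).map _ = none
      rw [hb] at h3 ⊢
      split_ifs at h3 ⊢ with h4 h5
      · exact absurd rfl h3
      · exact absurd rfl h3
      · rw [H.chg s hx, hu2 _ h4, hr]; rfl
  | some r =>
    simp only [Option.map_some, Option.bind_some]
    have hR : (fun q => Th E b (dn E b x) (bop (Op.chg.{u} s) (node q (bod E b P2 x y2)))) =
        Th E b (dn E b (bop s (node (Tr.dec (leaf b) r) x))) := by
      funext q
      simp only [ThL]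
      rw [H.chg s hx, hr]; rfl
    by_cases h1 : ∃ y, In (rho E b) y ∧ bod E b P1 (bop s (node (Tr.dec (leaf b) r) x)) y ≠ .nil
    swap
    · rw [sev_none (P := P1) fun y hy => by_contra fun h => h1 ⟨y, hy, h⟩]
      refine sev_none fun y hy => ?_
      rw [hb]
      split_ifs with h4 h5
      · rfl
      · rfl
      · rw [hu2 _ h4, hR] at h5
        exact absurd ⟨y.snd, hy.snd, (drun_lc_ne.1 h5).1⟩ h1
    obtain ⟨y1, hy1⟩ := exists_isLeast h1
    obtain ⟨hy1, hl1⟩ := isLeast_in.1 hy1
    rw [sev_least hy1 hl1, sev_pass (v := bop (Op.chg.{u} s)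
      (node (bod E b P1 (bop s (node (Tr.dec (leaf b) r) x)) y1) (bod E b P2 x y2))),
      H.chg s hx, hr]
    · rfl
    · refine ⟨node y2 y1, by simp [hy1, hy2], ?_⟩
      rw [hb, fst_node, snd_node, if_neg hv2, hu2 _ hv2, hR, if_neg (drun_lc_ne.2 hl1)]
      simp [Op.chg]
    · intro y _ h3
      rw [hb] at h3 ⊢
      split_ifs at h3 ⊢ with h4 h5
      · exact absurd rfl h3
      · exact absurd rfl h3
      · rw [hu2 _ h4, hR] at h5 ⊢
        have := (drun_lc_ne.1 h5).unique hl1
        rw [drun_lc_eq h5, this]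
        rfl

theorem runc {x : Tr.{u}} (hx : In (b + 1) x) (a : Op) (t : Tr.{u}) :
    ev E b (bop (Op.runc.{u} a) t) (node .nil (dn E b x)) = ev E b (bop a t) x.snd.snd := by
  have hi : In b (node .nil (dn E b x)) := by simpa using in_dn E hx
  simp only [Op.runc, bop_mkc, bop_const (lv_tst _)]
  rw [H.cmp, H.tst _ hi]
  simp only [Op.arg, bop_comp, bop_pair, bop_eq, bop_snd, bop_dec, bop_nil, bop_tone, bop_fs,
    fst_node, snd_node, dnL, tv_eq_nil, dec_enc_snd (m' := .nil) rfl,
    dec_enc_snd (m' := Tr.one) rfl, dec_enc_eq_iff]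
  split_ifs with h
  · rw [ev_guard (mt (in_iff_notMem hx.snd.snd).1 (not_not.2 h))]; rfl
  · simp [dec_enc_of_notMem h]

theorem succ_ev {x : Tr.{u}} (hx : In (b + 1) x) :
    sev E b evBody.{u} x = some (call (ev E) (b + 1) x) := by
  have hd := in_dn E hx
  have hi : In b (node .nil (dn E b x)) := by simpa using hd
  have hT : ∀ (a : Op) (y : Tr.{u}), In b y →
      (Th E b (dn E b x) (node (KM.tst a) y) ↔ bop a (node y (dn E b x)) = .nil) := by
    intro a y hy
    simp only [ThL, fst_node, snd_node]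
    rw [H.tst _ (by simp [hy, hd])]
    split_ifs with h <;> simp [h]
  have hb : ∀ y, In b y → bod E b evBody.{u} x y =
      if x.fst = leaf b then
        if y = x.snd.fst.erase then
          if (ev E b y x.snd.snd).isSome then
            node (KM.cmp (.comp .enc (.pair .nil (.pair .nil .fst))) (KM.opc .id)
              (bop (Op.runc.{u} .id) y)) .nil
          else node (KM.opc .nil) .nil
        else .nil
      else node lowc .nil := fun y hy => by
    have h3 : Th E b (dn E b x) (node (bop (Op.runc.{u} .id) y) .nil) ↔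
        (ev E b y x.snd.snd).isSome := by
      simp only [ThL, fst_node, snd_node]
      rw [H.runc hx]; rfl
    have h4 : ∀ w, bop (Op.runc.{u} .snd) (node w y) = bop (Op.runc.{u} .id) y := by
      simp [Op.runc]
    simp only [bodL, evBody, drun_post, drun_pair, drun_pre, drun_orc, bop_pair, bop_ite, bop_ff,
      bop_comp, bop_sf, bop_fst, bop_snd, bop_nil, bop_id, fst_node, snd_node, tv_eq_nil,
      bop_const (lv_tst _), bop_const (lv_opc _), bop_const lv_lowc, bop_mkc, h3, h4,
      hT _ _ hy, hT _ _ (in_nil b)]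
    simp [dnL, Op.arg, enc_ff_eq_one, dec_enc_snd (m' := .nil) rfl, dec_enc_fst (m' := .nil) rfl,
      erase_dec_enc]
  have hr := rho_le E b
  by_cases h1 : x.fst = leaf b
  · have hc : call (ev E) (b + 1) x = opt (ev E b x.snd.fst x.snd.snd) := by
      simp [call, h1]
    rw [sev_pass (v := bod E b evBody.{u} x x.snd.fst.erase), hb _ (by simp), if_pos h1,
      if_pos rfl, hc, ev_erase]
    · cases h2 : ev E b x.snd.fst x.snd.snd with
      | none => simp [H.opc _ _ hi]
      | some w => simp [H.post, H.runc hx, h2]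
    · refine ⟨x.snd.fst.erase, by simp, ?_⟩
      rw [hb _ (by simp), if_pos h1, if_pos rfl]
      split_ifs <;> simp
    · intro y hy h3
      rw [hb _ (hy.mono hr), if_pos h1] at h3
      split_ifs at h3 with h4
      · rw [h4]
      · rw [h4]
      · exact absurd rfl h3
  · rw [sev_pass (v := node lowc .nil)]
    · rw [fst_node, snd_node, lowc, H.post, H.pre _ _ hi, H.evc _ (In.bop (by simpa using hd) _)]
      simp [dnL, call_low hx h1]
    · exact ⟨.nil, by simp, by simp [hb _ (in_nil b), h1]⟩
    · intro y hy _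
      rw [hb _ (hy.mono hr), if_neg h1]

theorem succ : Law E (b + 1) := by
  refine ⟨fun a x hx => ?_, fun s c1 c2 x => ?_, fun x hx => ?_, fun x hx => ?_, fun x hx => ?_⟩
  · rw [ev_succ hx, body, decC_opc, Cd.body, sev_cst (by simp),
      H.opc _ _ (by simpa using in_dn E hx)]
    simp [dnL, lift_spec a hx.enc]
  · by_cases hx : In (b + 1) x
    · rw [ev_succ hx, body, decC_cmp, Cd.body, H.succ_cmp _ _ _ hx, ev_succ hx]
      cases h : sev E b (body c2) x with
      | none => simp only [body] at h; rw [h]; rfl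
      | some w =>
        have hw : In (b + 1) w := ev_in ((ev_succ hx c2).trans h)
        simp only [body] at h
        rw [h, Option.bind_some, Option.bind_some, ev_succ (In.bop (by simp [hw, hx]) s)]
        rfl
    · rw [ev_guard hx, ev_guard hx]; rfl
  · have hi : In b (node .nil (dn E b x)) := by simpa using in_dn E hx
    rw [ev_succ hx, body, decC_unoptc, Cd.body, sev_cst (by simp), H.pre _ _ hi,
      H.unopt _ (In.bop (by simpa using hi) _)]
    cases x with
    | nil => simp [dnL]
    | leaf a => simp only [dnL, Tr.enc]; split_ifs <;> simp [Tr.one]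
    | node l r => simp [dnL, enc_node]
  · rw [ev_succ hx, body, decC_evc, Cd.body, H.succ_ev hx]
  · rw [ev_succ hx, body, decC_extc, Cd.body, sev_cst (by simp),
      H.opc _ _ (by simpa using in_dn E hx), tv_neg fun h => h.1 (suc_succ b)]
    rfl

end Law

theorem law (E : Seq.{u}) (b : Ordinal.{u}) : Law E b := by
  induction b using WellFoundedLT.induction with
  | ind b ih =>
    by_cases hb : Suc b
    · obtain ⟨a, rfl⟩ := hb
      exact (ih a (lt_add_one a)).succ
    · refine ⟨fun a x hx => ?_, fun s c1 c2 x => ?_, fun x hx => ?_, fun x hx => ?_,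
        fun x hx => ?_⟩
      · rw [ev_lim hb hx, decC_opc, lev]
      · by_cases hx : In b x
        · rw [ev_lim hb hx, decC_cmp, lev, ← ev_lim hb hx]
          cases h : ev E b c2 x with
          | none => rfl
          | some w => exact (ev_lim hb (In.bop (by simp [ev_in h, hx]) s) c1).symm
        · rw [ev_guard hx, ev_guard hx]; rfl
      · rw [ev_lim hb hx, decC_unoptc, lev]
      · rw [ev_lim hb hx, decC_evc, lev]
      · rw [ev_lim hb hx, decC_extc, lev]

end Pool.Agent.KM
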