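import Pool.Agent.Lib.MP_5c0be7_lc.O.IsOp

/-!
Project KM, fine hierarchy: bodies with a hole, and the search over a whole level.
-/

namespace Pool.Agent.KM

open Ordinal Tr
open scoped Classical

universe u

/-- The meaning of a body. -/
abbrev Sem : Type (u + 1) := (Tr.{u} → Prop) → Tr.{u} → Tr.{u}

/-- `F` is the meaning of a body with a hole; the code depends naturally on the code put in. -/
def Ctx (F : Sem.{u} → Sem.{u}) : Prop :=
  ∃ W : Bd → Bd, (∃ m : Tr.{u} → Tr.{u}, IsOp m ∧ ∀ P : Bd, m P.code = (W P).code) ∧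
    ∀ P R x, drun (W P) R x = F (drun P) R x

namespace Ctx

variable {F G : Sem.{u} → Sem.{u}} {s : Tr.{u} → Tr.{u}}

theorem congr (h : Ctx F) (e : ∀ p R x, F p R x = G p R x) : Ctx G :=
  let ⟨W, h1, h2⟩ := h; ⟨W, h1, fun P R x => (h2 P R x).trans (e _ R x)⟩

theorem hole : Ctx.{u} fun p => p := ⟨fun P => P, ⟨_, IsOp.id, fun _ => rfl⟩, fun _ _ _ => rfl⟩

theorem op (hs : IsOp s) : Ctx fun _ _ x => s x :=
  let ⟨a, ha⟩ := hs
  ⟨fun _ => .op a, ⟨_, IsOp.const (erase_of_lv (Bd.lv_code (.op a))), fun _ => rfl⟩, fun _ _ x => ha x⟩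

theorem orc : Ctx.{u} fun _ R x => tv (R x) :=
  ⟨fun _ => .orc, ⟨_, IsOp.const (erase_of_lv (Bd.lv_code .orc)), fun _ => rfl⟩, fun _ _ _ => rfl⟩

theorem seq (hs : IsOp s) (hF : Ctx F) (hG : Ctx G) :
    Ctx fun p R x => F p R (s (node (G p R x) x)) := by
  obtain ⟨a, ha⟩ := hs
  obtain ⟨W, ⟨m, h1, h2⟩, h3⟩ := hF
  obtain ⟨W', ⟨m', h4, h5⟩, h6⟩ := hG
  exact ⟨fun P => .seq a (W P) (W' P), ⟨_, IsOp.tag3 1 h1 h4 (IsOp.const (erase_of_lv (Op.lv_code a))),
    fun P => by simp [Bd.code, h2, h5]⟩, fun P R x => by simp [drun, h3, h6, ha]⟩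

theorem bex (hF : Ctx F) :
    Ctx fun p R x => tv (∃ t, Lt t x.fst ∧ F p R (node t x.snd) ≠ .nil) := by
  obtain ⟨W, ⟨m, h1, h2⟩, h3⟩ := hF
  exact ⟨fun P => .bex (W P), ⟨_, IsOp.tag3 3 h1 IsOp.nil IsOp.nil,
    fun P => by simp [Bd.code, h2]⟩, fun P R x => by simp [drun, h3]⟩

theorem sub (hs : IsOp s) (hF : Ctx F) :
    Ctx fun p R x => F p (fun q => R (s (node q x.snd))) x.fst := by
  obtain ⟨a, ha⟩ := hs
  obtain ⟨W, ⟨m, h1, h2⟩, h3⟩ := hF
  exact ⟨fun P => .sub a (W P), ⟨_, IsOp.tag3 4 h1 IsOp.nil (IsOp.const (erase_of_lv (Op.lv_code a))),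
    fun P => by simp [Bd.code, h2]⟩, fun P R x => by simp [drun, h3, ha]⟩

theorem pre (hs : IsOp s) (hF : Ctx F) : Ctx fun p R x => F p R (s x) :=
  (seq (hs.comp IsOp.id.snd) hF (op IsOp.nil)).congr fun _ _ _ => rfl

theorem post (hs : IsOp s) (hF : Ctx F) : Ctx fun p R x => s (node (F p R x) x) :=
  seq hs (op IsOp.id) hF

theorem pair (hF : Ctx F) (hG : Ctx G) : Ctx fun p R x => node (F p R x) (G p R x) :=
  (seq IsOp.id ((hF.pre IsOp.id.snd).post (IsOp.id.fst.pair IsOp.id.snd.fst)) hG).congr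
    fun _ _ _ => rfl

theorem ite (hF : Ctx F) (hG : Ctx G) {H} (hH : Ctx H) :
    Ctx fun p R x => if F p R x = .nil then G p R x else H p R x :=
  ((hF.pair (hG.pair hH)).post (IsOp.id.fst.fst.ite_nil IsOp.id.fst.snd.fst
    IsOp.id.fst.snd.snd)).congr fun _ _ _ => rfl

/-- The value, provided no smaller input has a value. -/
theorem lst (hF : Ctx F) : Ctx fun p R y =>
    if ∃ t, Lt t y ∧ F p R t ≠ .nil then .nil else F p R y :=
  ((((hF.pre IsOp.id.fst).bex).pre (IsOp.id.pair IsOp.nil)).ite (op IsOp.nil) hF).congr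
    fun _ _ _ => by simp

/-- The wrapped code, as a natural operation on the code put in. -/
theorem code (hF : Ctx F) : ∃ m : Tr.{u} → Tr.{u}, IsOp m ∧ (∀ c, (m c).erase = m c) ∧
    ∀ c, ∃ Q : Bd, m c = atom Q ∧ ∀ R x, drun Q R x = F (drun (body c)) R x := by
  obtain ⟨W, ⟨m, h1, h2⟩, h3⟩ := hF
  have e : ∀ c : Tr.{u}, tag3 5 (m (bop .body c)) .nil .nil = atom (W (body c)) := fun c => by
    show tag3 5 (m (body c).code) _ _ = _
    rw [h2]; rfl
  exact ⟨_, IsOp.tag3 5 (h1.comp (IsOp.id.of .body)) IsOp.nil IsOp.nil,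
    fun c => by rw [e]; exact erase_of_lv (lv_atom _), fun c => ⟨_, e c, h3 _⟩⟩

end Ctx

section

variable {E : Seq.{u}} {a : Ordinal.{u}} {x v : Tr.{u}} {P : Bd}

theorem sev_some : sev E a P x = some v ↔ ∃ y w,
    IsLeast (fun y => In (rho E a) y ∧ bod E a P x y ≠ .nil) y ∧
    ev E a (bod E a P x y).fst (node (bod E a P x y).snd (dn E a x)) = some w ∧
    v = Tr.dec (leaf a) w := by
  unfold sev sevL srchL
  simp only [Option.bind_eq_some_iff, Option.map_eq_some_iff, least_eq_some]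
  exact ⟨fun ⟨y, h1, w, h2, h3⟩ => ⟨y, w, h1, h2, h3.symm⟩,
    fun ⟨y, w, h1, h2, h3⟩ => ⟨y, h1, w, h2, h3.symm⟩⟩

theorem sev_isSome : (sev E a P x).isSome ↔ ∃ y, In (rho E a) y ∧
    (¬ ∃ t, Lt t y ∧ bod E a P x t ≠ .nil) ∧ bod E a P x y ≠ .nil ∧
    Th E a (dn E a x) (bod E a P x y) := by
  rw [Option.isSome_iff_exists]
  simp only [sev_some, ThL, Option.isSome_iff_exists]
  constructor
  · rintro ⟨_, y, w, h1, h2, rfl⟩
    exact ⟨y, h1.1.1, fun ⟨t, h3, h4⟩ => h1.2 t h3 ⟨h3.in h1.1.1, h4⟩, h1.1.2, w, h2⟩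
  · rintro ⟨y, h1, h2, h3, w, h4⟩
    exact ⟨_, y, w, ⟨⟨h1, h3⟩, fun t h5 h6 => h2 ⟨t, h5, h6.2⟩⟩, h4, rfl⟩

end

/-- Search over the whole level, with a test that is semi-decidable at the same level. -/
theorem exists_exs : ∃ m : Tr.{u} → Tr.{u}, IsOp m ∧ (∀ e, (m e).erase = m e) ∧
    ∀ E a e x, (∃ p, SS E a p) → In (a + 1) x →
      (∀ t, ev E (a + 1) (m e) x = some t → (ev E (a + 1) e (node t x)).isSome) ∧
      ∀ t, (ev E (a + 1) e (node t x)).isSome → (ev E (a + 1) (m e) x).isSome := by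
  -- description: the code `D c` maps `(v, dn x)` and `((u, v), dn x)` to the value of `c` at `(v, p)`
  obtain ⟨s1, h1⟩ : IsOp.{u} fun t => node t.snd.fst t.snd.snd.snd.fst :=
    IsOp.id.snd.fst.pair IsOp.id.snd.snd.snd.fst
  obtain ⟨s2, h2⟩ : IsOp.{u} fun t => node t.snd.fst.snd t.snd.snd.snd.fst :=
    IsOp.id.snd.fst.snd.pair IsOp.id.snd.snd.snd.fst
  obtain ⟨s3, h3⟩ : IsOp.{u} fun t => node t.snd.fst.fst (node
      (node (node (bop (.lift .id) t.fst) t.snd.snd.fst) .nil) t.snd.snd.snd) :=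
    IsOp.id.snd.fst.fst.pair (((((IsOp.id.fst.of _).pair IsOp.id.snd.snd.fst).pair IsOp.nil).pair
      IsOp.id.snd.snd.snd))
  have chg : IsOp.{u} fun t => node (cmp s3 t.fst.fst (cmp s2 t.snd.fst (opc .nil)))
      (node t.fst.snd t.snd.snd) :=
    (IsOp.cmp s3 IsOp.id.fst.fst (IsOp.cmp s2 IsOp.id.snd.fst (IsOp.const (erase_of_lv (lv_opc _))))).pair
      (IsOp.id.fst.snd.pair IsOp.id.snd.snd)
  have tst : Ctx.{u} fun p R y =>
      tv ((¬ ∃ t, Lt t y ∧ p R t ≠ .nil) ∧ p R y ≠ .nil ∧ R (p R y)) :=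
    (Ctx.hole.lst.ite (Ctx.op (IsOp.nil.pair IsOp.nil))
      (Ctx.seq IsOp.id.fst Ctx.orc Ctx.hole)).congr fun p R y => by
        by_cases h : ∃ t, Lt t y ∧ p R t ≠ .nil
        · rw [if_pos h, if_pos rfl, tv_neg fun k => k.1 h]; rfl
        · rw [if_neg h]; by_cases k : p R y = .nil
          · rw [if_pos k, tv_neg fun j => j.2.1 k]; rfl
          · rw [if_neg k]; simp only [fst_node, h, k, not_false_eq_true, true_and, ne_eq]
  obtain ⟨m, m1, m2, m3⟩ := ((tst.sub chg).ite (Ctx.op ((IsOp.cmp s1 IsOp.id.snd.fst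
    (IsOp.const (erase_of_lv (lv_opc .nil)))).pair IsOp.id.snd.snd)) (Ctx.op IsOp.nil)).code
  refine ⟨m, m1, m2, fun E a e x hs hx => ?_⟩
  obtain ⟨Q, hQ, hr⟩ := m3 e
  have hd := in_dn E hx
  have H := law E a
  have hp := ss_pp hs
  have rl := rho_le E a
  have d1 : ∀ c v, In a v → ev E a (cmp s1 c (opc .nil)) (node v (dn E a x)) =
      ev E a c (node v (pp E a)) := fun c v hv => by
    have i := (in_node _ _ _).2 ⟨hv, hd⟩
    rw [H.pre _ _ i]; simp [h1, dnL, parL]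
  have orc : ∀ c v w q : Tr.{u}, In a v → ev E a c (node v (pp E a)) = some w →
      (Th E a (dn E a x) (node (cmp s3 q.fst (cmp s2 c (opc .nil))) (node q.snd v)) ↔
        Th E a (dn E a (node (Tr.dec (leaf a) w) x)) q) := fun c v w q hv hw => by
    simp only [ThL, fst_node, snd_node]
    by_cases hq : In a q.snd
    · have i : In a (node (node q.snd v) (dn E a x)) := by simp [hq, hv, hd]
      rw [H.cmp, H.pre _ _ i]
      simp [h2, h3, dnL, parL, hw, enc_node, lift_spec .id (ev_in hw)]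
    · rw [ev_guard (by simp [hq]), ev_guard (by simp [hq])]
  have orc0 : ∀ c v q : Tr.{u}, In a v → ev E a c (node v (pp E a)) = none →
      ¬ Th E a (dn E a x) (node (cmp s3 q.fst (cmp s2 c (opc .nil))) (node q.snd v)) :=
    fun c v q hv hw => by
    simp only [ThL, fst_node, snd_node]
    by_cases hq : In a q.snd
    · have i : In a (node (node q.snd v) (dn E a x)) := by simp [hq, hv, hd]
      rw [H.cmp, H.pre _ _ i]
      simp [h2, dnL, parL, hw]
    · rw [ev_guard (by simp [hq])]; simp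
  have val : ∀ y, bod E a Q x y ≠ .nil →
      bod E a Q x y = node (cmp s1 y.snd.fst (opc .nil)) y.snd.snd := fun y hb => by
    unfold bod bodL at hb ⊢
    rw [hr] at hb ⊢
    split_ifs at hb ⊢
    exacts [rfl, absurd rfl hb]
  have key : ∀ y w, In a y.snd.snd → ev E a y.snd.fst (node y.snd.snd (pp E a)) = some w →
      (bod E a Q x y ≠ .nil ↔
        (¬ ∃ t, Lt t y.fst ∧ bod E a (body e) (node (Tr.dec (leaf a) w) x) t ≠ .nil) ∧
        bod E a (body e) (node (Tr.dec (leaf a) w) x) y.fst ≠ .nil ∧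
        Th E a (dn E a (node (Tr.dec (leaf a) w) x))
          (bod E a (body e) (node (Tr.dec (leaf a) w) x) y.fst)) := fun y w hv hw => by
    unfold bod bodL
    rw [hr]
    simp only [fst_node, snd_node, orc _ _ _ _ hv hw, tv_eq_nil, ite_eq_right_iff, ne_eq,
      reduceCtorEq, imp_false, not_not]
  have key0 : ∀ y, In a y.snd.snd → ev E a y.snd.fst (node y.snd.snd (pp E a)) = none →
      bod E a Q x y = .nil := fun y hv hw => by
    unfold bod bodL
    rw [hr, if_neg]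
    simp only [fst_node, snd_node, tv_eq_nil]
    exact fun h => orc0 _ _ _ hv hw h.2.2
  rw [hQ, ev_succ hx, body, decC_atom, Cd.body]
  constructor
  · intro t ht
    obtain ⟨y, w, g1, g2, rfl⟩ := sev_some.1 ht
    have hv : In a y.snd.snd := (g1.1.1.mono rl).snd.snd
    rw [val y g1.1.2, fst_node, snd_node, d1 _ _ hv] at g2
    have hw : In (a + 1) (node (Tr.dec (leaf a) w) x) :=
      (in_node _ _ _).2 ⟨In.dec (by simp) ((ev_in g2).mono le_self_add), hx⟩
    rw [ev_succ hw]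
    exact sev_isSome.2 ⟨y.fst, g1.1.1.fst, (key y w hv g2).1 g1.1.2⟩
  · intro t ht
    have hw : In (a + 1) (node t x) := by
      by_contra h; rw [ev_guard h] at ht; simp at ht
    rw [ev_succ hw] at ht
    obtain ⟨y, g1, g2⟩ := sev_isSome.1 ht
    obtain ⟨c, v, g3, g4⟩ := hp.2.2.2 _ hw.fst.enc
    rw [← ev_erase] at g4
    have g5 : bod E a Q x (node y (node c.erase v)) ≠ .nil :=
      (key (node y (node c.erase v)) _ (g3.mono rl) g4).2 (by simpa using g2)
    obtain ⟨y0, g6⟩ := exists_isLeast (P := fun y => In (rho E a) y ∧ bod E a Q x y ≠ .nil)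
      ⟨_, by simp [g1, g3], g5⟩
    have hv : In a y0.snd.snd := (g6.1.1.mono rl).snd.snd
    cases g7 : ev E a y0.snd.fst (node y0.snd.snd (pp E a)) with
    | none => exact absurd (key0 y0 hv g7) g6.1.2
    | some w =>
      exact Option.isSome_iff_exists.2 ⟨_, sev_some.2 ⟨y0, w, g6, by
        rw [val y0 g6.1.2, fst_node, snd_node, d1 _ _ hv, g7], rfl⟩⟩

end Pool.Agent.KM
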