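import Pool.Agent.Lib.MP_5c0be7_lc.O.Tr

/-!
Project KM, fine hierarchy, part 2: evaluation of codes at the levels of a hierarchy, theories,
names, projectum, parameter, soundness.
-/

namespace Pool.Agent.KM

open Ordinal Tr
open scoped Classical

universe u

/-- Value of a natural operation. -/
noncomputable def bop : Op → Tr.{u} → Tr.{u}
  | .id, t => t
  | .fst, t => t.fst
  | .snd, t => t.snd
  | .nil, _ => .nil
  | .pair a b, t => node (bop a t) (bop b t)
  | .comp a b, t => bop a (bop b t)
  | .ite a b c, t => if bop a t = .nil then bop b t else bop c t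
  | .lift a, t => Tr.enc (leaf t.ht) (bop a (Tr.dec (leaf t.ht) t))
  | .eq, t => tv (t.fst = t.snd)
  | .lt, t => tv (Lt t.fst t.snd)
  | .isleaf, t => tv (∃ a, t = leaf a)
  | .bd, t => tv (∃ a, t.fst = leaf a ∧ In a t.snd)
  | .enc, t => Tr.enc t.fst t.snd
  | .dec, t => Tr.dec t.fst t.snd
  | .mem, t => tv (Mem t.fst t.snd)
  | .erase, t => t.erase
  | .body, t => (Cd.body.{u} (decC t)).code
  | .tr, t => (decC t).tr.code

/-- A table of evaluations: level, code, input. -/
abbrev Tab : Type (u + 1) := Ordinal.{u} → Tr.{u} → Tr.{u} → Option Tr.{u}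

/-- An extender sequence: `E v x y` says that the extender with index `v` maps `x` to `y`. -/
abbrev Seq : Type (u + 1) := Ordinal.{u} → Ordinal.{u} → Ordinal.{u} → Prop

/-- The call of a level below `g`. -/
noncomputable def call (L : Tab.{u}) (g : Ordinal.{u}) (x : Tr.{u}) : Tr.{u} :=
  if x.fst = leaf x.fst.lab ∧ x.fst.lab < g then opt (L x.fst.lab x.snd.fst x.snd.snd) else .nil

/-- Value of a basic program that may call the levels below `g` and the oracle `R`. -/
noncomputable def brun (L : Tab.{u}) (g : Ordinal.{u}) (R : Tr.{u} → Prop) : BP → Tr.{u} → Tr.{u}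
  | .op a, x => bop a x
  | .seq s P Q, x => brun L g R P (bop s (node (brun L g R Q x) x))
  | .ev, x => call L g x
  | .ext, x => tv (R x)

/-- Value of a body with the oracle `R`. -/
noncomputable def drun : Bd → (Tr.{u} → Prop) → Tr.{u} → Tr.{u}
  | .op a, _, x => bop a x
  | .seq s P Q, R, x => drun P R (bop s (node (drun Q R x) x))
  | .orc, R, x => tv (R x)
  | .bex P, R, x => tv (∃ t, Lt t x.fst ∧ drun P R (node t x.snd) ≠ .nil)
  | .sub s P, R, x => drun P (fun q => R (bop s (node q x.snd))) x.fst

/-- Reading of a code at a limit level. -/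
noncomputable def lev (L : Tab.{u}) (g : Ordinal.{u}) (R : Tr.{u} → Prop) :
    Cd → Tr.{u} → Option Tr.{u}
  | .op a, x => some (bop a x)
  | .cmp s c1 c2, x => (lev L g R c2 x).bind fun w => lev L g R c1 (bop s (node w x))
  | .unopt, x => x.unopt
  | .ev, x => some (call L g x)
  | .ext, x => some (tv (R x))
  | .atom _, _ => none

/-- The body of a code at a successor level. -/
def body (c : Tr.{u}) : Bd := Cd.body.{u} (decC c)

section Notions

variable (L : Tab.{u})

/-- `q` belongs to the set named by `t`. -/
def NmL (t q : Tr.{u}) : Prop :=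
  ∃ b, t.fst = leaf b ∧ (L b t.snd.fst (node q t.snd.snd)).isSome

/-- `q` belongs to the theory of `x` at level `b`. -/
def ThL (b : Ordinal.{u}) (x q : Tr.{u}) : Prop := (L b q.fst (node q.snd x)).isSome

/-- `t` is a name below `b` for `A` on the stratum `k`. -/
def NamesL (b k : Ordinal.{u}) (A : Tr.{u} → Prop) (t : Tr.{u}) : Prop :=
  In b t ∧ ∀ q, In k q → (NmL L t q ↔ A q)

/-- The projectum of level `b`. -/
noncomputable def rhoL (b : Ordinal.{u}) : Ordinal.{u} :=
  sInf {k | k = b ∨ ∃ x, In b x ∧ ¬ ∃ t, NamesL L b k (ThL L b x) t}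

/-- The least name below `b` of the theory of `x` at level `b` on the stratum `k`. -/
noncomputable def nmL (b k : Ordinal.{u}) (x : Tr.{u}) : Tr.{u} :=
  (least (NamesL L b k (ThL L b x))).getD .nil

/-- A solid parameter: an increasing list; each entry has a witness. -/
def SolidL (b : Ordinal.{u}) : Tr.{u} → Prop
  | .nil => True
  | node l s => ∃ g, l = leaf g ∧ (∀ a ∈ s.lv, g < a) ∧
      (∃ t, NamesL L b g (ThL L b s) t) ∧ SolidL b s
  | leaf _ => False

/-- Level `b` is generated by `k` and `p`. -/
def GenL (b k : Ordinal.{u}) (p : Tr.{u}) : Prop :=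
  ∀ t, In b t → ∃ c v, In k v ∧ L b c (node v p) = some t

/-- Level `b` is sound with solid parameter `p`. -/
def SSL (b : Ordinal.{u}) (p : Tr.{u}) : Prop :=
  In b p ∧ (∀ a ∈ p.lv, rhoL L b ≤ a) ∧ SolidL L b p ∧ GenL L b (rhoL L b) p

/-- The parameter of level `b`. -/
noncomputable def ppL (b : Ordinal.{u}) : Tr.{u} :=
  if h : ∃ p, SSL L b p then h.choose else .nil

/-- The list of least witnesses. -/
noncomputable def witL (b : Ordinal.{u}) : Tr.{u} → Tr.{u}
  | node l s => node (nmL L b l.lab s) (witL b s)
  | _ => .nil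

/-- Parameter and witnesses. -/
noncomputable def parL (b : Ordinal.{u}) : Tr.{u} := node (ppL L b) (witL L b (ppL L b))

/-- The input handed down from level `b + 1` to level `b`. -/
noncomputable def dnL (b : Ordinal.{u}) (x : Tr.{u}) : Tr.{u} :=
  node (Tr.enc (leaf b) x) (parL L b)

/-- The value of the body `P` at level `b + 1` on the candidate `y`. -/
noncomputable def bodL (b : Ordinal.{u}) (P : Bd) (x y : Tr.{u}) : Tr.{u} :=
  drun P (ThL L b (dnL L b x)) y

/-- The result of the search at level `b + 1`. -/
noncomputable def srchL (b : Ordinal.{u}) (P : Bd) (x : Tr.{u}) : Option Tr.{u} :=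
  least fun y => In (rhoL L b) y ∧ bodL L b P x y ≠ .nil

/-- Reading of a body at the successor level `b + 1`. -/
noncomputable def sevL (b : Ordinal.{u}) (P : Bd) (x : Tr.{u}) : Option Tr.{u} :=
  (srchL L b P x).bind fun y =>
    (L b (bodL L b P x y).fst (node (bodL L b P x y).snd (dnL L b x))).map (Tr.dec (leaf b))

end Notions

/-- Successor ordinals. -/
def Suc (b : Ordinal.{u}) : Prop := ∃ a, b = a + 1

/-- The oracle of level `b`. -/
def ora (E : Seq.{u}) (b : Ordinal.{u}) (x : Tr.{u}) : Prop := ¬ Suc b ∧ Rel (E b) x.fst x.snd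

/-- One step of the recursion. -/
noncomputable def step (E : Seq.{u}) (b : Ordinal.{u}) (L : Tab.{u}) (c x : Tr.{u}) :
    Option Tr.{u} :=
  if In b x then
    if h : Suc b then sevL L h.choose (body c) x else lev L b (ora E b) (decC c) x
  else none

/-- Evaluation of the code `c` on `x` at level `b` of the hierarchy given by `E`. -/
noncomputable def ev (E : Seq.{u}) : Tab.{u} :=
  (wellFounded_lt (α := Ordinal.{u})).fix fun b rec =>
    step E b fun a => if h : a < b then rec a h else fun _ _ => none

section

variable (E : Seq.{u})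

/-- Basic programs at level `b`. -/
noncomputable def bev (b : Ordinal.{u}) : BP → Tr.{u} → Tr.{u} := brun (ev E) b (ora E b)

/-- Basic programs at level `b` without oracle. -/
noncomputable def bev0 (b : Ordinal.{u}) : BP → Tr.{u} → Tr.{u} := brun (ev E) b fun _ => False

abbrev Nm := NmL (ev E)
abbrev Th := ThL (ev E)
abbrev Names := NamesL (ev E)
noncomputable abbrev rho := rhoL (ev E)
noncomputable abbrev nm := nmL (ev E)
abbrev Solid := SolidL (ev E)
abbrev Gen := GenL (ev E)
abbrev SS := SSL (ev E)
noncomputable abbrev pp := ppL (ev E)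
noncomputable abbrev par := parL (ev E)
noncomputable abbrev dn := dnL (ev E)
noncomputable abbrev bod := bodL (ev E)
noncomputable abbrev srch := srchL (ev E)

/-- `A` has a name below `b` on the stratum `k`. -/
def Named (b k : Ordinal.{u}) (A : Tr.{u} → Prop) : Prop := ∃ t, Names E b k A t

/-- Level `b` is sound, and does not project unless it is a successor. -/
def Lev (b : Ordinal.{u}) : Prop := (∃ p, SS E b p) ∧ (¬ Suc b → rho E b = b)

/-- All levels below `d` are sound. -/
def LS (d : Ordinal.{u}) : Prop := ∀ b < d, Lev E b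

end

end Pool.Agent.KM
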