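import Pool.Agent.Lib.MP_5c0be7_lc.O.Calc
import Pool.Agent.Lib.MP_5c0be7_lc.O.StF3

/-!
Project KM, block F3: operations with parameters, functions and sets computed at one level.
-/

namespace Pool.Agent.KM.F3

open Ordinal Tr
open scoped Classical

universe u

/-- `g` is a natural operation with a parameter below `a`. -/
@[fun_prop] def IsP (a : Ordinal.{u}) (g : Tr.{u} → Tr.{u}) : Prop :=
  ∃ (s : Op) (z : Tr.{u}), In a z ∧ ∀ q, bop s (node q z) = g q

section Ops

variable {a : Ordinal.{u}} {f g h : Tr.{u} → Tr.{u}}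

@[fun_prop] theorem p_id : IsP a fun t : Tr.{u} => t := ⟨.fst, .nil, by simp, fun _ => rfl⟩

@[fun_prop] theorem p_const (c : Tr.{u}) (hc : In a c) : IsP a fun _ : Tr.{u} => c :=
  ⟨.snd, c, hc, fun _ => rfl⟩

@[fun_prop] theorem p_comp (hf : IsP a f) (hg : IsP a g) : IsP a fun t => f (g t) :=
  let ⟨s, z, hz, hs⟩ := hf
  let ⟨r, w, hw, hr⟩ := hg
  ⟨.comp s (.pair (.comp r (.pair .fst .ss)) .fs), node z w, by simp [hz, hw],
    fun t => by simp [hs, hr]⟩

@[fun_prop] theorem p_node (hf : IsP a f) (hg : IsP a g) : IsP a fun t => node (f t) (g t) :=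
  let ⟨s, z, hz, hs⟩ := hf
  let ⟨r, w, hw, hr⟩ := hg
  ⟨.pair (.comp s (.pair .fst .fs)) (.comp r (.pair .fst .ss)), node z w, by simp [hz, hw],
    fun t => by simp [hs, hr]⟩

@[fun_prop] theorem p_bop (s : Op) (hf : IsP a f) : IsP a fun t => bop s (f t) :=
  let ⟨r, w, hw, hr⟩ := hf
  ⟨.comp s r, w, hw, fun t => by simp [hr]⟩

@[fun_prop] theorem p_fst (hf : IsP a f) : IsP a fun t => (f t).fst := p_bop .fst hf

@[fun_prop] theorem p_snd (hf : IsP a f) : IsP a fun t => (f t).snd := p_bop .snd hf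

@[fun_prop] theorem p_erase (hf : IsP a f) : IsP a fun t => (f t).erase := p_bop .erase hf

@[fun_prop] theorem p_enc (hf : IsP a f) (hg : IsP a g) : IsP a fun t => enc (f t) (g t) :=
  p_bop .enc (p_node hf hg)

@[fun_prop] theorem p_dec (hf : IsP a f) (hg : IsP a g) : IsP a fun t => dec (f t) (g t) :=
  p_bop .dec (p_node hf hg)

/-- Test for equality. -/
noncomputable def teq (s t : Tr.{u}) : Tr.{u} := tv (s = t)

/-- Test for a bound of the labels. -/
noncomputable def tbd (s t : Tr.{u}) : Tr.{u} := tv (∃ a, s = leaf a ∧ In a t)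

/-- Case distinction. -/
noncomputable def cnd (s t r : Tr.{u}) : Tr.{u} := if s = nil then t else r

/-- The translated code. -/
def trc (t : Tr.{u}) : Tr.{u} := (decC t).tr.code

@[fun_prop] theorem p_teq (hf : IsP a f) (hg : IsP a g) : IsP a fun t => teq (f t) (g t) :=
  p_bop .eq (p_node hf hg)

@[fun_prop] theorem p_tbd (hf : IsP a f) (hg : IsP a g) : IsP a fun t => tbd (f t) (g t) :=
  p_bop .bd (p_node hf hg)

@[fun_prop] theorem p_trc (hf : IsP a f) : IsP a fun t => trc (f t) := p_bop .tr hf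

@[fun_prop] theorem p_cnd (hf : IsP a f) (hg : IsP a g) (hh : IsP a h) :
    IsP a fun t => cnd (f t) (g t) (h t) :=
  p_bop (.ite .fst .fs .ss) (p_node hf (p_node hg hh))

@[fun_prop] theorem p_cmp (s : Op) (hf : IsP a f) (hg : IsP a g) :
    IsP a fun t => cmp s (f t) (g t) :=
  p_node (p_const _ (by simp)) (p_node hf (p_node hg (p_const _ (in_of_lv (by simp) _))))

theorem IsP.in (hf : IsP a f) {k t} (hk : a ≤ k) (ht : In k t) : In k (f t) :=
  let ⟨s, z, hz, hs⟩ := hf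
  hs t ▸ In.bop (by simp [ht, hz.mono hk]) s

theorem IsP.mono (hf : IsP a f) {b} (h : a ≤ b) : IsP b f :=
  let ⟨s, z, hz, hs⟩ := hf
  ⟨s, z, hz.mono h, hs⟩

theorem IsP.op (hf : IsP 0 f) : ∃ s : Op, ∀ t, bop s t = f t :=
  let ⟨s, z, hz, hs⟩ := hf
  ⟨.comp s (.pair .id (.const z)), fun t => by simp [bop_const', in_zero.1 hz, hs]⟩

theorem IsP.in0 (hf : IsP 0 f) {k t} (ht : In k t) : In k (f t) := hf.in zero_le ht

@[simp] theorem teq_nil (s t : Tr.{u}) : teq s t = nil ↔ s = t := tv_eq_nil _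

@[simp] theorem tbd_nil (s t : Tr.{u}) : tbd s t = nil ↔ ∃ a, s = leaf a ∧ In a t :=
  tv_eq_nil _

@[simp] theorem cnd_nil (s t r : Tr.{u}) :
    cnd s t r = nil ↔ (s = nil ∧ t = nil) ∨ (s ≠ nil ∧ r = nil) := by
  unfold cnd; split_ifs with h <;> simp [h]

/-- Two codes in sequence. -/
def sq (o1 o2 : Op) (c1 c2 : Tr.{u}) : Tr.{u} := cmp o2 c2.erase (cmp o1 c1.erase (opc .nil))

@[fun_prop] theorem p_sq (o1 o2 : Op) (hf : IsP a f) (hg : IsP a g) :
    IsP a fun t => sq o1 o2 (f t) (g t) :=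
  p_cmp _ (p_erase hg) (p_cmp _ (p_erase hf) (p_const _ (by simp)))

@[simp] theorem lv_sq (o1 o2 : Op) (c1 c2 : Tr.{u}) : (sq o1 o2 c1 c2).lv = ∅ := by simp [sq]

@[simp] theorem in_sq (k : Ordinal.{u}) (o1 o2 : Op) (c1 c2 : Tr.{u}) : In k (sq o1 o2 c1 c2) :=
  in_of_lv (by simp) k

theorem ex_sq (hf : IsP 0 f) (hg : IsP 0 g) : ∃ o1 o2, ∀ (E : Seq.{u}) b c1 c2 x, In b x →
    ev E b (sq o1 o2 c1 c2) x = (ev E b c1 (f x)).bind fun w => ev E b c2 (g (node w x)) := by
  obtain ⟨s, hs⟩ := hf.op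
  obtain ⟨r, hr⟩ := hg.op
  refine ⟨.comp s .snd, r, fun E b c1 c2 x hx => ?_⟩
  rw [sq, (law E b).cmp, (law E b).pre _ _ hx]
  simp [hs, hr]

theorem ex_pre (hf : IsP 0 f) : ∃ o1 o2, ∀ (E : Seq.{u}) b c x, In b x →
    ev E b (sq o1 o2 c (opc .id)) x = ev E b c (f x) := by
  obtain ⟨o1, o2, H⟩ := ex_sq hf (g := fun t => t.fst) (by fun_prop)
  refine ⟨o1, o2, fun E b c x hx => ?_⟩
  rw [H E b _ _ x hx]
  cases h : ev E b c (f x) with
  | none => rfl
  | some w => exact (law E b).opc _ _ (ev_in h)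

theorem ex_grd (hf : IsP 0 f) (hg : IsP 0 g) : ∃ c, ∀ (E : Seq.{u}) b x, In b x →
    ev E b c x = if f x = nil then some (g x) else none := by
  have h0 : IsP 0 fun t => cnd (f t) (node nil (g t)) nil := by fun_prop (disch := simp)
  obtain ⟨o1, o2, H⟩ := ex_pre h0
  refine ⟨_, fun E b x hx => (H E b unoptc x hx).trans ?_⟩
  rw [(law E b).unopt _ (h0.in0 hx), cnd]
  split_ifs <;> rfl

theorem ex_call (hf : IsP 0 f) : ∃ c, ∀ (E : Seq.{u}) b x, In b x →
    ev E b c x = (call (ev E) b (f x)).unopt := by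
  obtain ⟨o1, o2, H⟩ := ex_sq hf (g := fun t => t.fst) (by fun_prop)
  refine ⟨_, fun E b x hx => (H E b evc unoptc x hx).trans ?_⟩
  rw [(law E b).evc _ (hf.in0 hx)]
  exact (law E b).unopt _ (hf.in0 hx).call

theorem ex_nnm (hf : IsP 0 f) (hg : IsP 0 g) : ∃ c, ∀ (E : Seq.{u}) b x, In b x →
    ((ev E b c x).isSome ↔ ¬ Nm E (f x) (g x)) := by
  have h0 : IsP 0 fun t => node (f t).fst (node (f t).snd.fst (node (g t) (f t).snd.snd)) := by
    fun_prop
  obtain ⟨o1, o2, H⟩ := ex_sq h0 (g := fun t => t.fst) (by fun_prop)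
  refine ⟨sq o1 o2 evc (tst .id), fun E b x hx => ?_⟩
  rw [H E b _ _ x hx, (law E b).evc _ (h0.in0 hx), Option.bind_some, fst_node,
    (law E b).tst _ (h0.in0 hx).call, nm_iff_call (g := b) (hf.in0 hx).fst, bop_id]
  split_ifs with h1 <;> simp [h1]

end Ops

/-- `f` is computed on the stratum `k` at level `a`, with a parameter. -/
def CF (E : Seq.{u}) (a k : Ordinal.{u}) (f : Tr.{u} → Option Tr.{u}) : Prop :=
  ∃ c z, In a z ∧ ∀ q, In k q → ev E a c (node q z) = f q

/-- `A` is, on the stratum `k`, a domain at level `a`, with a parameter. -/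
def CS (E : Seq.{u}) (a k : Ordinal.{u}) (A : Tr.{u} → Prop) : Prop :=
  ∃ c z, In a z ∧ ∀ q, In k q → ((ev E a c (node q z)).isSome ↔ A q)

variable {E : Seq.{u}} {a b k k' : Ordinal.{u}} {f h : Tr.{u} → Option Tr.{u}}
  {g g' : Tr.{u} → Tr.{u}} {A B : Tr.{u} → Prop}

theorem CF.congr (H : CF E a k f) (e : ∀ q, In k q → f q = h q) : CF E a k h :=
  let ⟨c, z, hz, H⟩ := H
  ⟨c, z, hz, fun q hq => (H q hq).trans (e q hq)⟩

theorem CF.mono (H : CF E a k f) (hk : k' ≤ k) : CF E a k' f :=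
  let ⟨c, z, hz, H⟩ := H
  ⟨c, z, hz, fun q hq => H q (hq.mono hk)⟩

theorem CF.in (H : CF E a k f) {q w} (hq : In k q) (e : f q = some w) : In a q ∧ In a w :=
  let ⟨_, _, _, H⟩ := H
  ⟨(in_of_ev_eq ((H q hq).trans e)).fst, ev_in ((H q hq).trans e)⟩

theorem CF.cs (H : CF E a k f) (e : ∀ q, In k q → ((f q).isSome ↔ A q)) : CS E a k A :=
  let ⟨c, z, hz, H⟩ := H
  ⟨c, z, hz, fun q hq => by rw [H q hq, e q hq]⟩

theorem CS.cf (H : CS E a k A) : ∃ f, CF E a k f ∧ ∀ q, In k q → ((f q).isSome ↔ A q) :=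
  let ⟨c, z, hz, H⟩ := H
  ⟨_, ⟨c, z, hz, fun _ _ => rfl⟩, H⟩

theorem CS.congr (H : CS E a k A) (e : ∀ q, In k q → (A q ↔ B q)) : CS E a k B :=
  let ⟨c, z, hz, H⟩ := H
  ⟨c, z, hz, fun q hq => (H q hq).trans (e q hq)⟩

theorem cf_ev (hk : k ≤ a) (hg : IsP a g) (c : Tr.{u}) : CF E a k fun q => ev E a c (g q) := by
  obtain ⟨s, z, hz, hs⟩ := hg
  obtain ⟨o1, o2, H⟩ := ex_pre (f := fun t : Tr.{u} => bop s t) (by fun_prop)
  exact ⟨_, z, hz, fun q hq => (H E a c _ (by simp [hq.mono hk, hz])).trans (by rw [hs])⟩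

theorem CF.bind (hf : CF E a k f) (hh : CF E a k' h) (hg : IsP a g)
    (hk : ∀ q w, In k q → f q = some w → In k' (g (node w q))) :
    CF E a k fun q => (f q).bind fun w => h (g (node w q)) := by
  obtain ⟨c1, z1, hz1, H1⟩ := hf
  obtain ⟨c2, z2, hz2, H2⟩ := hh
  obtain ⟨s, z, hz, hs⟩ := hg
  obtain ⟨o1, o2, H⟩ := ex_sq (f := fun t : Tr.{u} => node t.fst t.snd.fst)
    (g := fun t => node (bop s (node (node t.fst t.snd.fst) t.snd.snd.snd.snd)) t.snd.snd.snd.fst)
    (by fun_prop) (by fun_prop)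
  refine ⟨sq o1 o2 c1 c2, node z1 (node z2 z), by simp [*], fun q hq => ?_⟩
  by_cases hqa : In a q
  · rw [H E a _ _ _ (by simp [*])]
    simp only [fst_node, snd_node, hs, H1 q hq]
    cases e : f q with
    | none => rfl
    | some w => exact H2 _ (hk q w hq e)
  · beta_reduce
    rw [ev_guard (by simp [hqa]), ← H1 q hq, ev_guard (by simp [hqa])]; rfl

theorem cf_grd (hk : k ≤ a) (hg : IsP a g) (hg' : IsP a g') :
    CF E a k fun q => if g q = nil then some (g' q) else none := by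
  obtain ⟨c, H⟩ := ex_grd (f := fun t : Tr.{u} => t.fst) (g := fun t => t.snd) (by fun_prop)
    (by fun_prop)
  exact (cf_ev hk (p_node hg hg') c).congr fun q hq =>
    H E a _ ((p_node hg hg').in le_rfl (hq.mono hk))

theorem cf_op (hk : k ≤ a) (hg : IsP a g) : CF E a k fun q => some (g q) :=
  (cf_grd hk (p_const nil (by simp)) hg).congr fun _ _ => if_pos rfl

theorem cf_call (hk : k ≤ a) (hg : IsP a g) : CF E a k fun q => (call (ev E) a (g q)).unopt := by
  obtain ⟨c, H⟩ := ex_call (f := fun t : Tr.{u} => t) p_id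
  exact (cf_ev hk hg c).congr fun q hq => H E a _ (hg.in le_rfl (hq.mono hk))

theorem cf_low {e} (hk : k ≤ a) (he : e < a) (hg : IsP a g) (hg' : IsP a g') :
    CF E a k fun q => ev E e (g q) (g' q) :=
  (cf_call hk (p_node (p_const (leaf e) (by simpa)) (p_node hg hg'))).congr fun q _ => by
    simp [call_leaf he]

theorem CF.pre (hk : k ≤ a) (hh : CF E a k' h) (hg : IsP a g) (hk' : ∀ q, In k q → In k' (g q)) :
    CF E a k fun q => h (g q) :=
  (cf_op hk hg).bind hh (g := fun t => t.fst) (by fun_prop) fun q w hq e => by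
    simpa [← Option.some.inj e] using hk' q hq

theorem CF.lift (H : CF E a k f) (hab : a ≤ b) : CF E b k f := by
  rcases hab.eq_or_lt with rfl | hab
  · exact H
  obtain ⟨c, z, hz, H⟩ := H
  have h1 : In b z := hz.mono hab.le
  obtain ⟨c', z', hz', H'⟩ := cf_low (E := E) (g := fun _ => c.erase) (g' := fun q => node q z)
    le_rfl hab (by fun_prop (disch := simp)) (by fun_prop (disch := assumption))
  refine ⟨c', z', hz', fun q hq => ?_⟩
  rw [← H q hq]
  by_cases hqb : In b q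
  · simpa using H' q hqb
  · rw [ev_guard (by simp [hqb]), ev_guard (x := node q z) fun h2 => hqb (h2.fst.mono hab.le)]

theorem CS.lift (H : CS E a k A) (hab : a ≤ b) : CS E b k A :=
  let ⟨_, H1, H2⟩ := H.cf
  (H1.lift hab).cs H2

theorem CS.mono (H : CS E a k A) (hk : k' ≤ k) : CS E a k' A :=
  let ⟨c, z, hz, H⟩ := H
  ⟨c, z, hz, fun q hq => H q (hq.mono hk)⟩

theorem CS.pre (hk : k ≤ a) (H : CS E a k' A) (hg : IsP a g) (hk' : ∀ q, In k q → In k' (g q)) :
    CS E a k fun q => A (g q) :=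
  let ⟨_, H1, H2⟩ := H.cf
  (H1.pre hk hg hk').cs fun q hq => H2 _ (hk' q hq)

theorem CF.ex (hf : CF E a k f) (H : CS E a k' A) (hg : IsP a g)
    (hk : ∀ q w, In k q → f q = some w → In k' (g (node w q))) :
    CS E a k fun q => ∃ w, f q = some w ∧ A (g (node w q)) := by
  obtain ⟨h, H1, H2⟩ := H.cf
  refine (hf.bind H1 hg hk).cs fun q hq => ?_
  cases e : f q with
  | none => simp
  | some w => simpa using H2 _ (hk q w hq e)

theorem CS.and (H : CS E a k A) (H' : CS E a k B) : CS E a k fun q => A q ∧ B q := by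
  obtain ⟨h, H1, H2⟩ := H.cf
  refine (H1.ex H' (g := fun t => t.snd) (by fun_prop) fun q w hq _ => hq).congr fun q hq => ?_
  simp [← H2 q hq, Option.isSome_iff_exists]

theorem cs_test (hk : k ≤ a) (hg : IsP a g) : CS E a k fun q => g q = nil :=
  (cf_grd hk hg hg).cs fun q _ => by split_ifs with h <;> simp [h]

theorem cs_nnm (hk : k ≤ a) (hg : IsP a g) (hg' : IsP a g') :
    CS E a k fun q => ¬ Nm E (g q) (g' q) := by
  obtain ⟨c, H⟩ := ex_nnm (f := fun t : Tr.{u} => t.fst) (g := fun t => t.snd) (by fun_prop)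
    (by fun_prop)
  exact (cf_ev hk (p_node hg hg') c).cs fun q hq =>
    H E a _ ((p_node hg hg').in le_rfl (hq.mono hk))

/-- Restriction of a function to a set. -/
theorem CS.restrict (H : CS E a k A) (hf : CF E a k' f) (hg : IsP a g)
    (hk : ∀ q, In k q → A q → In k' (g q)) :
    CF E a k fun q => if A q then f (g q) else none := by
  obtain ⟨h, H1, H2⟩ := H.cf
  refine (H1.bind hf (g := fun t => g t.snd) (by fun_prop)
    fun q w hq e => hk q hq ((H2 q hq).1 (by simp [e]))).congr fun q hq => ?_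
  have := H2 q hq
  cases e : h q with
  | none => rw [if_neg (by simpa [e] using this)]; rfl
  | some w => rw [if_pos (by simpa [e] using this)]; rfl

theorem CS.named (H : CS E a k A) (hab : a < b) : Named E b k A := by
  obtain ⟨c, z, hz, H⟩ := H
  refine ⟨node (leaf a) (node c.erase z), by simp [hab, hz.mono hab.le], fun q hq => ?_⟩
  simpa [NmL] using H q hq

theorem named_empty (H : ∀ q, In k q → ¬ A q) : Named E b k A :=
  ⟨nil, by simp, fun q hq => by simpa [NmL] using H q hq⟩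

theorem named_cases (H : Named E b k A) : (∀ q, In k q → ¬ A q) ∨ ∃ a < b, CS E a k A := by
  obtain ⟨t, ht, H⟩ := H
  by_cases h1 : ∃ q, In k q ∧ A q
  · obtain ⟨q, hq, hA⟩ := h1
    obtain ⟨a, ha, h2⟩ := (H q hq).2 hA
    refine Or.inr ⟨a, by simpa [ha] using ht.fst, t.snd.fst, t.snd.snd, (in_of_ev h2).snd,
      fun q hq => ?_⟩
    simpa [NmL, ha] using H q hq
  · exact Or.inl fun q hq hA => h1 ⟨q, hq, hA⟩

theorem cs_empty (H : ∀ q, In k q → ¬ A q) : CS E a k A := by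
  obtain ⟨c, H1⟩ := ex_grd (f := fun _ : Tr.{u} => one) (g := fun t => t)
    (by fun_prop (disch := simp)) p_id
  refine ⟨c, nil, by simp, fun q hq => ?_⟩
  by_cases h1 : In a (node q nil)
  · simp [H1 E a _ h1, H q hq]
  · simp [ev_guard h1, H q hq]

theorem named_cs (H : Named E b k A) (hb : a < b) : ∃ e, a ≤ e ∧ e < b ∧ CS E e k A := by
  rcases named_cases H with h1 | ⟨e, he, h1⟩
  · exact ⟨a, le_rfl, hb, cs_empty h1⟩
  · exact ⟨max a e, le_max_left _ _, max_lt hb he, h1.lift (le_max_right _ _)⟩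

theorem named_congr (H : Named E b k A) (e : ∀ q, In k q → (A q ↔ B q)) : Named E b k B :=
  let ⟨t, ht, H⟩ := H
  ⟨t, ht, fun q hq => (H q hq).trans (e q hq)⟩

theorem named_mono (H : Named E a k A) (hab : a ≤ b) (hk : k' ≤ k) : Named E b k' A :=
  let ⟨t, ht, H⟩ := H
  ⟨t, ht.mono hab, fun q hq => H q (hq.mono hk)⟩

/-- Preimage under an operation that keeps all labels. -/
theorem named_pre0 (H : Named E b k' A) (hg : IsP 0 g) (hk : ∀ q, In k q → In k' (g q))
    (hl : ∀ q, q.lv ⊆ (g q).lv) : Named E b k fun q => A (g q) := by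
  rcases named_cases H with h1 | ⟨a, ha, c, z, hz, h1⟩
  · exact named_empty fun q hq => h1 _ (hk q hq)
  · obtain ⟨o1, o2, H⟩ := ex_pre (f := fun t : Tr.{u} => node (g t.fst) t.snd) (by fun_prop)
    refine CS.named ⟨sq o1 o2 c (opc .id), z, hz, fun q hq => ?_⟩ ha
    beta_reduce
    rw [← h1 _ (hk q hq)]
    by_cases hqa : In a q
    · rw [H E a _ _ (by simp [*])]; rfl
    · rw [ev_guard (by simp [hqa]), ev_guard (x := node (g q) z) fun h2 => hqa (h2.fst.of_subset (hl q))]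

theorem named_pre {e} (H : Named E b k' A) (hkb : k < b) (he : e < b) (hg : IsP e g)
    (hk : ∀ q, In k q → In k' (g q)) : Named E b k fun q => A (g q) := by
  obtain ⟨a, h1, h2, h3⟩ := named_cs H (max_lt hkb he)
  exact (h3.pre ((le_max_left _ _).trans h1) (hg.mono ((le_max_right _ _).trans h1)) hk).named h2

theorem named_cs_compl (H : Named E b k A) (hk : k ≤ b) : CS E b k fun q => ¬ A q := by
  obtain ⟨t, ht, H⟩ := H
  exact (cs_nnm hk (p_const t ht) p_id).congr fun q hq => not_congr (H q hq)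

theorem named_of_th {c z} (H : Named E b k (Th E b z))
    (e : ∀ q, In k q → ((ev E b c (node q z)).isSome ↔ A q)) : Named E b k A :=
  named_congr (named_pre0 H (g := fun q => node c.erase q) (by fun_prop (disch := simp))
    (fun q hq => by simpa using hq) (fun q => by simp)) fun q hq => by simpa [ThL] using e q hq

end Pool.Agent.KM.F3
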