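import Pool.Agent.Lib.MP_5c0be7_lc.O.Ctx

/-!
Project KM, fine hierarchy: first-order definability over a level, decided finitely many levels up.
-/

namespace Pool.Agent.KM

open Ordinal Tr
open scoped Classical

universe u

theorem LS.mono {E : Seq.{u}} {d d' : Ordinal.{u}} (h : LS E d) (hd : d' ≤ d) : LS E d' :=
  fun b hb => h b (hb.trans_le hd)

/-- Level-dependent partial functions. -/
abbrev PF : Type (u + 1) := Seq.{u} → Ordinal.{u} → Tr.{u} → Option Tr.{u}

/-- Level-dependent total functions. -/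
abbrev TF : Type (u + 1) := Seq.{u} → Ordinal.{u} → Tr.{u} → Tr.{u}

/-- Level-dependent predicates. -/
abbrev PR : Type (u + 1) := Seq.{u} → Ordinal.{u} → Tr.{u} → Prop

/-- One label-free code computes `f` at every level. -/
def Code (f : PF.{u}) : Prop :=
  ∃ c : Tr.{u}, c.erase = c ∧ ∀ E b z, In b z → ev E b c z = f E b z

namespace Code

variable {f g : PF.{u}} {s : Tr.{u} → Tr.{u}}

theorem congr (hf : Code f) (h : ∀ E b z, In b z → f E b z = g E b z) : Code g :=
  let ⟨c, h1, h2⟩ := hf; ⟨c, h1, fun E b z i => (h2 E b z i).trans (h E b z i)⟩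

theorem self {c : Tr.{u}} (hc : c.erase = c) : Code fun E b z => ev E b c z :=
  ⟨c, hc, fun _ _ _ _ => rfl⟩

theorem op (hs : IsOp s) : Code fun _ _ z => some (s z) :=
  let ⟨a, ha⟩ := hs; ⟨opc a, erase_of_lv (lv_opc a), fun E b z i => by rw [(law E b).opc a z i, ha]⟩

theorem unopt : Code.{u} fun _ _ z => Tr.unopt z := ⟨unoptc, rfl, fun E b z => (law E b).unopt z⟩

theorem call : Code.{u} fun E b z => some (call (ev E) b z) := ⟨evc, rfl, fun E b z => (law E b).evc z⟩

theorem bind (hs : IsOp s) (hf : Code f) (hg : Code g) :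
    Code fun E b z => (f E b z).bind fun w => g E b (s (node w z)) := by
  obtain ⟨a, ha⟩ := hs
  obtain ⟨c, h1, h2⟩ := hf
  obtain ⟨d, h3, h4⟩ := hg
  refine ⟨cmp a d c, by rw [erase_cmp, h3, h1], fun E b z i => ?_⟩
  dsimp only
  rw [(law E b).cmp, ← h2 E b z i]
  cases h : ev E b c z with
  | none => rfl
  | some w =>
    show ev E b d _ = g E b _
    rw [← ha]; exact h4 E b _ (((in_node _ _ _).2 ⟨ev_in h, i⟩).bop a)

theorem pre (hs : IsOp s) (hf : Code f) : Code fun E b z => f E b (s z) :=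
  ((bind (hs.comp IsOp.id.snd) (op IsOp.nil) hf)).congr fun _ _ _ _ => by simp

theorem post (hs : IsOp s) (hf : Code f) :
    Code fun E b z => (f E b z).bind fun w => Tr.unopt (s (node w z)) := bind hs hf unopt

/-- The code that returns the predecessor of the level. -/
theorem top : ∃ d : Tr.{u}, d.erase = d ∧ (∀ E a z, In (a + 1) z → ev E (a + 1) d z = some (leaf a))
    ∧ ∀ E b z, ¬ Suc b → ev E b d z = none := by
  refine ⟨atom (.cst (opc .tone : Tr.{u})), erase_of_lv (lv_atom _), fun E a z i => ?_,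
    fun E b z h => ?_⟩
  · rw [ev_succ i, body, decC_atom, Cd.body, sev_cst (by simp),
      (law E a).opc _ _ (by simpa using in_dn E i)]; rfl
  · by_cases i : In b z
    · rw [ev_lim h i, decC_atom]; rfl
    · exact ev_guard i _

/-- A call of the level below, with the code given as data. -/
theorem low : ∃ d : Tr.{u}, d.erase = d ∧ ∀ E a z, In (a + 1) z →
    ev E (a + 1) d z = some (opt (ev E a z.fst z.snd)) := by
  obtain ⟨t, t1, t2, -⟩ := top.{u}
  obtain ⟨d, h1, h2⟩ := bind IsOp.id (self t1) call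
  refine ⟨d, h1, fun E a z i => ?_⟩
  rw [h2 E _ z i]; simp [t2 E a z i, KM.call]

/-- A call of the level below. -/
theorem down {c : Tr.{u}} (hc : c.erase = c) : ∃ d : Tr.{u}, d.erase = d ∧ ∀ E a z,
    In (a + 1) z → ev E (a + 1) d z = some (opt (ev E a c z)) := by
  obtain ⟨d, h1, h2⟩ := low.{u}
  obtain ⟨e, h3, h4⟩ := (self h1).pre ((IsOp.const hc).pair IsOp.id)
  refine ⟨e, h3, fun E a z i => ?_⟩
  rw [h4 E _ z i]; exact h2 E a _ ((in_node _ _ _).2 ⟨in_of_lf hc _, i⟩)

end Code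

/-- `f` is computed `n` levels up, by one label-free code that rejects inputs not below `b`. -/
def Cp (n : ℕ) (f : PF.{u}) : Prop :=
  ∃ c : Tr.{u}, c.erase = c ∧ ∀ E b z, LS E (b + n) →
    ev E (b + n) c z = if In b z then f E b z else none

theorem add_succ_cast (b : Ordinal.{u}) (n : ℕ) : b + ((n + 1 : ℕ) : Ordinal.{u}) = b + n + 1 := by
  rw [Nat.cast_succ, add_assoc]

namespace Cp

variable {f g : PF.{u}} {s : Tr.{u} → Tr.{u}} {n m : ℕ}

theorem congr (hf : Cp n f) (h : ∀ E b z, LS E (b + n) → In b z → f E b z = g E b z) : Cp n g := by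
  obtain ⟨c, h1, h2⟩ := hf
  refine ⟨c, h1, fun E b z l => ?_⟩
  rw [h2 E b z l]; split_ifs with i
  exacts [h E b z l i, rfl]

theorem zero (hf : Code f) : Cp 0 f := by
  obtain ⟨c, h1, h2⟩ := hf
  refine ⟨c, h1, fun E b z l => ?_⟩
  simp only [Nat.cast_zero, add_zero] at l ⊢
  split_ifs with i
  exacts [h2 E b z i, ev_guard i _]

theorem succ (hf : Cp n f) : Cp (n + 1) f := by
  obtain ⟨c, h1, h2⟩ := hf
  obtain ⟨d, h3, h4⟩ := Code.down h1
  obtain ⟨e, h5, h6⟩ := (Code.self h3).post IsOp.id.fst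
  refine ⟨e, h5, fun E b z l => ?_⟩
  rw [add_succ_cast] at l ⊢
  by_cases i : In (b + n + 1) z
  · rw [h6 E _ z i]; simp [h4 E _ z i, h2 E b z (l.mono le_self_add)]
  · rw [ev_guard i, if_neg fun h => i (h.mono (le_self_add.trans le_self_add))]

theorem mono (hf : Cp n f) (h : n ≤ m) : Cp m f := by
  induction h with
  | refl => exact hf
  | step _ ih => exact ih.succ

theorem of (hf : Code f) : Cp n f := (zero hf).mono (Nat.zero_le n)

theorem op (hs : IsOp s) : Cp n fun _ _ z => some (s z) := of (Code.op hs)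

/-- A code that is right on the inputs below `b` can be guarded. -/
theorem mk' {c : Tr.{u}} (hc : c.erase = c)
    (h : ∀ E b z, LS E (b + n) → In b z → ev E (b + n) c z = f E b z) : Cp n f := by
  obtain ⟨g, h1, h2⟩ := op (n := n) IsOp.id
  obtain ⟨e, h5, h6⟩ := Code.bind IsOp.id.fst (Code.self h1) (Code.self hc)
  refine ⟨e, h5, fun E b z l => ?_⟩
  by_cases i : In (b + n) z
  · rw [h6 E _ z i]; dsimp only; rw [h2 E b z l]; split_ifs with j
    exacts [h E b z l j, rfl]
  · rw [ev_guard i, if_neg fun h => i (h.mono le_self_add)]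

theorem bind (hf : Cp n f) (hg : Cp n g)
    (hi : ∀ E b z w, LS E (b + n) → In b z → f E b z = some w → In b w) :
    Cp n fun E b z => (f E b z).bind fun w => g E b (node w z) := by
  obtain ⟨c, h1, h2⟩ := hf
  obtain ⟨d, h3, h4⟩ := hg
  obtain ⟨e, h5, h6⟩ := Code.bind IsOp.id (Code.self h1) (Code.self h3)
  refine mk' h5 fun E b z l i => ?_
  rw [h6 E _ z (i.mono le_self_add)]; dsimp only; rw [h2 E b z l, if_pos i]
  cases h : f E b z with
  | none => rfl
  | some w =>
    show ev E _ d _ = g E b _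
    rw [h4 E b _ l, if_pos ((in_node _ _ _).2 ⟨hi E b z w l i h, i⟩)]

theorem pre (hs : IsOp s) (hf : Cp n f) : Cp n fun E b z => f E b (s z) := by
  obtain ⟨c, h1, h2⟩ := hf
  obtain ⟨e, h5, h6⟩ := (Code.self h1).pre hs
  refine mk' h5 fun E b z l i => ?_
  rw [h6 E _ z (i.mono le_self_add)]; dsimp only; rw [h2 E b _ l, if_pos (hs.mem i)]

/-- A natural operation on the value and the input. -/
theorem post (hs : IsOp s) (hf : Cp n f) :
    Cp n fun E b z => (f E b z).bind fun w => Tr.unopt (s (node w z)) := by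
  obtain ⟨c, h1, h2⟩ := hf
  obtain ⟨e, h5, h6⟩ := (Code.self h1).post hs
  refine mk' h5 fun E b z l i => ?_
  rw [h6 E _ z (i.mono le_self_add)]; dsimp only; rw [h2 E b _ l, if_pos i]

/-- Definedness is decided one level up. -/
theorem tot (hf : Cp n f) : Cp (n + 1) fun E b z => some (opt (f E b z)) := by
  obtain ⟨c, h1, h2⟩ := hf
  obtain ⟨d, h3, h4⟩ := Code.down h1
  refine mk' h3 fun E b z l i => ?_
  rw [add_succ_cast] at l ⊢
  rw [h4 E _ z (i.mono (le_self_add.trans le_self_add)), h2 E b z (l.mono le_self_add), if_pos i]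

/-- Evaluation at level `b` itself of a code given as data. -/
theorem evTop : Cp.{u} 1 fun E b z => ev E b z.fst z.snd := by
  obtain ⟨d, h1, h2⟩ := Code.low.{u}
  obtain ⟨e, h5, h6⟩ := (Code.self h1).post IsOp.id.fst
  refine mk' h5 fun E b z l i => ?_
  rw [Nat.cast_one]
  have j := i.mono (le_self_add (b := 1))
  rw [h6 E _ z j]; simp [h2 E _ z j]

/-- Evaluation at a level given as data. -/
theorem call : Cp.{u} n fun E _ z => if z.fst = leaf z.fst.lab then
    ev E z.fst.lab z.snd.fst z.snd.snd else none := by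
  refine of ((Code.call.post IsOp.id.fst).congr fun E b z i => ?_)
  by_cases h : z.fst = leaf z.fst.lab
  · have : z.fst.lab < b := by have := i.fst; rw [h] at this; simpa using this
    simp [KM.call, ← h, this]
  · simp [KM.call, h]

/-- Search for a witness below `b`. -/
theorem find (hf : Cp (n + 1) f) : ∃ g, Cp (n + 1) g ∧ ∀ E b z, LS E (b + n + 1) → In b z →
    (∀ t, g E b z = some t → In b t ∧ (f E b (node t z)).isSome) ∧
    ∀ t, In b t → (f E b (node t z)).isSome → (g E b z).isSome := by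
  obtain ⟨c, h1, h2⟩ := hf
  obtain ⟨m, -, m2, m3⟩ := exists_exs.{u}
  refine ⟨fun E b z => ev E (b + n + 1) (m c) z,
    mk' (m2 c) fun E b z _ _ => by rw [add_succ_cast], fun E b z l i => ?_⟩
  obtain ⟨h3, h4⟩ := m3 E (b + n) c z (l _ (lt_add_one _)).1
    (i.mono (le_self_add.trans le_self_add))
  simp only [add_succ_cast] at h2
  refine ⟨fun t h => ?_, fun t ht h => h4 t ?_⟩
  · have h8 := h3 t h
    rw [h2 E b _ l] at h8
    split_ifs at h8 with h9
    · exact ⟨h9.fst, h8⟩
    · simp at h8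
  · rwa [h2 E b _ l, if_pos ((in_node _ _ _).2 ⟨ht, i⟩)]

end Cp

/-- `A` is decided `n` levels up. -/
def Dc (n : ℕ) (A : PR.{u}) : Prop := Cp n fun E b z => some (tv (A E b z))

/-- `A` is first-order definable over the level: decided finitely many levels up. -/
def Df (A : PR.{u}) : Prop := ∃ n, Dc n A

/-- `f` is a definable total function of the level into itself. -/
def Fn (f : TF.{u}) : Prop := ∃ n, Cp n (fun E b z => some (f E b z)) ∧
  ∀ E b z, LS E (b + n) → In b z → In b (f E b z)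

theorem LS.cast_le {E : Seq.{u}} {b : Ordinal.{u}} {n m : ℕ} (h : LS E (b + m)) (hn : n ≤ m) :
    LS E (b + n) := h.mono (add_le_add_right (Nat.cast_le.2 hn) b)

namespace Fn

variable {f g h : TF.{u}} {s : Tr.{u} → Tr.{u}}

theorem up (hf : Fn f) (k : ℕ) : ∃ n, k ≤ n ∧ Cp n (fun E b z => some (f E b z)) ∧
    ∀ E b z, LS E (b + n) → In b z → In b (f E b z) :=
  let ⟨n, h1, h2⟩ := hf
  ⟨max n k, le_max_right _ _, h1.mono (le_max_left _ _),
    fun E b z l => h2 E b z (l.cast_le (le_max_left _ _))⟩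

theorem congr' (k : ℕ) (hf : Fn f) (e : ∀ E b z, LS E (b + k) → In b z → f E b z = g E b z) :
    Fn g :=
  let ⟨n, h0, h1, h2⟩ := hf.up k
  ⟨n, h1.congr fun E b z l i => by rw [e E b z (l.cast_le h0) i],
    fun E b z l i => e E b z (l.cast_le h0) i ▸ h2 E b z l i⟩

theorem congr (hf : Fn f) (e : ∀ E b z, In b z → f E b z = g E b z) : Fn g :=
  hf.congr' 0 fun E b z _ => e E b z

theorem op (hs : IsOp s) : Fn fun _ _ z => s z := ⟨0, Cp.op hs, fun _ _ _ _ i => hs.mem i⟩

theorem id : Fn.{u} fun _ _ z => z := op IsOp.id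

/-- Composition that keeps the input. -/
theorem seq (hf : Fn f) (hg : Fn g) : Fn fun E b z => f E b (node (g E b z) z) := by
  obtain ⟨n, h1, h2⟩ := hf
  obtain ⟨m, h0, h3, h4⟩ := hg.up n
  exact ⟨m, (h3.bind (h1.mono h0) fun E b z w l i e => by
      cases e; exact h4 E b z l i).congr fun _ _ _ _ _ => rfl,
    fun E b z l i => h2 E b _ (l.cast_le h0) ((in_node _ _ _).2 ⟨h4 E b z l i, i⟩)⟩

theorem pre (hf : Fn f) (hs : IsOp s) : Fn fun E b z => f E b (s z) :=
  let ⟨n, h1, h2⟩ := hf; ⟨n, h1.pre hs, fun E b z l i => h2 E b _ l (hs.mem i)⟩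

theorem comp (hf : Fn f) (hg : Fn g) : Fn fun E b z => f E b (g E b z) :=
  (hf.pre IsOp.id.fst).seq hg

theorem post (hs : IsOp s) (hf : Fn f) : Fn fun E b z => s (f E b z) := (op hs).comp hf

theorem fst (hf : Fn f) : Fn fun E b z => (f E b z).fst := hf.post IsOp.id.fst

theorem snd (hf : Fn f) : Fn fun E b z => (f E b z).snd := hf.post IsOp.id.snd

theorem pair (hf : Fn f) (hg : Fn g) : Fn fun E b z => node (f E b z) (g E b z) :=
  (((op (IsOp.id.fst.pair IsOp.id.snd.fst)).seq (hf.pre IsOp.id.snd))).seq hg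

theorem nil : Fn.{u} fun _ _ _ => .nil := op IsOp.nil

theorem const {c : Tr.{u}} (hc : c.erase = c) : Fn.{u} fun _ _ _ => c := op (IsOp.const hc)

/-- The value of a computed partial function, as an option. -/
theorem opt {n : ℕ} {p : PF.{u}} (hp : Cp n p)
    (hi : ∀ E b z w, LS E (b + n) → In b z → p E b z = some w → In b w) :
    Fn fun E b z => Tr.opt (p E b z) :=
  ⟨n + 1, hp.tot, fun E b z l i => In.opt fun w => hi E b z w (l.cast_le n.le_succ) i⟩

/-- Evaluation at the level itself. -/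
theorem evTop (hf : Fn f) (hg : Fn g) : Fn fun E b z => Tr.opt (ev E b (f E b z) (g E b z)) :=
  (opt Cp.evTop fun _ _ _ _ _ _ e => ev_in e).comp (hf.pair hg)

/-- Evaluation at a lower level. -/
theorem call (hf : Fn f) : Fn fun E b z => call (ev E) b (f E b z) :=
  comp (f := fun E b z => KM.call (ev E) b z) ⟨0, Cp.zero Code.call, fun _ _ _ _ i => i.call⟩ hf

/-- The value of a named function. -/
theorem fv (hf : Fn f) (hg : Fn g) : Fn fun E b z => Tr.opt (fv E (f E b z) (g E b z)) := by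
  refine comp (f := fun E b z => Tr.opt (KM.fv E z.fst z.snd)) ((op (IsOp.id.fst.fst.pair
    (IsOp.id.fst.snd.fst.pair (IsOp.id.snd.pair IsOp.id.fst.snd.snd)))).call.congr
      fun E b z i => ?_) (hf.pair hg)
  by_cases h : z.fst.fst = leaf z.fst.fst.lab
  · have : z.fst.fst.lab < b := by have := i.fst.fst; rw [h] at this; simpa using this
    simp [KM.call, KM.fv, ← h, this]
  · simp [KM.call, KM.fv, h]

end Fn

namespace Df

variable {A B : PR.{u}} {f g : TF.{u}} {s t : Tr.{u} → Tr.{u}}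

theorem fn (hA : Df A) : Fn fun E b z => tv (A E b z) :=
  let ⟨n, h⟩ := hA; ⟨n, h, fun _ _ _ _ _ => in_tv _ _⟩

theorem of_fn (h : Fn fun E b z => tv (A E b z)) : Df A := let ⟨n, h, _⟩ := h; ⟨n, h⟩

theorem congr' (k : ℕ) (hA : Df A) (e : ∀ E b z, LS E (b + k) → In b z → (A E b z ↔ B E b z)) :
    Df B := of_fn (hA.fn.congr' k fun E b z l i => by rw [e E b z l i])

theorem congr (hA : Df A) (e : ∀ E b z, In b z → (A E b z ↔ B E b z)) : Df B :=
  hA.congr' 0 fun E b z _ => e E b z

theorem comp (hA : Df A) (hf : Fn f) : Df fun E b z => A E b (f E b z) := of_fn (hA.fn.comp hf)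

theorem pre (hA : Df A) (hs : IsOp s) : Df fun E b z => A E b (s z) := hA.comp (Fn.op hs)

theorem eq (hf : Fn f) (hg : Fn g) : Df fun E b z => f E b z = g E b z :=
  of_fn ((hf.pair hg).post (IsOp.id.fst.eq IsOp.id.snd))

theorem lt (hf : Fn f) (hg : Fn g) : Df fun E b z => Lt (f E b z) (g E b z) :=
  of_fn ((hf.pair hg).post (IsOp.id.fst.lt IsOp.id.snd))

theorem bd (hf : Fn f) (hg : Fn g) : Df fun E b z => ∃ a, f E b z = leaf a ∧ In a (g E b z) :=
  of_fn ((hf.pair hg).post (IsOp.id.fst.bd IsOp.id.snd))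

theorem isleaf (hf : Fn f) : Df fun E b z => ∃ a, f E b z = leaf a :=
  of_fn (hf.post IsOp.id.isleaf)

theorem ite (hA : Df A) (hf : Fn f) (hg : Fn g) :
    Fn fun E b z => if A E b z then f E b z else g E b z :=
  ((hA.fn.pair (hf.pair hg)).post (IsOp.id.fst.ite_nil IsOp.id.snd.fst IsOp.id.snd.snd)).congr
    fun _ _ _ _ => by simp

theorem not (hA : Df A) : Df fun E b z => ¬ A E b z :=
  (eq (hA.ite (Fn.const (c := one) rfl) Fn.nil) Fn.nil).congr fun _ _ _ _ => by simp

theorem and (hA : Df A) (hB : Df B) : Df fun E b z => A E b z ∧ B E b z :=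
  (eq (hA.fn.pair hB.fn) (Fn.nil.pair Fn.nil)).congr fun _ _ _ _ => by simp

theorem or (hA : Df A) (hB : Df B) : Df fun E b z => A E b z ∨ B E b z :=
  (hA.not.and hB.not).not.congr fun _ _ _ _ => by tauto

theorem imp (hA : Df A) (hB : Df B) : Df fun E b z => A E b z → B E b z :=
  (hA.and hB.not).not.congr fun _ _ _ _ => by tauto

theorem iff (hA : Df A) (hB : Df B) : Df fun E b z => A E b z ↔ B E b z :=
  ((hA.imp hB).and (hB.imp hA)).congr fun _ _ _ _ => by tauto

/-- A code that is defined exactly where `A` holds. -/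
theorem semi (hA : Df A) : ∃ n, Cp (n + 1) fun E b z => if A E b z then some .nil else none :=
  let ⟨n, h⟩ := hA
  ⟨n, ((h.post (IsOp.id.fst.ite_nil (IsOp.nil.pair IsOp.nil) IsOp.nil)).congr fun E b z _ _ => by
    by_cases h : A E b z <;> simp [h]).succ⟩

/-- Uniformisation: a definable choice of a witness, as an option. -/
theorem choice (hA : Df A) : ∃ (g : PF.{u}) (k : ℕ), Fn (fun E b z => opt (g E b z)) ∧
    ∀ E b z, LS E (b + k) → In b z → (∀ t, g E b z = some t → In b t ∧ A E b (node t z)) ∧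
      ∀ t, In b t → A E b (node t z) → (g E b z).isSome := by
  obtain ⟨n, h⟩ := hA.semi
  obtain ⟨g, h1, h2⟩ := h.find
  simp only [← add_succ_cast] at h2
  refine ⟨g, n + 1, Fn.opt h1 fun E b z w l i e => ((h2 E b z l i).1 w e).1, fun E b z l i =>
    ⟨fun t e => ((h2 E b z l i).1 t e).imp_right fun k => ?_,
      fun t ht k => (h2 E b z l i).2 t ht (by simp [k])⟩⟩
  by_contra k'; simp [k'] at k

theorem ex (hA : Df A) : Df fun E b z => ∃ t, In b t ∧ A E b (node t z) := by
  obtain ⟨g, k, h1, h2⟩ := hA.choice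
  refine (eq h1 Fn.nil).not.congr' k fun E b z l i => ?_
  rw [opt_eq_nil, ← ne_eq, Option.ne_none_iff_exists']
  exact ⟨fun ⟨t, e⟩ => ⟨t, (h2 E b z l i).1 t e⟩,
    fun ⟨t, h3, h4⟩ => Option.isSome_iff_exists.1 ((h2 E b z l i).2 t h3 h4)⟩

theorem all (hA : Df A) : Df fun E b z => ∀ t, In b t → A E b (node t z) :=
  hA.not.ex.not.congr fun _ _ _ _ => by simp

/-- A function with a definable graph is definable. -/
theorem graph (k : ℕ) (hA : Df fun E b z => z.fst = f E b z.snd)
    (hi : ∀ E b z, LS E (b + k) → In b z → In b (f E b z)) : Fn f := by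
  obtain ⟨g, m, h1, h2⟩ := hA.choice
  refine h1.snd.congr' (max k m) fun E b z l i => ?_
  obtain ⟨h3, h4⟩ := h2 E b z (l.cast_le (le_max_right _ _)) i
  obtain ⟨t, e⟩ := Option.isSome_iff_exists.1 (h4 _ (hi E b z (l.cast_le (le_max_left _ _)) i) rfl)
  rw [e]; exact (h3 t e).2

/-- The least witness below the level. -/
theorem least (hA : Df A) :
    Fn fun E b z => opt (Tr.least fun t => In b t ∧ A E b (node t z)) := by
  have h : Df fun E b z => A E b z ∧ ∀ s, In b s → Lt s z.fst → ¬ A E b (node s z.snd) :=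
    hA.and ((lt Fn.id.fst Fn.id.snd.fst).imp
      (hA.pre (IsOp.id.fst.pair IsOp.id.snd.snd)).not).all
  obtain ⟨g, m, h1, h2⟩ := h.choice
  refine h1.congr' m fun E b z l i => congrArg opt ?_
  obtain ⟨h3, h4⟩ := h2 E b z l i
  cases e : g E b z with
  | some t =>
    obtain ⟨h5, h6, h7⟩ := h3 t e
    exact (least_eq_some.2 ⟨⟨h5, h6⟩, fun s hs k => h7 s k.1 hs k.2⟩).symm
  | none =>
    refine (least_eq_none.2 fun t ht => ?_).symm
    obtain ⟨t, h5, h6⟩ := exists_isLeast (P := fun t => In b t ∧ A E b (node t z)) ⟨t, ht⟩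
    have := h4 t h5.1 ⟨h5.2, fun s k1 k2 k3 => h6 s k2 ⟨k1, k3⟩⟩
    simp [e] at this

/-- Membership in a named set. -/
theorem nm (hf : Fn f) (hg : Fn g) : Df fun E b z => Nm E (f E b z) (g E b z) := by
  refine (eq (hf.fv hg) Fn.nil).not.congr fun E b z _ => ?_
  rw [opt_eq_nil, KM.fv]; unfold Nm NmL
  split_ifs with h
  · rw [← ne_eq, ← Option.isSome_iff_ne_none]
    exact ⟨fun k => ⟨_, h, k⟩, fun ⟨a, k1, k2⟩ => by rwa [k1]⟩
  · exact ⟨fun k => absurd rfl k, fun ⟨a, k1, _⟩ => absurd (by rw [k1]; rfl) h⟩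

/-- Membership in the theory of the level. -/
theorem th (hf : Fn f) (hg : Fn g) : Df fun E b z => Th E b (f E b z) (g E b z) :=
  (eq (hg.fst.evTop (hg.snd.pair hf)) Fn.nil).not.congr fun E b z _ => by
    rw [opt_eq_nil, ← ne_eq, ← Option.isSome_iff_ne_none]; rfl

end Df

/-- Simulation: a body with a definable oracle is definable. -/
theorem Fn.drun (P : Bd) {O : PR.{u}} (hO : Df O) :
    Fn fun E b z => drun P (fun q => O E b (node q z.snd)) z.fst := by
  induction P generalizing O with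
  | op a => exact Fn.id.fst.post (IsOp.id.of a)
  | seq s P Q ihP ihQ =>
    exact (ihP hO).comp ((((ihQ hO).pair Fn.id.fst).post (IsOp.id.of s)).pair Fn.id.snd)
  | orc => exact (hO.pre (IsOp.id.fst.pair IsOp.id.snd)).fn
  | bex P ih =>
    refine (((Df.lt Fn.id.fst Fn.id.snd.fst.fst).and (Df.eq ((ih hO).pre
      ((IsOp.id.fst.pair IsOp.id.snd.fst.snd).pair IsOp.id.snd.snd)) Fn.nil).not).ex.fn).congr
      fun E b z i => congrArg tv (propext (exists_congr fun t => ?_))
    exact ⟨fun h => h.2, fun h => ⟨h.1.in i.fst.fst, h⟩⟩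
  | sub s P ih =>
    exact (ih (hO.pre (((IsOp.id.fst.pair IsOp.id.snd.fst).of s).pair IsOp.id.snd.snd))).pre
      (IsOp.id.fst.fst.pair (IsOp.id.fst.snd.pair IsOp.id.snd))

end Pool.Agent.KM
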