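import Pool.Agent.Lib.MP_5c0be7_lc.O.Basic

/-!
Project KM: codes and their decoding, naturality of the order and of the operations, bodies.
-/

namespace Pool.Agent.KM

open Ordinal Tr
open scoped Classical

universe u

/-! Codes. -/

@[simp] theorem lv_tag3 (n : ℕ) (a b c : Tr.{u}) : (tag3 n a b c).lv = a.lv ∪ (b.lv ∪ c.lv) := by
  simp [tag3]
@[simp] theorem tag3_ne_nil (n : ℕ) (a b c : Tr.{u}) : tag3 n a b c ≠ .nil := by simp [tag3]

@[simp] theorem Op.lv_code (a : Op) : (a.code : Tr.{u}).lv = ∅ := by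
  induction a <;> simp [Op.code, *]
@[simp] theorem Bd.lv_code (P : Bd) : (P.code : Tr.{u}).lv = ∅ := by
  induction P <;> simp [Bd.code, *]
@[simp] theorem lv_cmp (s : Op) (c1 c2 : Tr.{u}) : (cmp s c1 c2).lv = c1.lv ∪ c2.lv := by
  simp [cmp]
@[simp] theorem lv_opc (a : Op) : (opc a : Tr.{u}).lv = ∅ := by simp [opc]
@[simp] theorem lv_unoptc : (unoptc : Tr.{u}).lv = ∅ := by simp [unoptc]
@[simp] theorem lv_evc : (evc : Tr.{u}).lv = ∅ := by simp [evc]
@[simp] theorem lv_extc : (extc : Tr.{u}).lv = ∅ := by simp [extc]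
@[simp] theorem lv_atomc (q : Tr.{u}) : (atomc q).lv = q.lv := by simp [atomc]
@[simp] theorem lv_atom (Q : Bd) : (atom Q : Tr.{u}).lv = ∅ := by simp [atom]
@[simp] theorem Cd.lv_code (c : Cd) : (c.code : Tr.{u}).lv = ∅ := by
  induction c <;> simp [Cd.code, *]
@[simp] theorem lv_bas (P : BP) : (bas P : Tr.{u}).lv = ∅ := by simp [bas]
@[simp] theorem lv_tst (a : Op) : (tst a : Tr.{u}).lv = ∅ := by simp [tst]
@[simp] theorem lv_lowc : (lowc : Tr.{u}).lv = ∅ := by simp [lowc]

theorem in_of_lv {t : Tr.{u}} (h : t.lv = ∅) (k : Ordinal.{u}) : In k t := by simp [In, h]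
theorem erase_of_lv {t : Tr.{u}} (h : t.lv = ∅) : t.erase = t := erase_eq_self.2 h
theorem map_of_lv {t : Tr.{u}} (h : t.lv = ∅) (f : Ordinal.{u} → Ordinal.{u}) : t.map f = t :=
  map_eq_self (by simp [h])

@[simp] theorem in_cmp (k : Ordinal.{u}) (s : Op) (c1 c2 : Tr.{u}) :
    In k (cmp s c1 c2) ↔ In k c1 ∧ In k c2 := by
  simp only [In, lv_cmp, Set.mem_union, or_imp, forall_and]
@[simp] theorem in_opc (k : Ordinal.{u}) (a : Op) : In k (opc a) := in_of_lv (by simp) k
@[simp] theorem in_unoptc (k : Ordinal.{u}) : In k unoptc := in_of_lv (by simp) k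
@[simp] theorem in_evc (k : Ordinal.{u}) : In k evc := in_of_lv (by simp) k
@[simp] theorem in_extc (k : Ordinal.{u}) : In k extc := in_of_lv (by simp) k
@[simp] theorem in_atom (k : Ordinal.{u}) (Q : Bd) : In k (atom Q) := in_of_lv (by simp) k
@[simp] theorem in_bas (k : Ordinal.{u}) (P : BP) : In k (bas P) := in_of_lv (by simp) k
@[simp] theorem in_tst (k : Ordinal.{u}) (a : Op) : In k (tst a) := in_of_lv (by simp) k
@[simp] theorem Cd.in_code (k : Ordinal.{u}) (c : Cd) : In k c.code := in_of_lv (by simp) k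
@[simp] theorem Bd.in_code (k : Ordinal.{u}) (P : Bd) : In k P.code := in_of_lv (by simp) k

@[simp] theorem map_cmp (f : Ordinal.{u} → Ordinal.{u}) (s : Op) (c1 c2 : Tr.{u}) :
    (cmp s c1 c2).map f = cmp s (c1.map f) (c2.map f) := by
  simp [cmp, tag3, map_of_lv]
@[simp] theorem erase_cmp (s : Op) (c1 c2 : Tr.{u}) :
    (cmp s c1 c2).erase = cmp s c1.erase c2.erase := by
  simp [cmp, tag3, erase_of_lv]

@[simp] theorem decO_code (a : Op) : decO (a.code : Tr.{u}) = a := by
  induction a <;> simp [Op.code, tag3, decO, *]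
@[simp] theorem decD_code (P : Bd) : decD (P.code : Tr.{u}) = P := by
  induction P <;> simp [Bd.code, tag3, decD, *]
@[simp] theorem decC_cmp (s : Op) (c1 c2 : Tr.{u}) :
    decC (cmp s c1 c2) = .cmp s (decC c1) (decC c2) := by simp [cmp, tag3, decC]
@[simp] theorem decC_opc (a : Op) : decC (opc a : Tr.{u}) = .op a := by simp [opc, tag3, decC]
@[simp] theorem decC_unoptc : decC (unoptc : Tr.{u}) = .unopt := by simp [unoptc, tag3, decC]
@[simp] theorem decC_evc : decC (evc : Tr.{u}) = .ev := by simp [evc, tag3, decC]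
@[simp] theorem decC_extc : decC (extc : Tr.{u}) = .ext := by simp [extc, tag3, decC]
@[simp] theorem decC_atomc (q : Tr.{u}) : decC (atomc q) = .atom (decD q) := by
  simp [atomc, tag3, decC]
@[simp] theorem decC_atom (Q : Bd) : decC (atom Q : Tr.{u}) = .atom Q := by simp [atom]
@[simp] theorem decC_code (c : Cd) : decC (c.code : Tr.{u}) = c := by
  induction c <;> simp [Cd.code, *]

theorem decO_leaf (a : Ordinal.{u}) : decO (leaf a) = decO (.nil : Tr.{u}) := by simp [decO]

@[simp] theorem decO_erase (t : Tr.{u}) : decO t.erase = decO t := by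
  fun_induction decO t <;> simp_all [decO]
  rename_i t h
  match t with
  | .nil => simp [decO]
  | leaf _ => simp [decO]
  | node _ .nil => simp [decO]
  | node _ (leaf _) => simp [decO]
  | node _ (node _ .nil) => simp [decO]
  | node _ (node _ (leaf _)) => simp [decO]
  | node _ (node _ (node _ _)) => exact absurd rfl (h _ _ _ _)

@[simp] theorem decD_erase (t : Tr.{u}) : decD t.erase = decD t := by
  fun_induction decD t <;> simp_all [decD]
  rename_i t h
  match t with
  | .nil => simp [decD]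
  | leaf _ => simp [decD]
  | node _ .nil => simp [decD]
  | node _ (leaf _) => simp [decD]
  | node _ (node _ .nil) => simp [decD]
  | node _ (node _ (leaf _)) => simp [decD]
  | node _ (node _ (node _ _)) => exact absurd rfl (h _ _ _ _)

@[simp] theorem decC_erase (t : Tr.{u}) : decC t.erase = decC t := by
  fun_induction decC t <;> simp_all [decC]
  rename_i t h
  match t with
  | .nil => simp [decC]
  | leaf _ => simp [decC]
  | node _ .nil => simp [decC]
  | node _ (leaf _) => simp [decC]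
  | node _ (node _ .nil) => simp [decC]
  | node _ (node _ (leaf _)) => simp [decC]
  | node _ (node _ (node _ _)) => exact absurd rfl (h _ _ _ _)

@[simp] theorem decC_map (f : Ordinal.{u} → Ordinal.{u}) (t : Tr.{u}) :
    decC (t.map f) = decC t := by rw [← decC_erase, erase_map, decC_erase]

theorem decC_congr {s t : Tr.{u}} (h : s.erase = t.erase) : decC s = decC t := by
  rw [← decC_erase, h, decC_erase]

/-! Values of the derived operations. -/

@[simp] theorem bop_id (t : Tr.{u}) : bop .id t = t := rfl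
@[simp] theorem bop_fst (t : Tr.{u}) : bop .fst t = t.fst := rfl
@[simp] theorem bop_snd (t : Tr.{u}) : bop .snd t = t.snd := rfl
@[simp] theorem bop_nil (t : Tr.{u}) : bop .nil t = .nil := rfl
@[simp] theorem bop_pair (a b : Op) (t : Tr.{u}) :
    bop (.pair a b) t = node (bop a t) (bop b t) := rfl
@[simp] theorem bop_comp (a b : Op) (t : Tr.{u}) : bop (.comp a b) t = bop a (bop b t) := rfl
@[simp] theorem bop_ite (a b c : Op) (t : Tr.{u}) :
    bop (.ite a b c) t = if bop a t = .nil then bop b t else bop c t := rfl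
@[simp] theorem bop_eq (t : Tr.{u}) : bop .eq t = tv (t.fst = t.snd) := rfl
@[simp] theorem bop_lt (t : Tr.{u}) : bop .lt t = tv (Lt t.fst t.snd) := rfl
@[simp] theorem bop_isleaf (t : Tr.{u}) : bop .isleaf t = tv (∃ a, t = leaf a) := rfl
@[simp] theorem bop_bd (t : Tr.{u}) : bop .bd t = tv (∃ a, t.fst = leaf a ∧ In a t.snd) := rfl
@[simp] theorem bop_enc (t : Tr.{u}) : bop .enc t = Tr.enc t.fst t.snd := rfl
@[simp] theorem bop_dec (t : Tr.{u}) : bop .dec t = Tr.dec t.fst t.snd := rfl
@[simp] theorem bop_mem (t : Tr.{u}) : bop .mem t = tv (Mem t.fst t.snd) := rfl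
@[simp] theorem bop_erase (t : Tr.{u}) : bop .erase t = t.erase := rfl
@[simp] theorem bop_body (t : Tr.{u}) : bop .body t = (body t).code := rfl
@[simp] theorem bop_tr (t : Tr.{u}) : bop .tr t = (decC t).tr.code := rfl
@[simp] theorem bop_ff (t : Tr.{u}) : bop .ff t = t.fst.fst := rfl
@[simp] theorem bop_fs (t : Tr.{u}) : bop .fs t = t.snd.fst := rfl
@[simp] theorem bop_sf (t : Tr.{u}) : bop .sf t = t.fst.snd := rfl
@[simp] theorem bop_ss (t : Tr.{u}) : bop .ss t = t.snd.snd := rfl
@[simp] theorem bop_tone (t : Tr.{u}) : bop .tone t = Tr.one := rfl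

theorem bop_const' (s t : Tr.{u}) : bop (.const s) t = s.erase := by
  induction s <;> simp [Op.const, *]

@[simp] theorem bop_const {s : Tr.{u}} (h : s.lv = ∅) (t : Tr.{u}) : bop (.const s) t = s := by
  rw [bop_const', erase_of_lv h]

@[simp] theorem bop_mkc (s a b : Op) (t : Tr.{u}) :
    bop (Op.mkc.{u} s a b) t = cmp s (bop a t) (bop b t) := by
  simp [Op.mkc, cmp, tag3]

/-! Naturality. -/

theorem lv_bop (a : Op) (t : Tr.{u}) : (bop a t).lv ⊆ t.lv := by
  induction a generalizing t with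
  | fst => exact lv_fst t
  | snd => exact lv_snd t
  | pair a b iha ihb => simp [iha, ihb]
  | comp a b iha ihb => exact (iha _).trans (ihb _)
  | ite a b c _ ihb ihc => rw [bop_ite]; split_ifs <;> simp [*]
  | lift a ih =>
    intro x hx
    rw [bop, lv_enc] at hx
    rcases lv_dec _ _ (ih _ hx.1) with h | h
    · exact absurd (by rw [show x = t.ht from h]) hx.2
    · exact h
  | enc => exact (lv_enc_subset _ _).trans (lv_snd t)
  | dec => exact (lv_dec _ _).trans (Set.union_subset (lv_fst t) (lv_snd t))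
  | _ => simp

theorem Tr.In.bop {k : Ordinal.{u}} {t : Tr.{u}} (h : In k t) (a : Op) : In k (bop a t) :=
  h.of_subset (lv_bop a t)

theorem map_inj {f : Ordinal.{u} → Ordinal.{u}} {s t : Tr.{u}} (h : Set.InjOn f (s.lv ∪ t.lv)) :
    s.map f = t.map f ↔ s = t := by
  refine ⟨fun e => ?_, fun e => by rw [e]⟩
  induction s generalizing t with
  | nil => cases t <;> simp_all
  | leaf a =>
    cases t with
    | leaf b => rw [h (by simp) (by simp) (show f a = f b by simpa using e)]
    | _ => simp at e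
  | node l r ihl ihr =>
    cases t with
    | node l' r' =>
      simp only [map_node, node.injEq] at e
      rw [ihl (h.mono (by simp only [lv_node]; grind)) e.1,
        ihr (h.mono (by simp only [lv_node]; grind)) e.2]
    | _ => simp at e

theorem in_map_iff {f : Ordinal.{u} → Ordinal.{u}} {a : Ordinal.{u}} {t : Tr.{u}}
    (h : StrictMonoOn f (insert a t.lv)) : In (f a) (t.map f) ↔ In a t := by
  simp only [In, lv_map, Set.forall_mem_image]
  exact forall₂_congr fun x hx => h.lt_iff_lt (Or.inr hx) (Or.inl rfl)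

theorem ht_map_lt {f : Ordinal.{u} → Ordinal.{u}} {s t : Tr.{u}}
    (h : StrictMonoOn f (s.lv ∪ t.lv)) : (s.map f).ht < (t.map f).ht ↔ s.ht < t.ht := by
  simp only [ht_lt_ht, lv_map, Set.exists_mem_image]
  exact exists_congr fun a => and_congr_right fun ha =>
    in_map_iff (h.mono (Set.insert_subset (Or.inr ha) Set.subset_union_left))

theorem ser_map (f : Ordinal.{u} → Ordinal.{u}) (t : Tr.{u}) :
    (t.map f).ser = t.ser.map (WithBot.map (WithBot.map f)) := by
  induction t <;> simp [ser, *]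

theorem mem_ser {t : Tr.{u}} {x} (h : x ∈ t.ser) : x = ⊥ ∨
    x = ((⊥ : WithBot Ordinal.{u}) : WithBot (WithBot Ordinal.{u})) ∨
    ∃ a ∈ t.lv, x = ((a : WithBot Ordinal.{u}) : WithBot (WithBot Ordinal.{u})) := by
  induction t with
  | nil => simp_all [ser]
  | leaf a => simp_all [ser]
  | node l r ihl ihr =>
    simp only [ser, List.mem_cons, List.mem_append] at h
    rcases h with h | h | h
    · exact Or.inr (Or.inl h)
    · exact (ihl h).imp id (Or.imp id fun ⟨a, ha, e⟩ => ⟨a, Or.inl ha, e⟩)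
    · exact (ihr h).imp id (Or.imp id fun ⟨a, ha, e⟩ => ⟨a, Or.inr ha, e⟩)

theorem lex_map {α : Type*} {r : α → α → Prop} {g : α → α} {l1 l2 : List α}
    (h : ∀ a ∈ l1, ∀ b ∈ l2, r a b → r (g a) (g b)) (hl : List.Lex r l1 l2) :
    List.Lex r (l1.map g) (l2.map g) := by
  induction hl with
  | nil => exact List.Lex.nil
  | rel hr => exact List.Lex.rel (h _ (by simp) _ (by simp) hr)
  | cons _ ih => exact List.Lex.cons (ih fun a ha b hb => h a (by simp [ha]) b (by simp [hb]))

theorem Tr.Lt.map {f : Ordinal.{u} → Ordinal.{u}} {s t : Tr.{u}}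
    (h : StrictMonoOn f (s.lv ∪ t.lv)) (hl : Lt s t) : Lt (s.map f) (t.map f) := by
  rcases hl with h1 | ⟨h1, h2⟩
  · exact Or.inl ((ht_map_lt h).2 h1)
  · refine Or.inr ⟨le_antisymm (not_lt.1 fun h3 => ?_) (not_lt.1 fun h3 => ?_), ?_⟩
    · exact absurd ((ht_map_lt (by rwa [Set.union_comm])).1 h3) (by simp [h1])
    · exact absurd ((ht_map_lt h).1 h3) (by simp [h1])
    · rw [List.shortlex_def] at h2 ⊢
      simp only [ser_map, List.length_map]
      refine h2.imp id (And.imp id (lex_map fun a ha b hb hab => ?_))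
      rcases mem_ser ha with rfl | rfl | ⟨a, ha', rfl⟩ <;>
        rcases mem_ser hb with rfl | rfl | ⟨b, hb', rfl⟩ <;> simp at hab ⊢
      exact h (Or.inl ha') (Or.inr hb') hab

theorem lt_map_iff {f : Ordinal.{u} → Ordinal.{u}} {s t : Tr.{u}}
    (h : StrictMonoOn f (s.lv ∪ t.lv)) : Lt (s.map f) (t.map f) ↔ Lt s t := by
  refine ⟨fun hl => ?_, Lt.map h⟩
  rcases lt_tri s t with h1 | rfl | h1
  · exact h1
  · exact absurd hl (lt_irrefl' _)
  · exact absurd (h1.map (by rwa [Set.union_comm])) hl.asymm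

theorem enc_map {f : Ordinal.{u} → Ordinal.{u}} {m t : Tr.{u}} (h : Set.InjOn f (m.lv ∪ t.lv)) :
    Tr.enc (m.map f) (t.map f) = (Tr.enc m t).map f := by
  induction t with
  | nil => rfl
  | leaf a =>
    have : leaf (f a) = m.map f ↔ leaf a = m :=
      map_inj (s := leaf a) (by rwa [Set.union_comm])
    simp only [map_leaf, Tr.enc, this]
    split_ifs <;> rfl
  | node l r ihl ihr =>
    rw [map_node, enc_node, enc_node, ihl (h.mono (by simp only [lv_node]; grind)),
      ihr (h.mono (by simp only [lv_node]; grind))]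
    rfl

theorem mem_map_iff {f : Ordinal.{u} → Ordinal.{u}} {s t : Tr.{u}}
    (h : Set.InjOn f (s.lv ∪ t.lv)) : Mem (s.map f) (t.map f) ↔ Mem s t := by
  induction t with
  | node l r _ ihr =>
    simp only [map_node, Mem]
    rw [map_inj (h.mono (by simp only [lv_node]; grind)),
      ihr (h.mono (by simp only [lv_node]; grind))]
  | _ => simp [Mem]

/-- Moving the fresh label. -/
theorem lift_aux {a : Op} {f : Ordinal.{u} → Ordinal.{u}} {t : Tr.{u}} {m m' : Ordinal.{u}}
    (ih : ∀ (g : Ordinal.{u} → Ordinal.{u}) (s : Tr.{u}), StrictMonoOn g s.lv →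
      bop a (s.map g) = (bop a s).map g)
    (h : StrictMonoOn f t.lv) (hm : In m t) (hm' : In m' (t.map f)) :
    Tr.enc (leaf m') (bop a (Tr.dec (leaf m') (t.map f))) =
      (Tr.enc (leaf m) (bop a (Tr.dec (leaf m) t))).map f := by
  let g : Ordinal.{u} → Ordinal.{u} := fun x => if x = m then m' else f x
  have hg : ∀ x ∈ t.lv, g x = f x := fun x hx => if_neg (hm x hx).ne
  have hgm : g m = m' := if_pos rfl
  have hmono : StrictMonoOn g (insert m t.lv) := by
    rintro x (rfl | hx) y (rfl | hy) hxy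
    · exact absurd hxy (lt_irrefl _)
    · exact absurd hxy (hm y hy).asymm
    · rw [hg x hx, hgm]; exact hm' _ (by rw [lv_map]; exact ⟨x, hx, rfl⟩)
    · rw [hg x hx, hg y hy]; exact h hx hy hxy
  have hs : (Tr.dec (leaf m) t).lv ⊆ insert m t.lv := lv_dec _ _
  have h1 : Tr.dec (leaf m') (t.map f) = (Tr.dec (leaf m) t).map g := by
    rw [map_dec, map_leaf, hgm, map_congr hg]
  have hs2 := (lv_bop a _).trans hs
  rw [h1, ih g _ (hmono.mono hs), ← hgm, ← map_leaf,
    enc_map (hmono.injOn.mono (Set.union_subset (by simp) hs2))]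
  refine map_congr fun x hx => ?_
  rw [lv_enc] at hx
  exact if_neg fun e => hx.2 (by rw [e])

/-- Natural operations commute with increasing changes of labels. -/
theorem bop_map (a : Op) (f : Ordinal.{u} → Ordinal.{u}) (t : Tr.{u}) (h : StrictMonoOn f t.lv) :
    bop a (t.map f) = (bop a t).map f := by
  have hfs : StrictMonoOn f (t.fst.lv ∪ t.snd.lv) :=
    h.mono (Set.union_subset (lv_fst t) (lv_snd t))
  induction a generalizing t f with
  | id => rfl
  | fst => simp
  | snd => simp
  | nil => rfl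
  | pair a b iha ihb => simp [iha f t h hfs, ihb f t h hfs]
  | comp a b iha ihb =>
    have h2 := h.mono (lv_bop b t)
    rw [bop_comp, bop_comp, ihb f t h hfs,
      iha f _ h2 (h2.mono (Set.union_subset (lv_fst _) (lv_snd _)))]
  | ite a b c iha ihb ihc =>
    rw [bop_ite, bop_ite, iha f t h hfs, ihb f t h hfs, ihc f t h hfs]
    simp only [map_eq_nil]
    split_ifs <;> rfl
  | lift a ih =>
    exact lift_aux (fun g s hs => ih g s hs (hs.mono (Set.union_subset (lv_fst _) (lv_snd _))))
      h (in_ht _) (in_ht _)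
  | eq => simp [map_inj hfs.injOn]
  | lt => simp [lt_map_iff hfs]
  | isleaf => cases t <;> simp
  | bd =>
    simp only [bop_bd, map_fst, map_snd, map_tv]
    congr 1
    cases hf : t.fst with
    | leaf a =>
      rw [hf] at hfs
      simp [in_map_iff (a := a) (t := t.snd) hfs]
    | _ => simp
  | enc => simp [enc_map hfs.injOn]
  | dec => simp [map_dec]
  | mem => simp [mem_map_iff hfs.injOn]
  | erase => simp
  | body => simp [body, map_of_lv]
  | tr => simp [map_of_lv]

/-- The lifted operation acts on marked trees. -/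
theorem lift_spec (a : Op) {b : Ordinal.{u}} {t : Tr.{u}} (h : In b t) :
    bop (.lift a) t = Tr.enc (leaf b) (bop a (Tr.dec (leaf b) t)) := by
  have := lift_aux (a := a) (f := fun x => x) (t := t) (m := b) (m' := t.ht)
    (fun g s hs => bop_map a g s hs) (fun _ _ _ _ h => h) h (by simpa using in_ht t)
  simpa [bop] using this

/-! Bodies. -/

@[simp] theorem drun_op (a : Op) (R : Tr.{u} → Prop) (x) : drun (.op a) R x = bop a x := rfl
@[simp] theorem drun_seq (s : Op) (P Q : Bd) (R : Tr.{u} → Prop) (x) :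
    drun (.seq s P Q) R x = drun P R (bop s (node (drun Q R x) x)) := rfl
@[simp] theorem drun_orc (R : Tr.{u} → Prop) (x) : drun .orc R x = tv (R x) := rfl
@[simp] theorem drun_bex (P : Bd) (R : Tr.{u} → Prop) (x) :
    drun (.bex P) R x = tv (∃ t, Lt t x.fst ∧ drun P R (node t x.snd) ≠ .nil) := rfl
@[simp] theorem drun_sub (s : Op) (P : Bd) (R : Tr.{u} → Prop) (x) :
    drun (.sub s P) R x = drun P (fun q => R (bop s (node q x.snd))) x.fst := rfl
@[simp] theorem drun_pre (a : Op) (P : Bd) (R : Tr.{u} → Prop) (x) :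
    drun (.pre a P) R x = drun P R (bop a x) := rfl
@[simp] theorem drun_post (a : Op) (P : Bd) (R : Tr.{u} → Prop) (x) :
    drun (.post a P) R x = bop a (node (drun P R x) x) := rfl
@[simp] theorem drun_pair (P Q : Bd) (R : Tr.{u} → Prop) (x) :
    drun (.pair P Q) R x = node (drun P R x) (drun Q R x) := rfl
@[simp] theorem drun_cst {d : Tr.{u}} (h : d.lv = ∅) (R : Tr.{u} → Prop) (x) :
    drun (.cst d) R x = node d .nil := by simp [Bd.cst, h]

theorem drun_lc (P : Bd) (R : Tr.{u} → Prop) (y) :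
    drun P.lc R y = if ∃ t, Lt t y ∧ drun P R t ≠ .nil then .nil else drun P R y := by
  simp [Bd.lc]

theorem drun_lc_ne {P : Bd} {R : Tr.{u} → Prop} {y} :
    drun P.lc R y ≠ .nil ↔ IsLeast (fun t => drun P R t ≠ .nil) y := by
  rw [drun_lc, Tr.IsLeast]
  split_ifs with h
  · obtain ⟨t, h1, h2⟩ := h
    exact ⟨fun h => absurd rfl h, fun h => absurd h2 (h.2 t h1)⟩
  · exact ⟨fun h1 => ⟨h1, fun s hs h2 => h ⟨s, hs, h2⟩⟩, fun h1 => h1.1⟩

theorem drun_lc_eq {P : Bd} {R : Tr.{u} → Prop} {y} (h : drun P.lc R y ≠ .nil) :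
    drun P.lc R y = drun P R y := by
  rw [drun_lc] at h ⊢
  split_ifs at h ⊢ with h1
  · exact absurd rfl h
  · rfl

theorem lv_drun (P : Bd) (R : Tr.{u} → Prop) (x) : (drun P R x).lv ⊆ x.lv := by
  induction P generalizing R x with
  | op a => exact lv_bop a x
  | seq s P Q ihP ihQ => exact (ihP _ _).trans ((lv_bop _ _).trans (by simp [ihQ]))
  | orc => simp
  | bex P _ => simp
  | sub s P ih => exact (ih _ _).trans (lv_fst x)

theorem Tr.In.drun {k : Ordinal.{u}} {x : Tr.{u}} (h : In k x) (P : Bd) (R : Tr.{u} → Prop) :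
    In k (drun P R x) := h.of_subset (lv_drun P R x)

/-- A body only asks the oracle inside the stratum of its input. -/
theorem drun_congr {k : Ordinal.{u}} (P : Bd) {R R' : Tr.{u} → Prop} {x : Tr.{u}} (hx : In k x)
    (h : ∀ q, In k q → (R q ↔ R' q)) : drun P R x = drun P R' x := by
  induction P generalizing R R' x with
  | op a => rfl
  | seq s P Q ihP ihQ =>
    rw [drun_seq, drun_seq, ← ihQ hx h]
    exact ihP (In.bop (by simp [hx, hx.drun]) s) h
  | orc => simp [h x hx]
  | bex P ih =>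
    simp only [drun_bex]
    congr 2
    ext t
    exact and_congr_right fun ht => by rw [ih (by simp [ht.in hx.fst, hx.snd]) h]
  | sub s P ih =>
    exact ih hx.fst fun q hq => h _ (In.bop (by simp [hq, hx.snd]) s)

/-- Being least inside a stratum. -/
theorem isLeast_in {k : Ordinal.{u}} {P : Tr.{u} → Prop} {y : Tr.{u}} :
    IsLeast (fun t => In k t ∧ P t) y ↔ In k y ∧ IsLeast P y :=
  ⟨fun h => ⟨h.1.1, h.1.2, fun s hs hP => h.2 s hs ⟨hs.in h.1.1, hP⟩⟩,
    fun h => ⟨⟨h.1, h.2.1⟩, fun s hs hP => h.2.2 s hs hP.2⟩⟩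

end Pool.Agent.KM
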