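import Mathlib

/-!
Project KM, fine hierarchy, part 1: finite trees with ordinal labels, their well order, natural
operations, basic programs and their codes.
-/

namespace Pool.Agent.KM

open Ordinal
open scoped Classical

universe u

/-- Finite binary trees with ordinal labels. -/
inductive Tr : Type (u + 1)
  | nil : Tr
  | leaf (a : Ordinal.{u}) : Tr
  | node (l r : Tr) : Tr

namespace Tr

instance : Inhabited Tr.{u} := ⟨nil⟩

/-- Change of labels. -/
def map (f : Ordinal.{u} → Ordinal.{u}) : Tr.{u} → Tr.{u}
  | nil => nil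
  | leaf a => leaf (f a)
  | node l r => node (map f l) (map f r)

/-- The set of labels. -/
def lv : Tr.{u} → Set Ordinal.{u}
  | nil => ∅
  | leaf a => {a}
  | node l r => lv l ∪ lv r

/-- All labels are below `k`. -/
def In (k : Ordinal.{u}) (t : Tr.{u}) : Prop := ∀ a ∈ t.lv, a < k

/-- Height: the least ordinal above all labels. -/
noncomputable def ht : Tr.{u} → Ordinal.{u}
  | nil => 0
  | leaf a => a + 1
  | node l r => max (ht l) (ht r)

/-- The stratum `k`. -/
abbrev St (k : Ordinal.{u}) (t : Tr.{u}) : Prop := In k t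

def fst : Tr.{u} → Tr.{u}
  | node l _ => l
  | _ => nil

def snd : Tr.{u} → Tr.{u}
  | node _ r => r
  | _ => nil

/-- The truth value false (true is `nil`). -/
def one : Tr.{u} := node nil nil

/-- Truth values as trees. -/
noncomputable def tv (p : Prop) : Tr.{u} := if p then nil else one

/-- Remove all labels. -/
def erase : Tr.{u} → Tr.{u}
  | node l r => node (erase l) (erase r)
  | _ => nil

/-- Serialisation. -/
def ser : Tr.{u} → List (WithBot (WithBot Ordinal.{u}))
  | nil => [⊥]
  | leaf a => [((a : WithBot Ordinal.{u}) : WithBot (WithBot Ordinal.{u}))]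
  | node l r => ((⊥ : WithBot Ordinal.{u}) : WithBot (WithBot Ordinal.{u})) :: (ser l ++ ser r)

/-- The well order of trees: height first. -/
def Lt (s t : Tr.{u}) : Prop :=
  s.ht < t.ht ∨ (s.ht = t.ht ∧ List.Shortlex (· < ·) s.ser t.ser)

/-- `t` is the least tree with property `P`. -/
def IsLeast (P : Tr.{u} → Prop) (t : Tr.{u}) : Prop := P t ∧ ∀ s, Lt s t → ¬ P s

/-- The least tree with property `P`, if any. -/
noncomputable def least (P : Tr.{u} → Prop) : Option Tr.{u} :=
  if h : ∃ t, IsLeast P t then some h.choose else none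

/-- Mark the leaves equal to `m`. -/
noncomputable def enc (m : Tr.{u}) : Tr.{u} → Tr.{u}
  | nil => nil
  | leaf a => if leaf a = m then one else leaf a
  | node l r => node (node (enc m l) (enc m r)) nil

/-- Replace the marks by `m`. -/
def dec (m : Tr.{u}) : Tr.{u} → Tr.{u}
  | nil => nil
  | leaf a => leaf a
  | node (node l r) _ => node (dec m l) (dec m r)
  | node nil _ => m
  | node (leaf _) _ => nil

/-- `t` is an entry of the list `s`. -/
def Mem (t : Tr.{u}) : Tr.{u} → Prop
  | node l r => t = l ∨ Mem t r
  | _ => False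

/-- Labelwise lifting of a relation. -/
def Rel (R : Ordinal.{u} → Ordinal.{u} → Prop) : Tr.{u} → Tr.{u} → Prop
  | nil, nil => True
  | leaf a, leaf b => R a b
  | node l r, node l' r' => Rel R l l' ∧ Rel R r r'
  | _, _ => False

def opt : Option Tr.{u} → Tr.{u}
  | none => nil
  | some v => node nil v

def unopt : Tr.{u} → Option Tr.{u}
  | node _ v => some v
  | _ => none

/-- The label of a leaf. -/
def lab : Tr.{u} → Ordinal.{u}
  | leaf a => a
  | _ => 0

def num : ℕ → Tr.{u}
  | 0 => nil
  | n + 1 => node nil (num n)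

def unnum : Tr.{u} → ℕ
  | node _ r => unnum r + 1
  | _ => 0

end Tr

open Tr

/-- Natural operations on trees. -/
inductive Op : Type
  | id | fst | snd | nil
  | pair (a b : Op) | comp (a b : Op) | ite (a b c : Op) | lift (a : Op)
  | eq | lt | isleaf | bd | enc | dec | mem | erase | body | tr

/-- Basic programs. `seq s P Q` runs `P` on `s` of the pair of the value of `Q` and the input. -/
inductive BP : Type
  | op (a : Op) | seq (s : Op) (P Q : BP) | ev | ext

/-- Bodies: total programs with an oracle, bounded search and change of oracle. -/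
inductive Bd : Type
  | op (a : Op) | seq (s : Op) (P Q : Bd) | orc | bex (P : Bd) | sub (s : Op) (P : Bd)

/-- Codes. -/
inductive Cd : Type
  | op (a : Op) | cmp (s : Op) (c1 c2 : Cd) | unopt | ev | ext | atom (Q : Bd)

/-- A tagged triple. -/
def tag3 (n : ℕ) (a b c : Tr.{u}) : Tr.{u} := node (num n) (node a (node b c))

def Op.code : Op → Tr.{u}
  | .id => tag3 0 .nil .nil .nil
  | .fst => tag3 1 .nil .nil .nil
  | .snd => tag3 2 .nil .nil .nil
  | .nil => tag3 3 .nil .nil .nil
  | .pair a b => tag3 4 a.code b.code .nil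
  | .comp a b => tag3 5 a.code b.code .nil
  | .ite a b c => tag3 6 a.code b.code c.code
  | .lift a => tag3 7 a.code .nil .nil
  | .eq => tag3 8 .nil .nil .nil
  | .lt => tag3 9 .nil .nil .nil
  | .isleaf => tag3 10 .nil .nil .nil
  | .bd => tag3 11 .nil .nil .nil
  | .enc => tag3 12 .nil .nil .nil
  | .dec => tag3 13 .nil .nil .nil
  | .mem => tag3 14 .nil .nil .nil
  | .erase => tag3 15 .nil .nil .nil
  | .body => tag3 16 .nil .nil .nil
  | .tr => tag3 17 .nil .nil .nil

def decO : Tr.{u} → Op
  | node tg (node a (node b c)) =>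
    match unnum tg with
    | 0 => .id | 1 => .fst | 2 => .snd | 3 => .nil
    | 4 => .pair (decO a) (decO b) | 5 => .comp (decO a) (decO b)
    | 6 => .ite (decO a) (decO b) (decO c) | 7 => .lift (decO a)
    | 8 => .eq | 9 => .lt | 10 => .isleaf | 11 => .bd | 12 => .enc | 13 => .dec
    | 14 => .mem | 15 => .erase | 16 => .body | _ => .tr
  | _ => .id

def Bd.code : Bd → Tr.{u}
  | .op a => tag3 0 a.code .nil .nil
  | .seq s P Q => tag3 1 P.code Q.code s.code
  | .orc => tag3 2 .nil .nil .nil
  | .bex P => tag3 3 P.code .nil .nil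
  | .sub s P => tag3 4 P.code .nil s.code

def decD : Tr.{u} → Bd
  | node tg (node a (node b c)) =>
    match unnum tg with
    | 0 => .op (decO a) | 1 => .seq (decO c) (decD a) (decD b) | 2 => .orc | 3 => .bex (decD a)
    | _ => .sub (decO c) (decD a)
  | _ => .op .id

/-- Composition code: `c1` on `s` of the pair of the value of `c2` and the input. -/
def cmp (s : Op) (c1 c2 : Tr.{u}) : Tr.{u} := tag3 0 c1 c2 s.code

/-- Code of an operation. -/
def opc (a : Op) : Tr.{u} := tag3 1 a.code .nil .nil

/-- Code that removes the option marker and is undefined on `nil`. -/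
def unoptc : Tr.{u} := tag3 2 .nil .nil .nil

/-- Code of the call of a lower level. -/
def evc : Tr.{u} := tag3 3 .nil .nil .nil

/-- Code of the call of the extender of the level. -/
def extc : Tr.{u} := tag3 4 .nil .nil .nil

/-- Search code whose body is given by its code. -/
def atomc (q : Tr.{u}) : Tr.{u} := tag3 5 q .nil .nil

/-- Search code. -/
def atom (Q : Bd) : Tr.{u} := atomc Q.code

def Cd.code : Cd → Tr.{u}
  | .op a => opc a
  | .cmp s c1 c2 => KM.cmp s c1.code c2.code
  | .unopt => unoptc
  | .ev => evc
  | .ext => extc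
  | .atom Q => KM.atom Q

def decC : Tr.{u} → Cd
  | node tg (node a (node b c)) =>
    match unnum tg with
    | 0 => .cmp (decO c) (decC a) (decC b) | 1 => .op (decO a) | 2 => .unopt | 3 => .ev
    | 4 => .ext | _ => .atom (decD a)
  | _ => .op .id

/-- A basic program as a code. -/
def BP.cd : BP → Cd
  | .op a => .op a
  | .seq s P Q => .cmp s P.cd Q.cd
  | .ev => .ev
  | .ext => .ext

/-- The code of a basic program. -/
def bas (P : BP) : Tr.{u} := P.cd.code

namespace Op

/-- The constant operation with a label-free value. -/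
def const : Tr.{u} → Op
  | node l r => .pair (const l) (const r)
  | _ => .nil

def ff : Op := .comp .fst .fst
def fs : Op := .comp .fst .snd
def sf : Op := .comp .snd .fst
def ss : Op := .comp .snd .snd
def tone : Op := .pair .nil .nil

/-- Builds a composition code. -/
def mkc (s a b : Op) : Op :=
  .pair (const (num.{u} 0)) (.pair a (.pair b (const (s.code : Tr.{u}))))

end Op

namespace Bd

/-- Run `P` on the value of `a`. -/
def pre (a : Op) (P : Bd) : Bd := .seq (.comp a .snd) P (.op .nil)

/-- Apply `a` to the pair of the value of `P` and the input. -/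
def post (a : Op) (P : Bd) : Bd := .seq a (.op .id) P

def pair (P Q : Bd) : Bd :=
  .seq (.pair .snd .fst) (post (.pair .fst .ss) (pre .fst P)) Q

/-- The value of `P` if no smaller input has a value different from `nil`. -/
def lc (P : Bd) : Bd :=
  post (.ite .ff .nil .sf) (pair (pre (.pair .id .nil) (.bex (pre .fst P))) P)

end Bd

/-- A code that is defined exactly if the value of `a` is `nil`. -/
def tst (a : Op) : Tr.{u} := cmp (.ite (.comp a .snd) .tone .nil) unoptc (opc .nil)

/-- A body with constant value. -/
def Bd.cst (d : Tr.{u}) : Bd := .op (.pair (.const d) .nil)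

/-- The code for a call of a level below the predecessor. -/
def lowc : Tr.{u} :=
  cmp (.comp .enc (.pair .nil .fst)) (opc .id)
    (cmp (.comp (.comp .dec (.pair .ff .id)) (.comp .fs .snd)) evc (opc .nil))

/-- Argument of a call, read from the marked input. -/
def Op.arg (m : Op) : Op := .comp .snd (.comp .dec (.pair m .fs))

/-- Builds the code for a call of the predecessor. -/
def Op.runc (y : Op) : Op :=
  Op.mkc.{u} (.comp (.comp .snd (Op.arg .nil)) .snd) y
    (.const (tst (.comp .eq (.pair (.comp .snd (Op.arg .nil)) (.comp .snd (Op.arg .tone)))) :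
      Tr.{u}))

/-- The body of the call of a lower level. -/
def evBody : Bd :=
  .post
    (.ite .ff
      (.ite (.comp .fst .sf)
        (.ite (.comp .snd .sf)
          (.pair (Op.mkc.{u} (.comp .enc (.pair .nil (.pair .nil .fst)))
            (.const (opc .id : Tr.{u})) (Op.runc.{u} .snd)) .nil)
          (.pair (.const (opc .nil : Tr.{u})) .nil))
        .nil)
      (.pair (.const (lowc : Tr.{u})) .nil))
    (.pair
      (.pre (.pair (.const (tst (.comp .eq (.pair (.comp .ff .fs) .tone)) : Tr.{u})) .nil) .orc)
      (.pair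
        (.pre (.pair (.const (tst (.comp .eq (.pair .fst
          (.comp .erase (.comp .fst (Op.arg .nil))))) : Tr.{u})) .id) .orc)
        (.pre (.pair (Op.runc.{u} .id) .nil) .orc)))

/-- Change of oracle for a composition. -/
def Op.chg (s : Op) : Op :=
  .pair
    (Op.mkc.{u}
      (.pair (.comp .ff .snd) (.pair (.comp (.lift s) (.pair (.pair .fst (.comp .fs .snd)) .nil))
        (.comp .ss .snd)))
      .ff (Op.mkc.{u} (.pair (.comp .sf .snd) .ss) .fs (.const (opc .nil : Tr.{u}))))
    (.pair .sf .ss)

/-- The body of a composition. -/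
def cmpBody (s : Op) (P1 P2 : Bd) : Bd :=
  .seq (.pair .ss .fst)
    (.post (.ite .ss .nil (.ite .fst .nil (.comp (Op.chg.{u} s) (.pair .fst .ss))))
      (.sub (Op.chg.{u} s) P1.lc))
    (.pre .fst P2.lc)

/-- The body of a code at a successor level. -/
def Cd.body : Cd → Bd
  | .op a => .cst (opc (.comp (.lift a) .fs) : Tr.{u})
  | .cmp s c1 c2 => cmpBody.{u} s c1.body c2.body
  | .unopt => .cst (KM.cmp (.comp (.ite .ff .nil (.pair .nil (.comp .snd .ff))) .ss)
      unoptc (opc .nil) : Tr.{u})
  | .ev => evBody.{u}
  | .ext => .cst (opc (.pair .tone .nil) : Tr.{u})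
  | .atom Q => Q

/-- Reading of a code as at a limit level, the extender being replaced by a named set. -/
def Cd.tr : Cd → Cd
  | .op a => .op (.comp a .snd)
  | .cmp s c1 c2 => .cmp (.pair .fs (.comp s (.pair .fst .ss))) c1.tr c2.tr
  | .unopt => .cmp .ss .unopt (.op .nil)
  | .ev => .cmp .ss .ev (.op .nil)
  | .ext => .cmp (.ite .fst .tone .nil) (.op .id)
      (.cmp (.comp (.pair .ff (.pair (.comp .fst .sf) (.pair .snd (.comp .snd .sf)))) .snd) .ev
        (.op .nil))
  | .atom _ => .cmp .nil .unopt (.op .nil)

end Pool.Agent.KM
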